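import Pool.Agent.E8helper7.LongTape.Model

/-!
# Basic facts on the machines: inferior limits, walks
-/

open Order Set Ordinal

namespace Pool.E8helper7.LongTape

variable {α : Ordinal.{0}} {p : Program}

lemma liminfAt_eq_nat {t : Ordinal.{0}} {f : Ordinal.{0} → ℕ} {q : ℕ}
    (h1 : ∃ s < t, ∀ r, s ≤ r → r < t → q ≤ f r)
    (h2 : ∀ s < t, ∃ r, s ≤ r ∧ r < t ∧ f r ≤ q) : liminfAt t f = q := by
  have hub : ∀ y ∈ {y | ∃ s < t, ∀ r, s ≤ r → r < t → y ≤ f r}, y ≤ q := by
    rintro y ⟨s, hs, H⟩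
    obtain ⟨r, hr1, hr2, hr3⟩ := h2 s hs
    exact (H r hr1 hr2).trans hr3
  exact le_antisymm (csSup_le ⟨q, h1⟩ hub) (le_csSup ⟨q, hub⟩ h1)

lemma liminfAt_eq_ord {t : Ordinal.{0}} {f : Ordinal.{0} → Ordinal.{0}} {q : Ordinal.{0}}
    (h1 : ∀ y < q, ∃ s < t, ∀ r, s ≤ r → r < t → y < f r)
    (h2 : ∀ s < t, ∃ r, s ≤ r ∧ r < t ∧ f r ≤ q) : liminfAt t f = q := by
  have hub : ∀ y ∈ {y | ∃ s < t, ∀ r, s ≤ r → r < t → y ≤ f r}, y ≤ q := by
    rintro y ⟨s, hs, H⟩
    obtain ⟨r, hr1, hr2, hr3⟩ := h2 s hs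
    exact (H r hr1 hr2).trans hr3
  refine le_antisymm (csSup_le' hub) ?_
  by_contra hlt
  push Not at hlt
  obtain ⟨s, hs, H⟩ := h1 _ hlt
  have hmem : liminfAt t f + 1 ∈ {y | ∃ s < t, ∀ r, s ≤ r → r < t → y ≤ f r} := by
    refine ⟨s, hs, fun r hr1 hr2 => ?_⟩
    exact Order.add_one_le_of_lt (H r hr1 hr2)
  have := le_csSup ⟨q, hub⟩ hmem
  have h3 : liminfAt t f < liminfAt t f + 1 := lt_add_one _
  exact absurd (lt_of_lt_of_le h3 this) (lt_irrefl _)

lemma evTrue_const {t : Ordinal.{0}} {b : Ordinal.{0} → Bool} {v : Bool}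
    (h1 : ∃ s < t, ∀ r, s ≤ r → r < t → b r = v) : evTrue t b = v := by
  obtain ⟨s, hs, H⟩ := h1
  cases v
  · rw [Bool.eq_false_iff]
    intro h
    rw [evTrue_iff] at h
    obtain ⟨s', hs', H'⟩ := h
    have hm : max s s' < t := max_lt hs hs'
    have h1 := H (max s s') (le_max_left _ _) hm
    have h2 := H' (max s s') (le_max_right _ _) hm
    rw [h1] at h2
    exact absurd h2 (by simp)
  · exact evTrue_iff.2 ⟨s, hs, H⟩

lemma evTrue_eq_false {t : Ordinal.{0}} {b : Ordinal.{0} → Bool}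
    (h : ∀ s < t, ∃ r, s ≤ r ∧ r < t ∧ b r = false) : evTrue t b = false := by
  rw [Bool.eq_false_iff]
  intro h'
  rw [evTrue_iff] at h'
  obtain ⟨s', hs', H'⟩ := h'
  obtain ⟨r, h1, h2, h3⟩ := h s' hs'
  rw [H' r h1 h2] at h3
  exact absurd h3 (by simp)

/-- One step when an instruction applies. -/
lemma step_eq {c : Config} {q : ℕ} {s : Sym} {d : Bool}
    (h : p.lookup (c.state, c.tape c.head) = some (q, s, d)) :
    step p c = ⟨q, if d then c.head + 1 else leftOf c.head, Function.update c.tape c.head s⟩ := by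
  simp [step, next, h]

/-- The machine walks to the right over cells that it leaves unchanged, without changing state. -/
theorem walk_right (hα : IsSuccLimit α) {t : Ordinal.{0}} {q : ℕ} {h : Ordinal.{0}}
    {T : Ordinal.{0} → Sym} (ht : run .liminf α p t = ⟨q, h, T⟩) (hh : h < α) (d : Ordinal.{0}) :
    h + d ≤ α → (∀ x, h ≤ x → x < h + d → p.lookup (q, T x) = some (q, T x, true)) →
      run .liminf α p (t + d) = ⟨q, if h + d < α then h + d else 0, T⟩ := by
  induction d using WellFoundedLT.induction with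
  | ind d IH =>
  intro hd hp
  have hIH : ∀ e < d, run .liminf α p (t + e) = ⟨q, h + e, T⟩ := by
    intro e he
    have hlt : h + e < h + d := (add_lt_add_iff_left h).2 he
    rw [IH e he (hlt.le.trans hd) (fun x h1 h2 => hp x h1 (h2.trans hlt)),
      if_pos (lt_of_lt_of_le hlt hd)]
  clear IH
  induction d using limitRecOn with
  | zero => simp [ht, hh]
  | add_one e _ =>
    rw [← add_assoc, run_add_one, hIH e (lt_add_one e)]
    have hlt : h + e < h + (e + 1) := (add_lt_add_iff_left h).2 (lt_add_one e)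
    rw [step_eq (p := p) (c := ⟨q, h + e, T⟩) (hp (h + e) (by simp) hlt)]
    have h2 : h + e + 1 < α := hα.add_one_lt (hlt.trans_le hd)
    simp only [if_true, ← add_assoc, if_pos h2, Function.update_eq_self]
  | limit d hdl _ =>
    have hdpos : 0 < d := hdl.bot_lt
    rw [run_limit (isSuccLimit_add t hdl)]
    have key : ∀ r, t ≤ r → r < t + d → ∃ e < d, r = t + e ∧
        run .liminf α p r = ⟨q, h + e, T⟩ := by
      intro r h1 h2
      have h3 : t + (r - t) = r := Ordinal.add_sub_cancel_of_le h1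
      have h4 : r - t < d := by
        rw [← h3] at h2
        exact (add_lt_add_iff_left t).1 h2
      refine ⟨r - t, h4, h3.symm, ?_⟩
      have := hIH _ h4
      rwa [h3] at this
    have htd : t < t + d := by
      simpa using (add_lt_add_iff_left t).2 hdpos
    have hcof : ∀ s < t + d, ∃ r, s ≤ r ∧ r < t + d ∧ t ≤ r := by
      intro s hs
      exact ⟨max s t, le_max_left _ _, max_lt hs htd, le_max_right _ _⟩
    have hhead : liminfAt (t + d) (fun r => (run .liminf α p r).head) = h + d := by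
      apply liminfAt_eq_ord
      · intro y hy
        obtain ⟨e, he, hye⟩ := (lt_add_iff_of_isSuccLimit hdl).1 hy
        refine ⟨t + e, (add_lt_add_iff_left t).2 he, fun r h1 h2 => ?_⟩
        obtain ⟨e', he', hr, hrun⟩ := key r (le_trans (by simp) h1) h2
        rw [hrun]
        subst hr
        exact lt_of_lt_of_le hye (by simpa using h1)
      · intro s hs
        obtain ⟨r, h1, h2, h3⟩ := hcof s hs
        obtain ⟨e', he', hr, hrun⟩ := key r h3 h2
        refine ⟨r, h1, h2, ?_⟩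
        rw [hrun]
        simpa using he'.le
    have hstate : liminfAt (t + d) (fun r => (run .liminf α p r).state) = q := by
      apply liminfAt_eq_nat
      · refine ⟨t, htd, fun r h1 h2 => ?_⟩
        obtain ⟨e', he', hr, hrun⟩ := key r h1 h2
        simp [hrun]
      · intro s hs
        obtain ⟨r, h1, h2, h3⟩ := hcof s hs
        obtain ⟨e', he', hr, hrun⟩ := key r h3 h2
        exact ⟨r, h1, h2, by simp [hrun]⟩
    have htape : ∀ x, ∀ r, t ≤ r → r < t + d → (run .liminf α p r).tape x = T x := by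
      intro x r h1 h2
      obtain ⟨e', he', hr, hrun⟩ := key r h1 h2
      simp [hrun]
    have e1 : ∀ x, evTrue (t + d) (fun r => ((run .liminf α p r).tape x).1) = (T x).1 := fun x =>
      evTrue_const ⟨t, htd, fun r h1 h2 => by rw [htape x r h1 h2]⟩
    have e2 : ∀ x, evTrue (t + d) (fun r => ((run .liminf α p r).tape x).2.1) = (T x).2.1 :=
      fun x => evTrue_const ⟨t, htd, fun r h1 h2 => by rw [htape x r h1 h2]⟩
    have e3 : ∀ x, evTrue (t + d) (fun r => ((run .liminf α p r).tape x).2.2) = (T x).2.2 :=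
      fun x => evTrue_const ⟨t, htd, fun r h1 h2 => by rw [htape x r h1 h2]⟩
    simp only [limitConfig, hhead, hstate, e1, e2, e3]

/-- `Go Q X Y`: whenever the machine is in configuration `X`, it gets later to configuration `Y`,
and in the meantime the tape satisfies `Q`. -/
def Go (α : Ordinal.{0}) (p : Program) (Q : (Ordinal.{0} → Sym) → Prop) (X Y : Config) : Prop :=
  ∀ t, run .liminf α p t = X → ∃ t', t ≤ t' ∧ run .liminf α p t' = Y ∧
    ∀ r, t ≤ r → r ≤ t' → Q (run .liminf α p r).tape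

variable {Q : (Ordinal.{0} → Sym) → Prop}

lemma Go.trans {X Y Z : Config} (h1 : Go α p Q X Y) (h2 : Go α p Q Y Z) : Go α p Q X Z := by
  intro t ht
  obtain ⟨t', h3, h4, h5⟩ := h1 t ht
  obtain ⟨t'', h6, h7, h8⟩ := h2 t' h4
  refine ⟨t'', h3.trans h6, h7, fun r hr1 hr2 => ?_⟩
  rcases le_total r t' with h | h
  · exact h5 r hr1 h
  · exact h8 r h hr2

lemma Go.refl {X : Config} (h : Q X.tape) : Go α p Q X X := by
  intro t ht
  refine ⟨t, le_rfl, ht, fun r hr1 hr2 => ?_⟩
  rw [le_antisymm hr2 hr1, ht]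
  exact h

lemma Go.mono {Q' : (Ordinal.{0} → Sym) → Prop} {X Y : Config} (h1 : Go α p Q X Y)
    (h : ∀ T, Q T → Q' T) : Go α p Q' X Y := by
  intro t ht
  obtain ⟨t', h3, h4, h5⟩ := h1 t ht
  exact ⟨t', h3, h4, fun r hr1 hr2 => h _ (h5 r hr1 hr2)⟩

/-- One step. -/
lemma Go.step {q : ℕ} {h : Ordinal.{0}} {T : Ordinal.{0} → Sym} {q' : ℕ} {s : Sym} {d : Bool}
    {s₀ : Sym} (hs : T h = s₀) (hp : p.lookup (q, s₀) = some (q', s, d)) (hQ : Q T)
    (hQ' : Q (Function.update T h s)) :
    Go α p Q ⟨q, h, T⟩ ⟨q', if d then h + 1 else leftOf h, Function.update T h s⟩ := by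
  intro t ht
  have h1 : run .liminf α p (t + 1) =
      ⟨q', if d then h + 1 else leftOf h, Function.update T h s⟩ := by
    rw [run_add_one, ht]
    exact step_eq (p := p) (c := ⟨q, h, T⟩) (by simpa [hs] using hp)
  refine ⟨t + 1, (lt_add_one t).le, h1, fun r hr1 hr2 => ?_⟩
  rcases eq_or_lt_of_le hr2 with h | h
  · rw [h, h1]; exact hQ'
  · have : r ≤ t := Order.lt_add_one_iff.1 h
    rw [le_antisymm this hr1, ht]
    exact hQ

/-- Walk to the right. -/
lemma Go.right (hα : IsSuccLimit α) {q : ℕ} {h h' : Ordinal.{0}} {T : Ordinal.{0} → Sym}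
    (hh : h ≤ h') (hh' : h' < α)
    (hp : ∀ x, h ≤ x → x < h' → p.lookup (q, T x) = some (q, T x, true)) (hQ : Q T) :
    Go α p Q ⟨q, h, T⟩ ⟨q, h', T⟩ := by
  intro t ht
  have e : h + (h' - h) = h' := Ordinal.add_sub_cancel_of_le hh
  have hw : ∀ d ≤ h' - h, run .liminf α p (t + d) = ⟨q, h + d, T⟩ := by
    intro d hd
    have h1 : h + d ≤ h' := by
      rw [← e]
      exact (add_le_add_iff_left h).2 hd
    rw [walk_right hα ht (hh.trans_lt hh') d (h1.trans hh'.le)
      (fun x h2 h3 => hp x h2 (h3.trans_le h1)), if_pos (h1.trans_lt hh')]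
  refine ⟨t + (h' - h), by simp, by rw [hw _ le_rfl, e], fun r hr1 hr2 => ?_⟩
  have h3 : t + (r - t) = r := Ordinal.add_sub_cancel_of_le hr1
  have h4 : r - t ≤ h' - h := by
    rw [← h3] at hr2
    exact (add_le_add_iff_left t).1 hr2
  have := hw _ h4
  rw [h3] at this
  rw [this]
  exact hQ

/-- Walk to the right over the whole tape: the head comes back to cell `0`. -/
lemma Go.overflow (hα : IsSuccLimit α) (hadd : ∀ x < α, x + α = α) {q : ℕ} {h : Ordinal.{0}}
    {T : Ordinal.{0} → Sym} (hh : h < α)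
    (hp : ∀ x, h ≤ x → x < α → p.lookup (q, T x) = some (q, T x, true)) :
    Go α p (fun _ => True) ⟨q, h, T⟩ ⟨q, 0, T⟩ := by
  intro t ht
  have := walk_right hα ht hh α (hadd h hh).le (fun x h2 h3 => hp x h2 (by rwa [hadd h hh] at h3))
  rw [hadd h hh, if_neg (lt_irrefl _)] at this
  exact ⟨t + α, by simp, this, fun _ _ _ => trivial⟩

/-- Walk to the left. -/
lemma Go.left {q : ℕ} {T : Ordinal.{0} → Sym} (hQ : Q T) (h : Ordinal.{0}) :
    (∀ x, 0 < x → x ≤ h → p.lookup (q, T x) = some (q, T x, false)) →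
    Go α p Q ⟨q, h, T⟩ ⟨q, 0, T⟩ := by
  induction h using WellFoundedLT.induction with
  | ind h IH =>
  intro hp
  rcases isSuccPrelimitRecOn (motive := fun h => (∃ k, h = k + 1) ∨ leftOf h = 0) h
    (fun a _ => Or.inl ⟨a, rfl⟩) (fun a ha => Or.inr (by
      rcases eq_or_ne a 0 with h0 | h0
      · simp [h0]
      · exact leftOf_limit ⟨by simpa using h0, ha⟩)) with ⟨k, rfl⟩ | h0
  · have h1 : (Go α p Q ⟨q, k + 1, T⟩
        ⟨q, if false then (k + 1) + 1 else leftOf (k + 1), Function.update T (k + 1) (T (k + 1))⟩) :=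
      Go.step rfl (hp (k + 1) (by simp) le_rfl) hQ (by simpa using hQ)
    simp only [Bool.false_eq_true, if_false, leftOf_add_one, Function.update_eq_self] at h1
    exact h1.trans (IH k (lt_add_one k) fun x h1 h2 => hp x h1 (h2.trans (lt_add_one k).le))
  · rcases eq_or_ne h 0 with h2 | h2
    · subst h2
      exact Go.refl hQ
    · have h1 : (Go α p Q ⟨q, h, T⟩
          ⟨q, if false then h + 1 else leftOf h, Function.update T h (T h)⟩) :=
        Go.step rfl (hp h (pos_iff_ne_zero.2 h2) le_rfl) hQ (by simpa using hQ)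
      simpa only [Bool.false_eq_true, if_false, h0, Function.update_eq_self] using h1

end Pool.E8helper7.LongTape
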