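import Pool.Agent.E8helper7.LongTape.Outer

/-!
# Large values of `θ` at countable ordinals, and the countability of the set of reachable cells
-/

open Order Set Ordinal

namespace Pool.E8helper7.LongTape

variable {α : Ordinal.{0}}

lemma MulClosed.one_lt (h : MulClosed α) : 1 < α :=
  one_lt_omega0.trans_le h.1

lemma MulClosed.add_lt (h : MulClosed α) {x y : Ordinal.{0}} (hx : x < α) (hy : y < α) :
    x + y < α := by
  have h2 : (2 : Ordinal.{0}) < α := (by
    have : (2 : Ordinal.{0}) < ω := by exact_mod_cast natCast_lt_omega0 2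
    exact this.trans_le h.1)
  have h3 := h.2 (max x y) (max_lt hx hy) 2 h2
  have e2 : max x y * 2 = max x y + max x y := by
    have : max x y * 2 = max x y * (1 + 1) := by rw [one_add_one_eq_two]
    rw [this, mul_add, mul_one]
  rw [e2] at h3
  exact lt_of_le_of_lt (add_le_add (le_max_left _ _) (le_max_right _ _)) h3

lemma MulClosed.isSuccLimit (h : MulClosed α) : IsSuccLimit α := by
  refine ⟨by simpa using (zero_lt_one.trans h.one_lt).ne', ?_⟩
  rw [Order.isSuccPrelimit_iff_succ_lt]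
  intro s hs
  have := h.add_lt hs h.one_lt
  simpa using this

lemma MulClosed.add_absorb (h : MulClosed α) : ∀ x < α, x + α = α := by
  rw [← isPrincipal_add_iff_add_left_eq_self]
  intro a b ha hb
  exact h.add_lt ha hb

lemma mulClosed_omega_one : MulClosed (ω_ 1) :=
  ⟨omega0_lt_omega_one.le, fun _ hμ _ hν => isPrincipal_mul_omega 1 hμ hν⟩

/-- The ordinal `ω ^ ω ^ (ξ + 1)`. -/
noncomputable def big (ξ : Ordinal.{0}) : Ordinal.{0} := ω ^ (ω : Ordinal.{0}) ^ (ξ + 1)

lemma lt_opow_add_one (ξ : Ordinal.{0}) : ξ < (ω : Ordinal.{0}) ^ (ξ + 1) :=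
  (lt_add_one ξ).trans_le (right_le_opow _ one_lt_omega0)

lemma mulClosed_big (ξ : Ordinal.{0}) : MulClosed (big ξ) := by
  constructor
  · have : (ω : Ordinal.{0}) ^ (1 : Ordinal.{0}) ≤ ω ^ (ω : Ordinal.{0}) ^ (ξ + 1) := by
      apply opow_le_opow_right omega0_pos
      have : (ω : Ordinal.{0}) ^ (0 : Ordinal.{0}) ≤ ω ^ (ξ + 1) :=
        opow_le_opow_right omega0_pos (by simp)
      simpa using this
    simpa [big] using this
  · intro μ hμ ν hν
    exact isPrincipal_mul_omega0_opow_opow (ξ + 1) hμ hν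

lemma lt_big (ξ : Ordinal.{0}) : ξ < big ξ :=
  (lt_opow_add_one ξ).trans_le (right_le_opow _ one_lt_omega0)

lemma big_lt_omega_one {ξ : Ordinal.{0}} (h : ξ < ω_ 1) : big ξ < ω_ 1 := by
  have h1 : IsPrincipal (· ^ ·) (ω_ 1) := isPrincipal_opow_omega 1
  have hlim : IsSuccLimit (ω_ 1 : Ordinal.{0}) := mulClosed_omega_one.isSuccLimit
  exact h1 omega0_lt_omega_one (h1 omega0_lt_omega_one (hlim.add_one_lt h))

/-- On tapes of length `ω ^ ω ^ (ξ + 1)` a cell `≥ ξ` is reachable. -/
theorem exists_reachable_big (ξ : Ordinal.{0}) :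
    ∃ μ < big ξ, ξ ≤ μ ∧ Reachable .liminf (big ξ) μ := by
  have hM := mulClosed_big ξ
  have hg : ω * (ω : Ordinal.{0}) ^ (ξ + 1) < big ξ := by
    have e : ω * (ω : Ordinal.{0}) ^ (ξ + 1) = ω ^ (1 + (ξ + 1)) := by
      rw [opow_add ω 1 (ξ + 1), opow_one]
    rw [e]
    apply (opow_lt_opow_iff_right one_lt_omega0).2
    have hP := isPrincipal_add_omega0_opow (ξ + 1)
    have h1 : (1 : Ordinal.{0}) < ω ^ (ξ + 1) := by
      have : (ω : Ordinal.{0}) ^ (0 : Ordinal.{0}) < ω ^ (ξ + 1) :=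
        (opow_lt_opow_iff_right one_lt_omega0).2 (by simp)
      simpa using this
    exact hP h1 (hP (lt_opow_add_one ξ) h1)
  have h2 : (2 : Ordinal.{0}) ^ (ω * (ω : Ordinal.{0}) ^ (ξ + 1)) = big ξ := by
    have h3 : (2 : Ordinal.{0}) ^ ω = ω := by
      have := natCast_opow_omega0 (n := 2) (by norm_num)
      exact_mod_cast this
    rw [opow_mul, h3, big]
  refine ⟨1 + ω * (ω : Ordinal.{0}) ^ (ξ + 1), hM.add_lt hM.one_lt hg, ?_,
    reachable_one_add hM.isSuccLimit (fun x hx y hy => hM.add_lt hx hy) hM.add_absorb h2 hg⟩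
  have h4 : (ω : Ordinal.{0}) ^ (ξ + 1) ≤ ω * (ω : Ordinal.{0}) ^ (ξ + 1) :=
    le_mul_right _ omega0_pos
  exact (lt_opow_add_one ξ).le.trans (h4.trans (by simp))

lemma le_theta {L : LimitRule} {μ : Ordinal.{0}} (h : μ < α) (h' : Reachable L α μ) :
    μ ≤ theta L α :=
  le_csSup ⟨α, fun _ hx => hx.1.le⟩ ⟨h, h'⟩

/-- The set of reachable cells is countable. -/
theorem countable_reachable (L : LimitRule) (α : Ordinal.{0}) : {μ | Reachable L α μ}.Countable := by
  classical
  have hsub : {μ | Reachable L α μ} ⊆ Set.range (fun p : Program =>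
      (run L α p (sInf {t | Halted p (run L α p t)})).head) := by
    rintro μ ⟨p, t, h1, h2, h3⟩
    refine ⟨p, ?_⟩
    have : sInf {t | Halted p (run L α p t)} = t := by
      apply le_antisymm (csInf_le' (show t ∈ {t | Halted p (run L α p t)} from h1))
      by_contra hlt
      push Not at hlt
      exact h2 _ hlt (csInf_mem (s := {t | Halted p (run L α p t)}) ⟨t, h1⟩)
    simp only
    rw [this, h3]
  exact (Set.countable_range _).mono hsub

/-- A countable set of countable ordinals is bounded below `ω₁`. -/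
lemma sSup_lt_omega_one {s : Set Ordinal.{0}} (hs : s.Countable) (h : ∀ x ∈ s, x < ω_ 1) :
    sSup s < ω_ 1 := by
  rcases s.eq_empty_or_nonempty with rfl | hne
  · simpa using mulClosed_omega_one.isSuccLimit.bot_lt
  · obtain ⟨f, hf⟩ := hs.exists_eq_range hne
    subst hf
    exact Ordinal.iSup_lt_omega_one (fun i => h _ ⟨i, rfl⟩)

theorem theta_omega_one (L : LimitRule) : theta L (ω_ 1) < ω_ 1 :=
  sSup_lt_omega_one ((countable_reachable L (ω_ 1)).mono fun _ hx => hx.2) fun _ hx => hx.1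

/-- `θ` is not monotone. -/
theorem not_monotone_basic : ∃ α β : Ordinal.{0}, MulClosed α ∧ MulClosed β ∧ α < β ∧
    theta .liminf β < theta .liminf α := by
  have h1 := theta_omega_one .liminf
  have hlim : IsSuccLimit (ω_ 1 : Ordinal.{0}) := mulClosed_omega_one.isSuccLimit
  obtain ⟨μ, h2, h3, h4⟩ := exists_reachable_big (theta .liminf (ω_ 1) + 1)
  refine ⟨big (theta .liminf (ω_ 1) + 1), ω_ 1, mulClosed_big _, mulClosed_omega_one,
    big_lt_omega_one (hlim.add_one_lt h1), ?_⟩
  exact (lt_add_one _).trans_le (h3.trans (le_theta h2 h4))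

end Pool.E8helper7.LongTape
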