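import Pool.Agent.E8helper7.LongTape.Observe
import Pool.Agent.E8helper7.LongTape.Theta

/-!
# The model with a distinguished limit state: blocks of length `ω`
-/

open Order Set Ordinal

namespace Pool.E8helper7.LongTape

variable {α : Ordinal.{0}} {p : Program}

/-- The number of the block of length `ω` that contains `h`. -/
noncomputable def blk (h : Ordinal.{0}) : Ordinal.{0} := h / ω

/-- The position of `h` inside its block. -/
noncomputable def off (h : Ordinal.{0}) : ℕ :=
  Classical.choose (lt_omega0.1 (mod_lt h omega0_ne_zero))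

lemma off_spec (h : Ordinal.{0}) : h % ω = off h :=
  Classical.choose_spec (lt_omega0.1 (mod_lt h omega0_ne_zero))

lemma eq_blk_off (h : Ordinal.{0}) : ω * blk h + off h = h := by
  rw [← off_spec]
  exact div_add_mod _ _

lemma blk_mk (k : Ordinal.{0}) (n : ℕ) : blk (ω * k + n) = k := by
  unfold blk
  rw [mul_add_div _ omega0_ne_zero, div_eq_zero_of_lt (natCast_lt_omega0 n), add_zero]

lemma off_mk (k : Ordinal.{0}) (n : ℕ) : off (ω * k + n) = n := by
  have h := off_spec (ω * k + n)
  rw [mul_add_mod_self, mod_eq_of_lt (natCast_lt_omega0 n)] at h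
  exact_mod_cast h.symm

lemma blk_zero : blk 0 = 0 := by
  have := blk_mk 0 0
  simpa using this

lemma mk_add_one (k : Ordinal.{0}) (n : ℕ) :
    ω * k + n + 1 = ω * k + ((n + 1 : ℕ) : Ordinal.{0}) := by
  rw [add_assoc]
  push_cast
  rfl

lemma leftOf_mk (k : Ordinal.{0}) (n : ℕ) :
    leftOf (ω * k + ((n + 1 : ℕ) : Ordinal.{0})) = ω * k + n := by
  rw [← mk_add_one, leftOf_add_one]

lemma leftOf_mul (k : Ordinal.{0}) : leftOf (ω * k) = 0 := by
  rcases eq_or_ne k 0 with h | h
  · simp [h]
  · exact leftOf_limit (isSuccLimit_mul_left isSuccLimit_omega0 (pos_iff_ne_zero.2 h))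

lemma mk_lt_mk {k : Ordinal.{0}} {n m : ℕ} : ω * k + (n : Ordinal.{0}) < ω * k + m ↔ n < m := by
  rw [add_lt_add_iff_left]
  exact_mod_cast Iff.rfl

lemma mk_le_mk {k : Ordinal.{0}} {n m : ℕ} : ω * k + (n : Ordinal.{0}) ≤ ω * k + m ↔ n ≤ m := by
  rw [add_le_add_iff_left]
  exact_mod_cast Iff.rfl

/-- A configuration of one block, with the head somewhere in it. -/
structure LConfig where
  q : ℕ
  n : ℕ
  c : ℕ → Sym

/-- One step of the machine inside a block; on leaving the block at its left end, the block waits
in the limit state `1` at its first cell. -/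
def lstep (p : Program) (X : LConfig) : LConfig :=
  match p.lookup (X.q, X.c X.n) with
  | none => X
  | some (q', s, d) =>
      if d then ⟨q', X.n + 1, Function.update X.c X.n s⟩
      else if X.n = 0 then ⟨1, 0, Function.update X.c X.n s⟩
      else ⟨q', X.n - 1, Function.update X.c X.n s⟩

/-- The limit rule inside a block. -/
noncomputable def llimit (t : Ordinal.{0}) (c : Ordinal.{0} → LConfig) : LConfig where
  q := 1
  n := liminfAt t fun r => (c r).n
  c m := (evTrue t fun r => ((c r).c m).1, evTrue t fun r => ((c r).c m).2.1,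
    evTrue t fun r => ((c r).c m).2.2)

/-- The block at its local time `t`. -/
noncomputable def lrun (p : Program) (t : Ordinal.{0}) : LConfig :=
  limitRecOn t ⟨1, 0, fun _ => (false, false, false)⟩ (fun _ c => lstep p c)
    (fun t _ c => llimit t fun r => if h : r < t then c r h else ⟨1, 0, fun _ =>
      (false, false, false)⟩)

lemma lrun_zero : lrun p 0 = ⟨1, 0, fun _ => (false, false, false)⟩ := by simp [lrun]

lemma lrun_add_one (t : Ordinal.{0}) : lrun p (t + 1) = lstep p (lrun p t) := by simp [lrun]

lemma llimit_congr {t : Ordinal.{0}} {c d : Ordinal.{0} → LConfig} (h : ∀ r < t, c r = d r) :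
    llimit t c = llimit t d := by
  unfold llimit
  congr 1
  · exact liminfAt_congr fun r hr => by rw [h r hr]
  · funext m
    refine Prod.ext ?_ (Prod.ext ?_ ?_)
    · exact evTrue_congr fun r hr => by rw [h r hr]
    · exact evTrue_congr fun r hr => by rw [h r hr]
    · exact evTrue_congr fun r hr => by rw [h r hr]

lemma lrun_limit {t : Ordinal.{0}} (ht : IsSuccLimit t) : lrun p t = llimit t (lrun p) := by
  rw [lrun, limitRecOn_limit _ _ _ _ ht]
  apply llimit_congr
  intro r hr
  simp [hr, lrun]

/-- The head of the machine at time `t`. -/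
noncomputable def hd (α : Ordinal.{0}) (p : Program) (t : Ordinal.{0}) : Ordinal.{0} :=
  (run .special α p t).head

open Classical in
/-- The local time of block `k` at time `t`: the number of earlier times at which the head is in
block `k`. -/
noncomputable def clock (α : Ordinal.{0}) (p : Program) (k t : Ordinal.{0}) : Ordinal.{0} :=
  limitRecOn t 0 (fun r c => if blk (hd α p r) = k then c + 1 else c)
    (fun t _ c => ⨆ r : Iio t, c r.1 r.2)

lemma clock_zero (k : Ordinal.{0}) : clock α p k 0 = 0 := by simp [clock]

lemma clock_in {k t : Ordinal.{0}} (h : blk (hd α p t) = k) :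
    clock α p k (t + 1) = clock α p k t + 1 := by
  simp [clock, h]

lemma clock_out {k t : Ordinal.{0}} (h : blk (hd α p t) ≠ k) :
    clock α p k (t + 1) = clock α p k t := by
  simp [clock, h]

lemma clock_limit {k t : Ordinal.{0}} (ht : IsSuccLimit t) :
    clock α p k t = ⨆ r : Iio t, clock α p k r.1 := by
  rw [clock, limitRecOn_limit _ _ _ _ ht]
  rfl

lemma clock_mono (k : Ordinal.{0}) {s t : Ordinal.{0}} (hst : s ≤ t) :
    clock α p k s ≤ clock α p k t := by
  induction t using limitRecOn with
  | zero =>
    have : s = 0 := by simpa using hst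
    rw [this]
  | add_one t ih =>
    rcases eq_or_lt_of_le hst with h | h
    · rw [h]
    · refine (ih (Order.lt_add_one_iff.1 h)).trans ?_
      by_cases hb : blk (hd α p t) = k
      · rw [clock_in hb]
        exact (lt_add_one _).le
      · rw [clock_out hb]
  | limit t ht ih =>
    rcases eq_or_lt_of_le hst with h | h
    · rw [h]
    · rw [clock_limit ht]
      exact Ordinal.le_iSup (fun r : Iio t => clock α p k r.1) ⟨s, h⟩

lemma lt_clock_limit {k t x : Ordinal.{0}} (ht : IsSuccLimit t) :
    x < clock α p k t ↔ ∃ r < t, x < clock α p k r := by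
  rw [clock_limit ht, Ordinal.lt_iSup_iff]
  constructor
  · rintro ⟨r, hr⟩
    exact ⟨r.1, r.2, hr⟩
  · rintro ⟨r, hr, h⟩
    exact ⟨⟨r, hr⟩, h⟩

/-- The clock does not move while the head is elsewhere. -/
lemma clock_const {k s : Ordinal.{0}} (t : Ordinal.{0}) : s ≤ t →
    (∀ r, s ≤ r → r < t → blk (hd α p r) ≠ k) → clock α p k t = clock α p k s := by
  induction t using limitRecOn with
  | zero =>
    intro hst _
    have : s = 0 := by simpa using hst
    rw [this]
  | add_one t ih =>
    intro hst H
    rcases eq_or_lt_of_le hst with h | h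
    · rw [h]
    · have h1 := Order.lt_add_one_iff.1 h
      rw [clock_out (H t h1 (lt_add_one t))]
      exact ih h1 fun r hr1 hr2 => H r hr1 (hr2.trans (lt_add_one t))
  | limit t ht ih =>
    intro hst H
    rcases eq_or_lt_of_le hst with h | h
    · rw [h]
    · apply le_antisymm _ (clock_mono k hst)
      by_contra hc
      push Not at hc
      obtain ⟨r, hr, hr'⟩ := (lt_clock_limit ht).1 hc
      rcases le_total s r with h1 | h1
      · rw [ih r hr h1 fun u hu1 hu2 => H u hu1 (hu2.trans hr)] at hr'
        exact lt_irrefl _ hr'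
      · exact absurd (clock_mono k h1) hr'.not_ge

/-- Every local time is the local time of some moment at which the block is active. -/
lemma clock_onto {k x : Ordinal.{0}} (t : Ordinal.{0}) : x < clock α p k t →
    ∃ r < t, clock α p k r = x ∧ blk (hd α p r) = k := by
  induction t using limitRecOn with
  | zero => intro h; rw [clock_zero] at h; exact absurd h (by simp)
  | add_one t ih =>
    intro h
    by_cases hb : blk (hd α p t) = k
    · rw [clock_in hb] at h
      rcases eq_or_lt_of_le (Order.lt_add_one_iff.1 h) with h1 | h1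
      · exact ⟨t, lt_add_one t, h1.symm, hb⟩
      · obtain ⟨r, hr, h2⟩ := ih h1
        exact ⟨r, hr.trans (lt_add_one t), h2⟩
    · rw [clock_out hb] at h
      obtain ⟨r, hr, h2⟩ := ih h
      exact ⟨r, hr.trans (lt_add_one t), h2⟩
  | limit t ht ih =>
    intro h
    obtain ⟨r, hr, h1⟩ := (lt_clock_limit ht).1 h
    obtain ⟨r', hr', h2⟩ := ih r hr h1
    exact ⟨r', hr'.trans hr, h2⟩

/-- If the block is visited cofinally before `t`, its local time is at `t` a limit, approached by
its values at earlier times. -/
lemma clock_cofinal {k t : Ordinal.{0}} (ht : IsSuccLimit t)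
    (hc : ∀ s < t, ∃ r, s ≤ r ∧ r < t ∧ blk (hd α p r) = k) :
    IsSuccLimit (clock α p k t) ∧ ∀ r < t, clock α p k r < clock α p k t := by
  have h1 : ∀ r < t, clock α p k r < clock α p k t := by
    intro r hr
    obtain ⟨u, h1, h2, h3⟩ := hc r hr
    have h4 : clock α p k (u + 1) ≤ clock α p k t := clock_mono k (ht.add_one_lt h2).le
    rw [clock_in h3] at h4
    exact ((clock_mono k h1).trans_lt (lt_add_one _)).trans_le h4
  refine ⟨⟨?_, ?_⟩, h1⟩
  · have := h1 0 ht.bot_lt
    rw [clock_zero] at this
    simpa using this.ne'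
  · rw [Order.isSuccPrelimit_iff_succ_lt]
    intro x hx
    obtain ⟨r, hr, hxr⟩ := (lt_clock_limit ht).1 hx
    exact lt_of_le_of_lt (Order.succ_le_of_lt hxr) (h1 r hr)

/-- Transfer of eventual properties between global and local time. -/
lemma ev_clock {k t : Ordinal.{0}} (ht : IsSuccLimit t)
    (hc : ∀ s < t, ∃ r, s ≤ r ∧ r < t ∧ blk (hd α p r) = k) (P : Ordinal.{0} → Prop) :
    Ev t (fun r => P (clock α p k r)) ↔ Ev (clock α p k t) P := by
  obtain ⟨_, h1⟩ := clock_cofinal ht hc
  constructor
  · rintro ⟨s, hs, H⟩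
    refine ⟨clock α p k s, h1 s hs, fun x hx1 hx2 => ?_⟩
    obtain ⟨r, hr, hrx, _⟩ := clock_onto t hx2
    rcases le_total s r with h | h
    · have := H r h hr
      simp only at this
      rwa [hrx] at this
    · have h2 : clock α p k s = x := le_antisymm hx1 (by rw [← hrx]; exact clock_mono k h)
      have := H s le_rfl hs
      simp only at this
      rwa [h2] at this
  · rintro ⟨x, hx, H⟩
    obtain ⟨s, hs, hxs⟩ := (lt_clock_limit ht).1 hx
    exact ⟨s, hs, fun r hr1 hr2 => H _ (hxs.le.trans (clock_mono k hr1)) (h1 r hr2)⟩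

end Pool.E8helper7.LongTape
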