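import Pool.Agent.E8helper7.LongTape.Block

/-!
# The model with a distinguished limit state: every block `k ≥ 1` runs as the same local machine
-/

open Order Set Ordinal

namespace Pool.E8helper7.LongTape

variable {α : Ordinal.{0}} {p : Program}

lemma blk_add_one (h : Ordinal.{0}) : blk (h + 1) = blk h := by
  conv_lhs => rw [← eq_blk_off h, mk_add_one, blk_mk]

lemma off_add_one (h : Ordinal.{0}) : off (h + 1) = off h + 1 := by
  conv_lhs => rw [← eq_blk_off h, mk_add_one, off_mk]

lemma blk_leftOf (h : Ordinal.{0}) : (blk (leftOf h) = blk h ∧ 1 ≤ off h ∧
    off (leftOf h) = off h - 1) ∨ (leftOf h = 0 ∧ off h = 0) := by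
  rcases hn : off h with _ | n
  · right
    refine ⟨?_, rfl⟩
    have := eq_blk_off h
    rw [hn] at this
    rw [← this]
    simpa using leftOf_mul (blk h)
  · left
    have h1 := eq_blk_off h
    rw [hn] at h1
    refine ⟨?_, by omega, ?_⟩
    · conv_lhs => rw [← h1, leftOf_mk, blk_mk]
    · conv_lhs => rw [← h1, leftOf_mk, off_mk]
      rfl

/-- The inferior limit of the positions of the head. -/
noncomputable def plim (α : Ordinal.{0}) (p : Program) (t : Ordinal.{0}) : Ordinal.{0} :=
  liminfAt t (hd α p)

lemma hd_limit {t : Ordinal.{0}} (ht : IsSuccLimit t) :
    hd α p t = if plim α p t < α then plim α p t else 0 := by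
  unfold hd
  rw [run_limit ht]
  rfl

lemma lt_plim (hα : IsSuccLimit α) {t y : Ordinal.{0}} :
    y < plim α p t ↔ Ev t (fun r => y < hd α p r) :=
  lt_liminfAt_ord (B := α) fun r _ => (head_lt hα p r).le

lemma plim_eq_of_blk {t : Ordinal.{0}} (ht : IsSuccLimit t)
    (hk : hd α p t ≠ 0) : plim α p t = hd α p t ∧ plim α p t < α := by
  have h := hd_limit (α := α) (p := p) ht
  by_cases hc : plim α p t < α
  · rw [if_pos hc] at h
    exact ⟨h.symm, hc⟩
  · rw [if_neg hc] at h
    exact absurd h hk

/-- Block `k` at time `t` is in the configuration of the local machine at its local time. -/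
structure Match (α : Ordinal.{0}) (p : Program) (k t : Ordinal.{0}) : Prop where
  tape : ∀ n : ℕ, (run .special α p t).tape (ω * k + n) = (lrun p (clock α p k t)).c n
  inn : blk (hd α p t) = k → (run .special α p t).state = (lrun p (clock α p k t)).q ∧
    off (hd α p t) = (lrun p (clock α p k t)).n
  out : blk (hd α p t) ≠ k → (lrun p (clock α p k t)).q = 1 ∧ (lrun p (clock α p k t)).n = 0

theorem match_all (hα : IsSuccLimit α) {k : Ordinal.{0}} (hk : k ≠ 0) (t : Ordinal.{0}) :
    Match α p k t := by
  induction t using limitRecOn with
  | zero =>
    have h0 : hd α p 0 = 0 := by simp [hd, Config.start]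
    refine ⟨fun n => ?_, fun h => ?_, fun _ => ?_⟩
    · rw [clock_zero, lrun_zero, run_zero]
      rfl
    · rw [h0, blk_zero] at h
      exact absurd h.symm hk
    · rw [clock_zero, lrun_zero]
      exact ⟨rfl, rfl⟩
  | add_one t ih =>
    by_cases hb : blk (hd α p t) = k
    · obtain ⟨h1, h2⟩ := ih.inn hb
      have hhd : hd α p t = ω * k + (lrun p (clock α p k t)).n := by
        rw [← h2, ← hb]
        exact (eq_blk_off _).symm
      have htp : (run .special α p t).tape (hd α p t) =
          (lrun p (clock α p k t)).c (lrun p (clock α p k t)).n := by
        rw [hhd]
        exact ih.tape _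
      have hclock := clock_in hb
      have hrun : run .special α p (t + 1) = step p (run .special α p t) := run_add_one t
      have hnext : next p (run .special α p t) =
          p.lookup ((lrun p (clock α p k t)).q, (lrun p (clock α p k t)).c
            (lrun p (clock α p k t)).n) := by
        unfold next
        rw [h1]
        have : (run .special α p t).tape (run .special α p t).head =
          (lrun p (clock α p k t)).c (lrun p (clock α p k t)).n := htp
        rw [this]
      rcases hX : p.lookup ((lrun p (clock α p k t)).q, (lrun p (clock α p k t)).c
            (lrun p (clock α p k t)).n) with _ | ⟨q', s, d⟩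
      · have e1 : run .special α p (t + 1) = run .special α p t := by
          rw [hrun]
          unfold step
          rw [hnext, hX]
        have e2 : lrun p (clock α p k (t + 1)) = lrun p (clock α p k t) := by
          rw [hclock, lrun_add_one]
          unfold lstep
          rw [hX]
        have e3 : hd α p (t + 1) = hd α p t := by
          unfold hd
          rw [e1]
        refine ⟨fun n => ?_, fun _ => ?_, fun h => ?_⟩
        · rw [e1, e2]
          exact ih.tape n
        · rw [e1, e2, e3]
          exact ⟨h1, h2⟩
        · rw [e3] at h
          exact absurd hb h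
      · have e1 : run .special α p (t + 1) = ⟨q', if d then hd α p t + 1 else leftOf (hd α p t),
            Function.update (run .special α p t).tape (hd α p t) s⟩ := by
          rw [hrun]
          unfold step
          rw [hnext, hX]
          rfl
        have e2 : lrun p (clock α p k (t + 1)) =
            if d then ⟨q', (lrun p (clock α p k t)).n + 1,
              Function.update (lrun p (clock α p k t)).c (lrun p (clock α p k t)).n s⟩
            else if (lrun p (clock α p k t)).n = 0 then ⟨1, 0,
              Function.update (lrun p (clock α p k t)).c (lrun p (clock α p k t)).n s⟩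
            else ⟨q', (lrun p (clock α p k t)).n - 1,
              Function.update (lrun p (clock α p k t)).c (lrun p (clock α p k t)).n s⟩ := by
          rw [hclock, lrun_add_one]
          unfold lstep
          rw [hX]
        have etape : ∀ n : ℕ, (run .special α p (t + 1)).tape (ω * k + n) =
            Function.update (lrun p (clock α p k t)).c (lrun p (clock α p k t)).n s n := by
          intro n
          rw [e1]
          simp only
          rcases eq_or_ne n (lrun p (clock α p k t)).n with hn | hn
          · rw [hn, ← hhd, Function.update_self, Function.update_self]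
          · rw [Function.update_of_ne hn, Function.update_of_ne]
            · exact ih.tape n
            · rw [hhd]
              intro h
              have := congrArg off h
              rw [off_mk, off_mk] at this
              exact hn this
        cases d with
        | true =>
          simp only [if_true] at e1 e2
          have e3 : hd α p (t + 1) = hd α p t + 1 := by
            unfold hd at e1 ⊢
            rw [e1]
          refine ⟨fun n => ?_, fun _ => ?_, fun h => ?_⟩
          · rw [etape, e2]
          · rw [e3, e2, e1, off_add_one, h2]
            exact ⟨rfl, rfl⟩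
          · rw [e3, blk_add_one] at h
            exact absurd hb h
        | false =>
          simp only [Bool.false_eq_true, if_false] at e1 e2
          have e3 : hd α p (t + 1) = leftOf (hd α p t) := by
            unfold hd at e1 ⊢
            rw [e1]
          rcases blk_leftOf (hd α p t) with ⟨l1, l2, l3⟩ | ⟨l1, l2⟩
          · have hn : (lrun p (clock α p k t)).n ≠ 0 := by omega
            rw [if_neg hn] at e2
            refine ⟨fun n => ?_, fun _ => ?_, fun h => ?_⟩
            · rw [etape, e2]
            · rw [e3, e2, e1, l3, h2]
              exact ⟨rfl, rfl⟩
            · rw [e3, l1] at h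
              exact absurd hb h
          · have hn : (lrun p (clock α p k t)).n = 0 := by omega
            rw [if_pos hn] at e2
            refine ⟨fun n => ?_, fun h => ?_, fun _ => ?_⟩
            · rw [etape, e2]
            · rw [e3, l1, blk_zero] at h
              exact absurd h.symm hk
            · rw [e2]
              exact ⟨rfl, rfl⟩
    · have hclock := clock_out hb
      have hne : ∀ n : ℕ, (run .special α p (t + 1)).tape (ω * k + n) =
          (run .special α p t).tape (ω * k + n) := by
        intro n
        rw [run_add_one]
        rcases step_cases p (run .special α p t) with ⟨h, _⟩ | ⟨q, s, d, _, h⟩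
        · rw [h]
        · rw [h]
          simp only
          rw [Function.update_of_ne]
          intro h'
          apply hb
          unfold hd
          rw [← h', blk_mk]
      have hblk : blk (hd α p (t + 1)) ≠ k := by
        unfold hd
        rw [run_add_one]
        rcases step_cases p (run .special α p t) with ⟨h, _⟩ | ⟨q, s, d, _, h⟩
        · rw [h]
          exact hb
        · rw [h]
          simp only
          split_ifs
          · rw [blk_add_one]
            exact hb
          · rcases blk_leftOf (run .special α p t).head with ⟨l1, _, _⟩ | ⟨l1, _⟩
            · rw [l1]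
              exact hb
            · rw [l1, blk_zero]
              exact hk.symm
      refine ⟨fun n => ?_, fun h => absurd h hblk, fun _ => ?_⟩
      · rw [hne, hclock]
        exact ih.tape n
      · rw [hclock]
        exact ih.out hb
  | limit t ht ih =>
    have hstate : (run .special α p t).state = 1 := by
      rw [run_limit ht]
      rfl
    by_cases hc : ∀ s < t, ∃ r, s ≤ r ∧ r < t ∧ blk (hd α p r) = k
    · -- the block is visited cofinally
      obtain ⟨hlim, hlt⟩ := clock_cofinal ht hc
      have tr := ev_clock ht hc
      have hlrun := lrun_limit (p := p) hlim
      have hq : (lrun p (clock α p k t)).q = 1 := by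
        rw [hlrun]
        rfl
      have htape : ∀ n : ℕ, (run .special α p t).tape (ω * k + n) =
          (lrun p (clock α p k t)).c n := by
        intro n
        rw [run_limit ht, hlrun]
        simp only [limitConfig, llimit]
        refine Prod.ext ?_ (Prod.ext ?_ ?_)
        · simp only
          rw [Bool.eq_iff_iff, evTrue_iff, evTrue_iff]
          refine Iff.trans (Ev.congr fun r hr => ?_) (tr fun x => ((lrun p x).c n).1 = true)
          rw [(ih r hr).tape n]
        · simp only
          rw [Bool.eq_iff_iff, evTrue_iff, evTrue_iff]
          refine Iff.trans (Ev.congr fun r hr => ?_) (tr fun x => ((lrun p x).c n).2.1 = true)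
          rw [(ih r hr).tape n]
        · simp only
          rw [Bool.eq_iff_iff, evTrue_iff, evTrue_iff]
          refine Iff.trans (Ev.congr fun r hr => ?_) (tr fun x => ((lrun p x).c n).2.2 = true)
          rw [(ih r hr).tape n]
      have hn : (lrun p (clock α p k t)).n =
          liminfAt (clock α p k t) (fun x => (lrun p x).n) := by
        rw [hlrun]
        rfl
      -- the head in the block, described by the local machine
      have hin : ∀ r < t, (lrun p (clock α p k r)).n ≠ 0 →
          hd α p r = ω * k + (lrun p (clock α p k r)).n := by
        intro r hr h
        have hb : blk (hd α p r) = k := by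
          by_contra hb
          exact h ((ih r hr).out hb).2
        rw [← ((ih r hr).inn hb).2]
        conv_lhs => rw [← eq_blk_off (hd α p r), hb]
      refine ⟨htape, fun hb => ⟨by rw [hstate, hq], ?_⟩, fun hb => ⟨hq, ?_⟩⟩
      · -- the head is in the block
        set m := off (hd α p t) with hm
        have hhd : hd α p t = ω * k + m := by
          rw [hm]
          conv_lhs => rw [← eq_blk_off (hd α p t), hb]
        have hne : hd α p t ≠ 0 := by
          intro h
          rw [h, blk_zero] at hb
          exact hk hb.symm
        obtain ⟨hp1, hp2⟩ := plim_eq_of_blk ht hne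
        rw [hhd] at hp1
        rw [hn]
        symm
        apply liminfAt_eq_nat
        · rcases hm0 : m with _ | m'
          · exact ⟨0, hlim.bot_lt, fun _ _ _ => Nat.zero_le _⟩
          · have h1 : ω * k + (m' : Ordinal.{0}) < plim α p t := by
              rw [hp1, hm0, mk_lt_mk]
              exact Nat.lt_succ_self m'
            obtain ⟨s, hs, H⟩ := (lt_plim hα).1 h1
            simp only at H
            have hins : ∀ r, s ≤ r → r < t → blk (hd α p r) = k := by
              intro r hr1 hr2
              by_contra hb'
              -- the next visit
              obtain ⟨u, hu1, hu2, hu3⟩ := hc r hr2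
              let V : Set Ordinal.{0} := {u | r ≤ u ∧ blk (hd α p u) = k}
              have hV : V.Nonempty := ⟨u, hu1, hu3⟩
              have hv : sInf V ∈ V := csInf_mem hV
              have hvt : sInf V < t := lt_of_le_of_lt (csInf_le' ⟨hu1, hu3⟩) hu2
              have hconst : clock α p k (sInf V) = clock α p k r := by
                apply clock_const _ hv.1
                intro w hw1 hw2 hw3
                exact absurd (csInf_le' (show w ∈ V from ⟨hw1, hw3⟩)) hw2.not_ge
              have h2 := ((ih _ hvt).inn hv.2).2
              rw [hconst, ((ih r hr2).out hb').2] at h2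
              have h3 : hd α p (sInf V) = ω * k + ((0 : ℕ) : Ordinal.{0}) := by
                rw [← h2]
                conv_lhs => rw [← eq_blk_off (hd α p (sInf V)), hv.2]
              have h4 := H (sInf V) (hr1.trans hv.1) hvt
              rw [h3, mk_lt_mk] at h4
              exact absurd h4 (Nat.not_lt_zero _)
            have hEv : Ev t (fun r => m' + 1 ≤ (lrun p (clock α p k r)).n) := by
              refine ⟨s, hs, fun r hr1 hr2 => ?_⟩
              have h5 := hins r hr1 hr2
              have h6 := H r hr1 hr2
              have h7 : hd α p r = ω * k + off (hd α p r) := by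
                conv_lhs => rw [← eq_blk_off (hd α p r), h5]
              rw [h7, mk_lt_mk] at h6
              simp only
              rw [← ((ih r hr2).inn h5).2]
              exact h6
            exact (tr fun x => m' + 1 ≤ (lrun p x).n).1 hEv
        · intro x hx
          have hnot : ¬ Ev (clock α p k t) (fun x => m < (lrun p x).n) := by
            intro hE
            obtain ⟨s, hs, H⟩ := (tr fun x => m < (lrun p x).n).2 hE
            simp only at H
            have h1 : plim α p t < plim α p t := by
              rw [lt_plim hα]
              refine ⟨s, hs, fun r hr1 hr2 => ?_⟩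
              have h2 := H r hr1 hr2
              simp only
              rw [hin r hr2 (by omega), hp1, mk_lt_mk]
              exact h2
            exact lt_irrefl _ h1
          obtain ⟨r, h1, h2, h3⟩ := not_ev hnot hx
          exact ⟨r, h1, h2, not_lt.1 h3⟩
      · -- the head is not in the block
        by_contra hne
        set m := (lrun p (clock α p k t)).n with hm
        -- `m` is the inferior limit of the local positions
        have hbdd : ∃ B, ∀ y ∈ {y | ∃ s < clock α p k t, ∀ r, s ≤ r → r < clock α p k t →
            y ≤ (lrun p r).n}, y ≤ B := by
          by_contra hB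
          have : ¬ BddAbove {y | ∃ s < clock α p k t, ∀ r, s ≤ r → r < clock α p k t →
            y ≤ (lrun p r).n} := by
            rintro ⟨B, hB'⟩
            exact hB ⟨B, fun y hy => hB' hy⟩
          apply hne
          rw [hn]
          exact Nat.sSup_of_not_bddAbove this
        obtain ⟨B, hB⟩ := hbdd
        have hne' : {y | ∃ s < clock α p k t, ∀ r, s ≤ r → r < clock α p k t →
            y ≤ (lrun p r).n}.Nonempty := ⟨0, 0, hlim.bot_lt, fun _ _ _ => Nat.zero_le _⟩
        have hmem : m ∈ {y | ∃ s < clock α p k t, ∀ r, s ≤ r → r < clock α p k t →
            y ≤ (lrun p r).n} := by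
          rw [hn]
          exact Nat.sSup_mem hne' ⟨B, hB⟩
        have hnm : ¬ Ev (clock α p k t) (fun x => m < (lrun p x).n) := by
          rintro ⟨s, hs, H⟩
          have : m + 1 ≤ m := by
            conv_rhs => rw [hn]
            exact le_csSup ⟨B, hB⟩ ⟨s, hs, fun r h1 h2 => H r h1 h2⟩
          omega
        have hE : Ev t (fun r => m ≤ (lrun p (clock α p k r)).n) :=
          (tr fun x => m ≤ (lrun p x).n).2 hmem
        have hnE : ¬ Ev t (fun r => m < (lrun p (clock α p k r)).n) := fun h =>
          hnm ((tr fun x => m < (lrun p x).n).1 h)
        obtain ⟨s, hs, H⟩ := hE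
        simp only at H
        have hplim : plim α p t = ω * k + m := by
          apply liminfAt_eq_ord
          · intro y hy
            refine ⟨s, hs, fun r hr1 hr2 => ?_⟩
            have h1 := H r hr1 hr2
            rw [hin r hr2 (by omega)]
            exact hy.trans_le (mk_le_mk.2 h1)
          · intro s' hs'
            obtain ⟨r, h1, h2, h3⟩ := not_ev hnE (max_lt hs hs')
            have h4 := H r ((le_max_left _ _).trans h1) h2
            refine ⟨r, (le_max_right _ _).trans h1, h2, ?_⟩
            rw [hin r h2 (by omega), mk_le_mk]
            exact not_lt.1 h3
        have hlt' : plim α p t < α := by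
          rw [hplim]
          have h1 := H s le_rfl hs
          have h2 := head_lt (L := .special) hα p s
          have h3 := hin s hs (by omega)
          unfold hd at h3
          rw [h3] at h2
          exact lt_of_le_of_lt (mk_le_mk.2 h1) h2
        apply hb
        rw [hd_limit ht, if_pos hlt', hplim, blk_mk]
    · -- the block is eventually not visited
      push Not at hc
      obtain ⟨s, hs, hc⟩ := hc
      have hclock : clock α p k t = clock α p k s :=
        clock_const t hs.le fun r hr1 hr2 => hc r hr1 hr2
      have hs' := ih s hs
      have hout := hs'.out (hc s le_rfl hs)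
      have htape : ∀ r, s ≤ r → r < t → ∀ n : ℕ, (run .special α p r).tape (ω * k + n) =
          (lrun p (clock α p k s)).c n := by
        intro r hr1 hr2 n
        rw [(ih r hr2).tape n, clock_const r hr1 fun u hu1 hu2 => hc u hu1 (hu2.trans hr2)]
      refine ⟨fun n => ?_, fun hb => ?_, fun _ => ?_⟩
      · rw [hclock, run_limit ht]
        simp only [limitConfig]
        rw [evTrue_const ⟨s, hs, fun r hr1 hr2 => by rw [htape r hr1 hr2 n]⟩,
          evTrue_const ⟨s, hs, fun r hr1 hr2 => by rw [htape r hr1 hr2 n]⟩,
          evTrue_const ⟨s, hs, fun r hr1 hr2 => by rw [htape r hr1 hr2 n]⟩]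
      · rw [hclock, hout.1, hout.2]
        refine ⟨hstate, ?_⟩
        have hne : hd α p t ≠ 0 := by
          intro h
          rw [h, blk_zero] at hb
          exact hk hb.symm
        obtain ⟨hp1, hp2⟩ := plim_eq_of_blk ht hne
        by_contra hoff
        obtain ⟨m, hm⟩ := Nat.exists_eq_succ_of_ne_zero hoff
        have hhd : hd α p t = ω * k + ((m + 1 : ℕ) : Ordinal.{0}) := by
          rw [show m + 1 = off (hd α p t) from hm.symm]
          conv_lhs => rw [← eq_blk_off (hd α p t), hb]
        have h1 : ω * k + (m : Ordinal.{0}) < plim α p t := by
          rw [hp1, hhd, mk_lt_mk]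
          exact Nat.lt_succ_self m
        obtain ⟨s', hs1, H⟩ := (lt_plim hα).1 h1
        simp only at H
        have h2 : ¬ Ev t (fun r => plim α p t < hd α p r) := fun h =>
          lt_irrefl _ ((lt_plim hα).2 h)
        obtain ⟨r, h3, h4, h5⟩ := not_ev h2 (max_lt hs hs1)
        have h6 := H r ((le_max_right _ _).trans h3) h4
        have h7 : hd α p r = ω * k + ((m + 1 : ℕ) : Ordinal.{0}) := by
          apply le_antisymm
          · rw [← hhd, ← hp1]
            exact not_lt.1 h5
          · rw [← mk_add_one]
            exact Order.add_one_le_of_lt h6
        exact hc r ((le_max_left _ _).trans h3) h4 (by rw [h7, blk_mk])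
      · rw [hclock]
        exact hout

end Pool.E8helper7.LongTape
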