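import Pool.Agent.E8helper7.LongTape.Special

/-!
# The values of `θ` in the model with a distinguished limit state
-/

open Order Set Ordinal

namespace Pool.E8helper7.LongTape

variable {α : Ordinal.{0}}

/-- The empty symbol. -/
def z : Sym := (false, false, false)

/-- The program that walks to the right, and `n` more steps after the first limit time. -/
def pn : ℕ → Program
  | 0 => [((0, z), (0, z, true))]
  | n + 1 => ((n + 1, z), (n + 2, z, true)) :: pn n

lemma lookup_pn_zero (n : ℕ) : (pn n).lookup (0, z) = some (0, z, true) := by
  induction n with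
  | zero => rfl
  | succ n ih =>
    rw [pn, List.lookup_cons]
    have : ((0, z) == ((n + 1, z) : ℕ × Sym)) = false := by
      rw [beq_eq_false_iff_ne]
      intro h
      have := congrArg Prod.fst h
      simp at this
    rw [this]
    exact ih

lemma lookup_pn (n i : ℕ) : (pn n).lookup (i + 1, z) =
    if i < n then some (i + 2, z, true) else none := by
  induction n with
  | zero =>
    rw [pn, List.lookup_cons]
    have : ((i + 1, z) == ((0, z) : ℕ × Sym)) = false := by
      rw [beq_eq_false_iff_ne]
      intro h
      have := congrArg Prod.fst h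
      simp at this
    rw [this]
    simp
  | succ n ih =>
    rw [pn, List.lookup_cons]
    by_cases h : i = n
    · subst h
      simp
    · have : ((i + 1, z) == ((n + 1, z) : ℕ × Sym)) = false := by
        rw [beq_eq_false_iff_ne]
        intro h'
        have := congrArg Prod.fst h'
        simp at this
        exact h this
      rw [this]
      simp only
      rw [ih]
      by_cases h2 : i < n
      · rw [if_pos h2, if_pos (by omega)]
      · rw [if_neg h2, if_neg (by omega)]

lemma run_pn_fin (n i : ℕ) :
    run .special α (pn n) (i : Ordinal.{0}) = ⟨0, i, fun _ => z⟩ := by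
  induction i with
  | zero => simp [Config.start, z]
  | succ i ih =>
    push_cast
    rw [run_add_one, ih, step_eq (p := pn n) (c := ⟨0, i, fun _ => z⟩) (lookup_pn_zero n)]
    simp only [if_true]
    congr 1
    ext1 x
    simp [Function.update_apply]

/-- The cell at which the head is at time `ω`. -/
noncomputable def base (α : Ordinal.{0}) : Ordinal.{0} := if ω < α then ω else 0

lemma run_pn_omega (n : ℕ) :
    run .special α (pn n) ω = ⟨1, base α, fun _ => z⟩ := by
  rw [run_limit isSuccLimit_omega0]
  have key : ∀ r < ω, ∃ i : ℕ, r = i ∧ run .special α (pn n) r = ⟨0, i, fun _ => z⟩ := by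
    intro r hr
    obtain ⟨i, rfl⟩ := lt_omega0.1 hr
    exact ⟨i, rfl, run_pn_fin n i⟩
  have h1 : liminfAt ω (fun r => (run .special α (pn n) r).head) = ω := by
    apply liminfAt_eq_ord
    · intro y hy
      refine ⟨y + 1, isSuccLimit_omega0.add_one_lt hy, fun r h1 h2 => ?_⟩
      obtain ⟨i, rfl, h⟩ := key r h2
      rw [h]
      exact (lt_add_one y).trans_le h1
    · intro s hs
      refine ⟨s, le_rfl, hs, ?_⟩
      obtain ⟨i, rfl, h⟩ := key s hs
      rw [h]
      exact hs.le
  have h2 : ∀ x, ∀ r, 0 ≤ r → r < ω → (run .special α (pn n) r).tape x = z := by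
    intro x r _ hr
    obtain ⟨i, rfl, h⟩ := key r hr
    rw [h]
  simp only [limitConfig]
  rw [h1]
  ext x
  · rfl
  · rfl
  · simp only
    rw [evTrue_const (v := false) ⟨0, omega0_pos, fun r h3 h4 => by rw [h2 x r h3 h4]; rfl⟩]
    rfl
  · simp only
    rw [evTrue_const (v := false) ⟨0, omega0_pos, fun r h3 h4 => by rw [h2 x r h3 h4]; rfl⟩]
    rfl
  · simp only
    rw [evTrue_const (v := false) ⟨0, omega0_pos, fun r h3 h4 => by rw [h2 x r h3 h4]; rfl⟩]
    rfl

lemma run_pn_omega_add (n i : ℕ) (hi : i ≤ n) :
    run .special α (pn n) (ω + i) = ⟨i + 1, base α + i, fun _ => z⟩ := by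
  induction i with
  | zero => simpa using run_pn_omega n
  | succ i ih =>
    have h := lookup_pn n i
    rw [if_pos (by omega)] at h
    push_cast
    rw [← add_assoc, run_add_one, ih (by omega),
      step_eq (p := pn n) (c := ⟨i + 1, base α + i, fun _ => z⟩) h]
    simp only [if_true]
    rw [add_assoc]
    congr 1
    ext1 x
    simp [Function.update_apply]

theorem reachable_base (n : ℕ) : Reachable .special α (base α + n) := by
  refine ⟨pn n, ω + n, ?_, ?_, ?_⟩
  · unfold Halted next
    rw [run_pn_omega_add n n le_rfl]
    simp only
    rw [lookup_pn, if_neg (lt_irrefl n)]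
  · intro r hr hH
    unfold Halted next at hH
    rcases lt_or_ge r ω with h | h
    · obtain ⟨i, rfl⟩ := lt_omega0.1 h
      rw [run_pn_fin] at hH
      simp only at hH
      rw [lookup_pn_zero] at hH
      exact absurd hH (by simp)
    · have h1 : ω + (r - ω) = r := Ordinal.add_sub_cancel_of_le h
      rw [← h1] at hr hH
      have h2 := (add_lt_add_iff_left ω).1 hr
      obtain ⟨i, hi⟩ := lt_omega0.1 (h2.trans (natCast_lt_omega0 n))
      rw [hi] at h2 hH
      have h3 : i < n := by exact_mod_cast h2
      rw [run_pn_omega_add n i h3.le] at hH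
      simp only at hH
      rw [lookup_pn, if_pos h3] at hH
      exact absurd hH (by simp)
  · rw [run_pn_omega_add n n le_rfl]

theorem theta_special_omega : theta .special ω = ω := by
  apply le_antisymm
  · exact csSup_le' fun x hx => hx.1.le
  · by_contra hc
    push Not at hc
    obtain ⟨n, hn⟩ := lt_omega0.1 hc
    have h1 : Reachable .special ω ((n + 1 : ℕ) : Ordinal.{0}) := by
      have := reachable_base (α := ω) (n + 1)
      unfold base at this
      rw [if_neg (lt_irrefl _), zero_add] at this
      exact this
    have h2 := le_theta (L := .special) (natCast_lt_omega0 (n + 1)) h1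
    rw [hn] at h2
    have h3 : n + 1 ≤ n := by exact_mod_cast h2
    omega

theorem theta_special (hα : MulClosed α) (h : ω < α) : theta .special α = ω * 2 := by
  have e2 : ω * (2 : Ordinal.{0}) = ω + ω := by
    rw [← one_add_one_eq_two, mul_add, mul_one]
  apply le_antisymm
  · exact csSup_le' fun x hx => (reachable_special_lt hα.isSuccLimit hx.2).le
  · by_contra hc
    push Not at hc
    rw [e2, lt_add_iff_of_isSuccLimit isSuccLimit_omega0] at hc
    obtain ⟨d, hd, hc⟩ := hc
    obtain ⟨n, rfl⟩ := lt_omega0.1 hd
    have h1 : Reachable .special α (ω + n) := by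
      have := reachable_base (α := α) n
      unfold base at this
      rw [if_pos h] at this
      exact this
    have h2 := le_theta (L := .special) (hα.add_lt h (hd.trans h)) h1
    exact absurd (hc.trans_le h2) (lt_irrefl _)

theorem theta_special_mono {β : Ordinal.{0}} (hα : MulClosed α) (hβ : MulClosed β) (h : α ≤ β) :
    theta .special α ≤ theta .special β := by
  rcases eq_or_lt_of_le hα.1 with h1 | h1
  · rw [← h1, theta_special_omega]
    rcases eq_or_lt_of_le hβ.1 with h2 | h2
    · rw [← h2, theta_special_omega]
    · rw [theta_special hβ h2]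
      exact le_mul_left _ (by simp)
  · rw [theta_special hα h1, theta_special hβ (h1.trans_le h)]

end Pool.E8helper7.LongTape
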