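import Pool.Agent.E8helper7.LongTape.Observe
import Pool.Agent.E8helper7.LongTape.Theta

/-!
# Every machine with tapes of length `ω₁` runs into a loop
-/

open Order Set Ordinal Cardinal

namespace Pool.E8helper7.LongTape

variable {p : Program}

/-- The ordinal `ω₂`. -/
noncomputable def kap : Ordinal.{0} := ω_ (1 + 1)

lemma cof_kap : kap.cof = ℵ_ (1 + 1) := cof_omega_add_one 1

lemma aleph_one_lt : ℵ_ 1 < ℵ_ (1 + 1 : Ordinal.{0}) := aleph_lt_aleph.2 (lt_add_one _)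

lemma kap_limit : IsSuccLimit kap := by
  have h : (ω : Ordinal.{0}) ≤ kap := omega0_le_omega _
  have hM : MulClosed kap := ⟨h, fun _ hμ _ hν => isPrincipal_mul_omega (1 + 1) hμ hν⟩
  exact hM.isSuccLimit

lemma bdd_family {f : Kind → Ordinal.{0} → Ordinal.{0}}
    (hf : ∀ k, ∀ x < ω_ 1, f k x < kap) : ∃ b < kap, ∀ k, ∀ x < ω_ 1, f k x ≤ b := by
  let g : Kind × (ω_ 1 : Ordinal.{0}).ToType → Ordinal.{0} := fun z =>
    f z.1 (ToType.mk.symm z.2).1
  have hcard : #(Kind × (ω_ 1 : Ordinal.{0}).ToType) < kap.cof := by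
    rw [cof_kap]
    refine lt_of_le_of_lt ?_ aleph_one_lt
    rw [mk_prod, Cardinal.lift_id, Cardinal.lift_id, mk_toType, card_omega]
    refine (mul_le_max _ _).trans ?_
    refine max_le (max_le ?_ le_rfl) (aleph0_le_aleph 1)
    exact (mk_le_aleph0 (α := Kind)).trans (aleph0_le_aleph 1)
  refine ⟨⨆ z, g z, iSup_lt_of_lt_cof hcard (fun z => hf _ _ (ToType.mk.symm z.2).2), ?_⟩
  intro k x hx
  have := Ordinal.le_iSup g (k, ToType.mk ⟨x, hx⟩)
  simpa [g] using this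

lemma seq_lt_kap {u : ℕ → Ordinal.{0}} (hu : ∀ n, u n < kap) : ⨆ n, u n < kap := by
  apply iSup_lt_of_lt_cof _ hu
  rw [cof_kap, mk_nat]
  exact (aleph0_le_aleph 1).trans_lt aleph_one_lt

/-- The eventual value at `ω₂` of an observable. -/
def EvK (p : Program) (k : Kind) (x : Ordinal.{0}) : Prop :=
  Ev kap fun r => Obs k x (run .liminf (ω_ 1) p r)

lemma exists_threshold (p : Program) : ∃ t₀ < kap, ∀ k, ∀ x < ω_ 1, EvK p k x →
    ∀ r, t₀ ≤ r → r < kap → Obs k x (run .liminf (ω_ 1) p r) := by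
  classical
  have H : ∀ k, ∀ x : Ordinal.{0}, ∃ s < kap, EvK p k x →
      ∀ r, s ≤ r → r < kap → Obs k x (run .liminf (ω_ 1) p r) := by
    intro k x
    by_cases h : EvK p k x
    · obtain ⟨s, hs, h'⟩ := h
      exact ⟨s, hs, fun _ => h'⟩
    · exact ⟨0, kap_limit.bot_lt, fun h' => absurd h' h⟩
  choose f hf using H
  obtain ⟨b, hb, hb'⟩ := bdd_family (f := f) (fun k x _ => (hf k x).1)
  exact ⟨b, hb, fun k x hx h r h1 h2 => (hf k x).2 h r ((hb' k x hx).trans h1) h2⟩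

lemma exists_step (p : Program) {s : Ordinal.{0}} (hs : s < kap) : ∃ b < kap, s < b ∧
    ∀ k, ∀ x < ω_ 1, ¬ EvK p k x → ∃ r, s ≤ r ∧ r < b ∧ ¬ Obs k x (run .liminf (ω_ 1) p r) := by
  classical
  have H : ∀ k, ∀ x : Ordinal.{0}, ∃ r < kap, ¬ EvK p k x →
      s ≤ r ∧ ¬ Obs k x (run .liminf (ω_ 1) p r) := by
    intro k x
    by_cases h : EvK p k x
    · exact ⟨0, kap_limit.bot_lt, fun h' => absurd h h'⟩
    · obtain ⟨r, h1, h2, h3⟩ := not_ev h hs
      exact ⟨r, h2, fun _ => ⟨h1, h3⟩⟩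
  choose f hf using H
  obtain ⟨b, hb, hb'⟩ := bdd_family (f := f) (fun k x _ => (hf k x).1)
  refine ⟨max b s + 1, kap_limit.add_one_lt (max_lt hb hs),
    (le_max_right b s).trans_lt (lt_add_one _), fun k x hx h => ?_⟩
  exact ⟨f k x, ((hf k x).2 h).1, ((hb' k x hx).trans (le_max_left _ _)).trans_lt (lt_add_one _),
    ((hf k x).2 h).2⟩

lemma exists_time (p : Program) {t₀ : Ordinal.{0}} (ht₀ : ∀ k, ∀ x < ω_ 1, EvK p k x →
    ∀ r, t₀ ≤ r → r < kap → Obs k x (run .liminf (ω_ 1) p r)) {s : Ordinal.{0}} (hs : s < kap)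
    (hts : t₀ ≤ s) :
    ∃ t, s < t ∧ t < kap ∧ IsSuccLimit t ∧ ∀ k, ∀ x < ω_ 1,
      (Ev t (fun r => Obs k x (run .liminf (ω_ 1) p r)) ↔ EvK p k x) := by
  have H : ∀ s : Ordinal.{0}, ∃ b, s < kap → b < kap ∧ s < b ∧
    ∀ k, ∀ x < ω_ 1, ¬ EvK p k x → ∃ r, s ≤ r ∧ r < b ∧
      ¬ Obs k x (run .liminf (ω_ 1) p r) := by
    intro s
    by_cases hs : s < kap
    · obtain ⟨b, h1, h2, h3⟩ := exists_step p hs
      exact ⟨b, fun _ => ⟨h1, h2, h3⟩⟩
    · exact ⟨0, fun h => absurd h hs⟩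
  choose g hg using H
  let u : ℕ → Ordinal.{0} := fun n => g^[n] s
  have hu : ∀ n, u n < kap := by
    intro n
    induction n with
    | zero => exact hs
    | succ n ih =>
      have : u (n + 1) = g (u n) := Function.iterate_succ_apply' g n s
      rw [this]
      exact (hg _ ih).1
  have hu1 : ∀ n, u n < u (n + 1) := by
    intro n
    have : u (n + 1) = g (u n) := Function.iterate_succ_apply' g n s
    rw [this]
    exact (hg _ (hu n)).2.1
  have hlt : ∀ n, u n < ⨆ n, u n := fun n => (hu1 n).trans_le (Ordinal.le_iSup u (n + 1))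
  have hs' : s < ⨆ n, u n := hlt 0
  have hcof : ∀ r < ⨆ n, u n, ∃ n, r < u n := fun r hr => Ordinal.lt_iSup_iff.1 hr
  have hlim : IsSuccLimit (⨆ n, u n) := by
    refine ⟨?_, ?_⟩
    · have : (0 : Ordinal.{0}) < ⨆ n, u n := lt_of_le_of_lt (by simp) hs'
      simpa using this.ne'
    · rw [Order.isSuccPrelimit_iff_succ_lt]
      intro r hr
      obtain ⟨n, hn⟩ := hcof r hr
      exact lt_of_le_of_lt (Order.succ_le_of_lt hn) (hlt n)
  refine ⟨⨆ n, u n, hs', seq_lt_kap hu, hlim, fun k x hx => ?_⟩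
  constructor
  · rintro ⟨r, hr, H⟩
    by_contra hc
    obtain ⟨n, hn⟩ := hcof r hr
    obtain ⟨r', h1, h2, h3⟩ := (hg _ (hu n)).2.2 k x hx hc
    have : u (n + 1) = g (u n) := Function.iterate_succ_apply' g n s
    rw [← this] at h2
    exact h3 (H r' (hn.le.trans h1) (h2.trans (hlt _)))
  · intro h
    exact ⟨s, hs', fun r h1 h2 => ht₀ k x hx h r (hts.trans h1) (h2.trans (seq_lt_kap hu))⟩

lemma obs_kap (p : Program) (k : Kind) {x : Ordinal.{0}} (hx : x < ω_ 1) :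
    EvK p k x ↔ Obs k x (run .liminf (ω_ 1) p kap) := by
  have hlim : IsSuccLimit (ω_ 1 : Ordinal.{0}) := mulClosed_omega_one.isSuccLimit
  by_cases hk : k = .head
  · subst hk
    have hlt : preHead (ω_ 1) p kap < ω_ 1 := by
      by_contra hc
      push Not at hc
      obtain ⟨t₀, h1, h2⟩ := exists_threshold p
      have h3 := head_lt (L := .liminf) hlim p t₀
      have h4 := (lt_preHead hlim).1 (h3.trans_le hc)
      have h5 := h2 .head _ h3 h4 t₀ le_rfl h1
      exact absurd h5 (lt_irrefl _)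
    have h6 : (run .liminf (ω_ 1) p kap).head = preHead (ω_ 1) p kap := by
      rw [head_limit kap_limit, if_pos hlt]
    rw [Obs, h6, lt_preHead hlim]
    rfl
  · rw [obs_limit kap_limit hk]
    rfl

/-- Every machine with tapes of length `ω₁` runs into a loop. -/
theorem exists_loop (p : Program) : ∃ t₁ t₂, Loop (ω_ 1) p t₁ t₂ := by
  have hlim : IsSuccLimit (ω_ 1 : Ordinal.{0}) := mulClosed_omega_one.isSuccLimit
  obtain ⟨t₀, h0, ht₀⟩ := exists_threshold p
  obtain ⟨t₁, h1, h1', h1l, h1e⟩ := exists_time p ht₀ h0 le_rfl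
  obtain ⟨t₂, h2, h2', h2l, h2e⟩ := exists_time p ht₀ h1' h1.le
  have e1 : run .liminf (ω_ 1) p t₁ = run .liminf (ω_ 1) p kap :=
    run_limit_eq hlim h1l (head_lt hlim p _) (fun x hx => tape_ge hlim hx _)
      (fun k x hx => (h1e k x hx).trans (obs_kap p k hx))
  have e2 : run .liminf (ω_ 1) p t₂ = run .liminf (ω_ 1) p kap :=
    run_limit_eq hlim h2l (head_lt hlim p _) (fun x hx => tape_ge hlim hx _)
      (fun k x hx => (h2e k x hx).trans (obs_kap p k hx))
  refine ⟨t₁, t₂, h2, by rw [e1, e2], fun r hr1 hr2 k x hx hobs => ?_⟩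
  rw [e1, ← obs_kap p k hx] at hobs
  exact ht₀ k x hx hobs r (h1.le.trans hr1) (hr2.trans h2')

end Pool.E8helper7.LongTape
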