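import Mathlib

/-!
# Infinite time Turing machines with tapes of ordinal length

Three tapes (input, work, output) whose cells are indexed by the ordinals below `α`, one head.
A program is a finite table of instructions.
-/

open Order Set Ordinal

namespace Pool.E8helper7.LongTape

/-- The contents of the input, work and output tape at one cell. -/
abbrev Sym := Bool × Bool × Bool

/-- A program: a finite list of instructions `((q, s), (q', s', d))`, which mean: in state `q`,
reading `s` on the three tapes, write `s'`, move right if `d = true` and left if `d = false`, and go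
to state `q'`.  The first instruction that applies is carried out. -/
abbrev Program := List ((ℕ × Sym) × (ℕ × Sym × Bool))

/-- A configuration: state, position of the head, contents of the three tapes.  (Only cells with
index below the tape length are ever visited; the others stay `0` for ever.) -/
@[ext] structure Config where
  state : ℕ
  head : Ordinal.{0}
  tape : Ordinal.{0} → Sym

/-- The start: state `0`, head on cell `0`, all cells `0`. -/
def Config.start : Config := ⟨0, 0, fun _ => (false, false, false)⟩

/-- The cell reached by a left move: `a + 1 ↦ a`, and `0` from a limit position (and from `0`). -/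
noncomputable def leftOf (h : Ordinal.{0}) : Ordinal.{0} :=
  limitRecOn h 0 (fun a _ => a) (fun _ _ _ => 0)

/-- The instruction that applies in a configuration, if any. -/
def next (p : Program) (c : Config) : Option (ℕ × Sym × Bool) :=
  p.lookup (c.state, c.tape c.head)

/-- A configuration is halted if no instruction applies. -/
def Halted (p : Program) (c : Config) : Prop := next p c = none

/-- One step of the machine. -/
noncomputable def step (p : Program) (c : Config) : Config :=
  match next p c with
  | none => c
  | some (q, s, d) =>
      ⟨q, if d then c.head + 1 else leftOf c.head, Function.update c.tape c.head s⟩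

/-- The inferior limit, as time tends to the limit time `t`, of a time dependent quantity. -/
noncomputable def liminfAt {β : Type*} [LE β] [SupSet β] (t : Ordinal.{0}) (f : Ordinal.{0} → β) :
    β :=
  sSup {y | ∃ s < t, ∀ r, s ≤ r → r < t → y ≤ f r}

open Classical in
/-- The inferior limit of a `0`-`1`-valued quantity: it is `1` iff the quantity is `1` from some
time before `t` on. -/
noncomputable def evTrue (t : Ordinal.{0}) (b : Ordinal.{0} → Bool) : Bool :=
  decide (∃ s < t, ∀ r, s ≤ r → r < t → b r = true)

/-- How the state is determined at limit times. -/
inductive LimitRule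
  /-- the inferior limit of the earlier states -/
  | liminf
  /-- the distinguished limit state, which is the state `1` -/
  | special

/-- The configuration at the limit time `t` of a machine with tapes of length `α`, given the
configurations at all earlier times. -/
noncomputable def limitConfig (L : LimitRule) (α t : Ordinal.{0}) (c : Ordinal.{0} → Config) :
    Config where
  state := match L with
    | .liminf => liminfAt t fun r => (c r).state
    | .special => 1
  head := if liminfAt t (fun r => (c r).head) < α then liminfAt t (fun r => (c r).head) else 0
  tape x := (evTrue t fun r => ((c r).tape x).1, evTrue t fun r => ((c r).tape x).2.1,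
    evTrue t fun r => ((c r).tape x).2.2)

/-- The configuration at time `t` of program `p` on tapes of length `α`, started with all cells
`0`. -/
noncomputable def run (L : LimitRule) (α : Ordinal.{0}) (p : Program) (t : Ordinal.{0}) : Config :=
  limitRecOn t Config.start (fun _ c => step p c)
    (fun t _ c => limitConfig L α t fun r => if h : r < t then c r h else Config.start)

/-- Cell `μ` is reachable: some program, started with all cells `0`, halts with the head at
`μ`. -/
def Reachable (L : LimitRule) (α μ : Ordinal.{0}) : Prop :=
  ∃ p t, Halted p (run L α p t) ∧ (∀ r < t, ¬ Halted p (run L α p r)) ∧ (run L α p t).head = μ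

/-- The supremum of the reachable cells. -/
noncomputable def theta (L : LimitRule) (α : Ordinal.{0}) : Ordinal.{0} :=
  sSup {μ | μ < α ∧ Reachable L α μ}

/-- Infinite multiplicatively closed ordinals. -/
def MulClosed (α : Ordinal.{0}) : Prop := ω ≤ α ∧ ∀ μ < α, ∀ ν < α, μ * ν < α

/-! ### Basic facts -/

section basic

variable {L : LimitRule} {α : Ordinal.{0}} {p : Program}

@[simp] lemma leftOf_zero : leftOf 0 = 0 := by simp [leftOf]

@[simp] lemma leftOf_add_one (a : Ordinal.{0}) : leftOf (a + 1) = a := by simp [leftOf]

lemma leftOf_limit {a : Ordinal.{0}} (h : IsSuccLimit a) : leftOf a = 0 := by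
  rw [leftOf, limitRecOn_limit _ _ _ _ h]

@[simp] lemma run_zero : run L α p 0 = Config.start := by simp [run]

lemma run_add_one (t : Ordinal.{0}) : run L α p (t + 1) = step p (run L α p t) := by
  simp [run]

lemma liminfAt_congr {β : Type*} [LE β] [SupSet β] {t : Ordinal.{0}} {f g : Ordinal.{0} → β}
    (h : ∀ r < t, f r = g r) : liminfAt t f = liminfAt t g := by
  unfold liminfAt
  congr 1
  ext y
  constructor
  · rintro ⟨s, hs, H⟩
    exact ⟨s, hs, fun r h1 h2 => (h r h2) ▸ H r h1 h2⟩
  · rintro ⟨s, hs, H⟩
    exact ⟨s, hs, fun r h1 h2 => (h r h2).symm ▸ H r h1 h2⟩

lemma evTrue_iff {t : Ordinal.{0}} {b : Ordinal.{0} → Bool} :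
    evTrue t b = true ↔ ∃ s < t, ∀ r, s ≤ r → r < t → b r = true := by
  simp [evTrue]

lemma evTrue_congr {t : Ordinal.{0}} {f g : Ordinal.{0} → Bool}
    (h : ∀ r < t, f r = g r) : evTrue t f = evTrue t g := by
  rw [Bool.eq_iff_iff, evTrue_iff, evTrue_iff]
  constructor
  · rintro ⟨s, hs, H⟩
    exact ⟨s, hs, fun r h1 h2 => (h r h2) ▸ H r h1 h2⟩
  · rintro ⟨s, hs, H⟩
    exact ⟨s, hs, fun r h1 h2 => (h r h2).symm ▸ H r h1 h2⟩

lemma limitConfig_congr {t : Ordinal.{0}} {c d : Ordinal.{0} → Config}
    (h : ∀ r < t, c r = d r) : limitConfig L α t c = limitConfig L α t d := by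
  have h1 : liminfAt t (fun r => (c r).head) = liminfAt t (fun r => (d r).head) :=
    liminfAt_congr fun r hr => by rw [h r hr]
  have h2 : liminfAt t (fun r => (c r).state) = liminfAt t (fun r => (d r).state) :=
    liminfAt_congr fun r hr => by rw [h r hr]
  ext x
  · cases L <;> simp [limitConfig, h2]
  · simp [limitConfig, h1]
  · simp only [limitConfig]
    rw [evTrue_congr (fun r hr => by rw [h r hr])]
  · simp only [limitConfig]
    rw [evTrue_congr (fun r hr => by rw [h r hr])]
  · simp only [limitConfig]
    rw [evTrue_congr (fun r hr => by rw [h r hr])]

lemma run_limit {t : Ordinal.{0}} (ht : IsSuccLimit t) :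
    run L α p t = limitConfig L α t (run L α p) := by
  rw [run, limitRecOn_limit _ _ _ _ ht]
  apply limitConfig_congr
  intro r hr
  simp [hr, run]

end basic

end Pool.E8helper7.LongTape
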