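import Pool.Agent.E8helper7.LongTape.Outer

/-!
# Observables of a configuration; loops
-/

open Order Set Ordinal

namespace Pool.E8helper7.LongTape

variable {α : Ordinal.{0}} {p : Program}

/-- Kinds of yes-no observables of a configuration. -/
inductive Kind
  | inp | wrk | out | head | state (q : ℕ)

instance : Countable Kind := by
  have : Function.Injective (fun k : Kind => match k with
      | .inp => 0 | .wrk => 1 | .out => 2 | .head => 3 | .state q => q + 4) := by
    intro a b h
    cases a <;> cases b <;> (simp at h ⊢; try omega)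
  exact this.countable

/-- The observables. -/
def Obs : Kind → Ordinal.{0} → Config → Prop
  | .inp, x, c => (c.tape x).1 = true
  | .wrk, x, c => (c.tape x).2.1 = true
  | .out, x, c => (c.tape x).2.2 = true
  | .head, x, c => x < c.head
  | .state q, _, c => q < c.state

/-- `P` holds from some time before `t` on, up to `t`. -/
def Ev (t : Ordinal.{0}) (P : Ordinal.{0} → Prop) : Prop := ∃ s < t, ∀ r, s ≤ r → r < t → P r

lemma Ev.congr {t : Ordinal.{0}} {P Q : Ordinal.{0} → Prop} (h : ∀ r < t, P r ↔ Q r) :
    Ev t P ↔ Ev t Q := by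
  constructor
  · rintro ⟨s, hs, H⟩
    exact ⟨s, hs, fun r h1 h2 => (h r h2).1 (H r h1 h2)⟩
  · rintro ⟨s, hs, H⟩
    exact ⟨s, hs, fun r h1 h2 => (h r h2).2 (H r h1 h2)⟩

lemma not_ev {t : Ordinal.{0}} {P : Ordinal.{0} → Prop} (h : ¬ Ev t P) {s : Ordinal.{0}}
    (hs : s < t) : ∃ r, s ≤ r ∧ r < t ∧ ¬ P r := by
  by_contra hc
  push Not at hc
  exact h ⟨s, hs, hc⟩

lemma lt_liminfAt_ord {t B : Ordinal.{0}} {f : Ordinal.{0} → Ordinal.{0}}
    (hB : ∀ r < t, f r ≤ B) {y : Ordinal.{0}} :
    y < liminfAt t f ↔ Ev t (fun r => y < f r) := by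
  have hub : ∀ z ∈ {y | ∃ s < t, ∀ r, s ≤ r → r < t → y ≤ f r}, z ≤ B := by
    rintro z ⟨s, hs, H⟩
    exact (H s le_rfl hs).trans (hB s hs)
  constructor
  · intro h
    obtain ⟨a, ⟨s, hs, H⟩, hya⟩ := exists_lt_of_lt_csSup' h
    exact ⟨s, hs, fun r h1 h2 => hya.trans_le (H r h1 h2)⟩
  · rintro ⟨s, hs, H⟩
    have hmem : y + 1 ∈ {y | ∃ s < t, ∀ r, s ≤ r → r < t → y ≤ f r} :=
      ⟨s, hs, fun r h1 h2 => Order.add_one_le_of_lt (H r h1 h2)⟩
    exact (lt_add_one y).trans_le (le_csSup ⟨B, hub⟩ hmem)

lemma lt_liminfAt_nat {t : Ordinal.{0}} {B : ℕ} {f : Ordinal.{0} → ℕ}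
    (hB : ∀ r < t, f r ≤ B) {y : ℕ} :
    y < liminfAt t f ↔ Ev t (fun r => y < f r) := by
  have hub : ∀ z ∈ {y | ∃ s < t, ∀ r, s ≤ r → r < t → y ≤ f r}, z ≤ B := by
    rintro z ⟨s, hs, H⟩
    exact (H s le_rfl hs).trans (hB s hs)
  constructor
  · intro h
    have hne : {y | ∃ s < t, ∀ r, s ≤ r → r < t → y ≤ f r}.Nonempty := by
      by_contra hc
      rw [Set.not_nonempty_iff_eq_empty] at hc
      unfold liminfAt at h
      rw [hc] at h
      simp at h
    obtain ⟨a, ⟨s, hs, H⟩, hya⟩ := exists_lt_of_lt_csSup hne h
    exact ⟨s, hs, fun r h1 h2 => hya.trans_le (H r h1 h2)⟩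
  · rintro ⟨s, hs, H⟩
    have hmem : y + 1 ∈ {y | ∃ s < t, ∀ r, s ≤ r → r < t → y ≤ f r} :=
      ⟨s, hs, fun r h1 h2 => H r h1 h2⟩
    exact lt_of_lt_of_le (Nat.lt_succ_self y) (le_csSup ⟨B, hub⟩ hmem)

/-- The states occurring in a run are bounded. -/
lemma state_bound (α : Ordinal.{0}) (p : Program) :
    ∃ B, ∀ t, (run .liminf α p t).state ≤ B := by
  obtain ⟨B, hB⟩ : ∃ B, ∀ e ∈ p, e.2.1 ≤ B := by
    induction p with
    | nil => exact ⟨0, by simp⟩
    | cons e p ih =>
      obtain ⟨B, hB⟩ := ih
      refine ⟨max e.2.1 B, ?_⟩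
      intro e' he'
      rcases List.mem_cons.1 he' with rfl | h
      · exact le_max_left _ _
      · exact (hB e' h).trans (le_max_right _ _)
  refine ⟨B, fun t => ?_⟩
  induction t using limitRecOn with
  | zero => simp [Config.start]
  | add_one t ih =>
    rw [run_add_one]
    rcases step_cases p (run .liminf α p t) with ⟨h3, _⟩ | ⟨q, s, d, h3, h4⟩
    · rwa [h3]
    · rw [h4]
      exact hB _ h3
  | limit t ht ih =>
    rw [run_limit ht]
    by_contra hc
    push Not at hc
    have hc' : B < liminfAt t (fun r => (run .liminf α p r).state) := hc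
    rw [lt_liminfAt_nat ih] at hc'
    obtain ⟨s, hs, H⟩ := hc'
    exact absurd (H s le_rfl hs) (ih s hs).not_gt

/-- Cells outside the tape stay empty. -/
lemma tape_ge (hα : IsSuccLimit α) {x : Ordinal.{0}} (hx : α ≤ x) (t : Ordinal.{0}) :
    (run .liminf α p t).tape x = (false, false, false) := by
  induction t using limitRecOn with
  | zero => simp [Config.start]
  | add_one t ih =>
    rw [run_add_one]
    rcases step_cases p (run .liminf α p t) with ⟨h3, _⟩ | ⟨q, s, d, h3, h4⟩
    · rwa [h3]
    · rw [h4]
      simp only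
      rw [Function.update_of_ne]
      · exact ih
      · rintro rfl
        exact absurd (head_lt hα p t) hx.not_gt
  | limit t ht ih =>
    rw [run_limit ht]
    have h0 : (0 : Ordinal.{0}) < t := ht.bot_lt
    simp only [limitConfig]
    rw [evTrue_const (v := false) ⟨0, h0, fun r _ h2 => by rw [ih r h2]⟩,
      evTrue_const (v := false) ⟨0, h0, fun r _ h2 => by rw [ih r h2]⟩,
      evTrue_const (v := false) ⟨0, h0, fun r _ h2 => by rw [ih r h2]⟩]

/-- The inferior limit of the positions of the head. -/
noncomputable def preHead (α : Ordinal.{0}) (p : Program) (t : Ordinal.{0}) : Ordinal.{0} :=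
  liminfAt t fun r => (run .liminf α p r).head

lemma head_limit {t : Ordinal.{0}} (ht : IsSuccLimit t) : (run .liminf α p t).head =
    if preHead α p t < α then preHead α p t else 0 := by
  rw [run_limit ht]
  rfl

lemma lt_preHead (hα : IsSuccLimit α) {t y : Ordinal.{0}} :
    y < preHead α p t ↔ Ev t (fun r => Obs .head y (run .liminf α p r)) :=
  lt_liminfAt_ord (B := α) fun r _ => (head_lt hα p r).le

lemma preHead_le (hα : IsSuccLimit α) {t : Ordinal.{0}} : preHead α p t ≤ α := by
  by_contra hc
  push Not at hc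
  rw [lt_preHead hα] at hc
  obtain ⟨s, hs, H⟩ := hc
  exact absurd (head_lt hα p s) (H s le_rfl hs).not_gt

lemma obs_limit {t : Ordinal.{0}} (ht : IsSuccLimit t) {k : Kind}
    (hk : k ≠ .head) (x : Ordinal.{0}) :
    Obs k x (run .liminf α p t) ↔ Ev t (fun r => Obs k x (run .liminf α p r)) := by
  cases k with
  | inp =>
    simp only [Obs]
    rw [run_limit ht]
    exact evTrue_iff
  | wrk =>
    simp only [Obs]
    rw [run_limit ht]
    exact evTrue_iff
  | out =>
    simp only [Obs]
    rw [run_limit ht]
    exact evTrue_iff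
  | head => exact absurd rfl hk
  | state q =>
    simp only [Obs]
    obtain ⟨B, hB⟩ := state_bound α p
    rw [run_limit ht]
    exact lt_liminfAt_nat fun r _ => hB r

/-- Two configurations are equal if all observables agree. -/
lemma config_eq {X Y : Config} (h : ∀ k x, Obs k x X ↔ Obs k x Y) : X = Y := by
  ext x
  · apply le_antisymm
    · by_contra hc
      push Not at hc
      exact absurd ((h (.state _) 0).1 hc) (lt_irrefl _)
    · by_contra hc
      push Not at hc
      exact absurd ((h (.state _) 0).2 hc) (lt_irrefl _)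
  · have : X.head = Y.head := by
      apply le_antisymm
      · by_contra hc
        push Not at hc
        exact absurd ((h .head _).1 hc) (lt_irrefl _)
      · by_contra hc
        push Not at hc
        exact absurd ((h .head _).2 hc) (lt_irrefl _)
    rw [this]
  · exact Bool.eq_iff_iff.2 (h .inp x)
  · exact Bool.eq_iff_iff.2 (h .wrk x)
  · exact Bool.eq_iff_iff.2 (h .out x)

/-- The configuration at a limit time is determined by the eventual values of the observables. -/
lemma run_limit_eq (hα : IsSuccLimit α) {t : Ordinal.{0}} (ht : IsSuccLimit t) {X : Config}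
    (hX : X.head < α) (hX' : ∀ x, α ≤ x → X.tape x = (false, false, false))
    (h : ∀ k, ∀ x < α, Ev t (fun r => Obs k x (run .liminf α p r)) ↔ Obs k x X) :
    run .liminf α p t = X := by
  have hhead : preHead α p t = X.head := by
    apply le_antisymm
    · by_contra hc
      push Not at hc
      exact absurd ((h .head _ hX).1 ((lt_preHead hα).1 hc)) (lt_irrefl _)
    · by_contra hc
      push Not at hc
      exact absurd ((lt_preHead hα).2 ((h .head _ (hc.trans hX)).2 hc)) (lt_irrefl _)
  apply config_eq
  intro k x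
  by_cases hk : k = .head
  · subst hk
    simp only [Obs]
    rw [head_limit ht, hhead, if_pos hX]
  · rcases lt_or_ge x α with hx | hx
    · rw [obs_limit ht hk]
      exact h k x hx
    · cases k with
      | inp => simp only [Obs]; rw [tape_ge hα hx, hX' x hx]
      | wrk => simp only [Obs]; rw [tape_ge hα hx, hX' x hx]
      | out => simp only [Obs]; rw [tape_ge hα hx, hX' x hx]
      | head => exact absurd rfl hk
      | state q =>
        have := (obs_limit (α := α) (p := p) ht hk 0).trans (h (.state q) 0 hα.bot_lt)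
        exact this

/-- The run only depends on the current configuration. -/
lemma run_add_congr {a b : Ordinal.{0}} (hab : run .liminf α p a = run .liminf α p b)
    (r : Ordinal.{0}) : run .liminf α p (a + r) = run .liminf α p (b + r) := by
  induction r using limitRecOn with
  | zero => simpa using hab
  | add_one r ih => rw [← add_assoc, ← add_assoc, run_add_one, run_add_one, ih]
  | limit r hr ih =>
    rw [run_limit (isSuccLimit_add a hr), run_limit (isSuccLimit_add b hr)]
    have half : ∀ {a b : Ordinal.{0}}, (∀ r' < r, run .liminf α p (a + r') =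
        run .liminf α p (b + r')) → ∀ P : Config → Prop,
        Ev (a + r) (fun t => P (run .liminf α p t)) →
        Ev (b + r) (fun t => P (run .liminf α p t)) := by
      rintro a b ih P ⟨s, hs, H⟩
      obtain ⟨e, he, hse⟩ := (lt_add_iff_of_isSuccLimit hr).1 hs
      refine ⟨b + e, (add_lt_add_iff_left b).2 he, fun t h1 h2 => ?_⟩
      have h3 : b + (t - b) = t := Ordinal.add_sub_cancel_of_le (le_trans (by simp) h1)
      have h4 : t - b < r := by
        rw [← h3] at h2
        exact (add_lt_add_iff_left b).1 h2
      have h5 : e ≤ t - b := by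
        rw [← h3] at h1
        exact (add_le_add_iff_left b).1 h1
      have := H (a + (t - b)) (hse.le.trans ((add_le_add_iff_left a).2 h5))
        ((add_lt_add_iff_left a).2 h4)
      simp only at this
      rw [ih _ h4, h3] at this
      exact this
    have key : ∀ P : Config → Prop, Ev (a + r) (fun t => P (run .liminf α p t)) ↔
        Ev (b + r) (fun t => P (run .liminf α p t)) := fun P =>
      ⟨half ih P, half (fun r' hr' => (ih r' hr').symm) P⟩
    have e1 : ∀ {β : Type} [LE β] [SupSet β] (g : Config → β),
        liminfAt (a + r) (fun t => g (run .liminf α p t)) =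
        liminfAt (b + r) (fun t => g (run .liminf α p t)) := by
      intro β _ _ g
      unfold liminfAt
      congr 1
      ext y
      exact key fun c => y ≤ g c
    have e1' : liminfAt (a + r) (fun t => (run .liminf α p t).head) =
        liminfAt (b + r) (fun t => (run .liminf α p t).head) := by
      unfold liminfAt
      congr 1
      ext y
      exact key fun c => y ≤ c.head
    have e2 : ∀ g : Config → Bool, evTrue (a + r) (fun t => g (run .liminf α p t)) =
        evTrue (b + r) (fun t => g (run .liminf α p t)) := by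
      intro g
      rw [Bool.eq_iff_iff, evTrue_iff, evTrue_iff]
      exact key fun c => g c = true
    have e3 : ∀ x, evTrue (a + r) (fun t => ((run .liminf α p t).tape x).1) =
        evTrue (b + r) (fun t => ((run .liminf α p t).tape x).1) := fun x =>
      e2 fun c => (c.tape x).1
    have e4 : ∀ x, evTrue (a + r) (fun t => ((run .liminf α p t).tape x).2.1) =
        evTrue (b + r) (fun t => ((run .liminf α p t).tape x).2.1) := fun x =>
      e2 fun c => (c.tape x).2.1
    have e5 : ∀ x, evTrue (a + r) (fun t => ((run .liminf α p t).tape x).2.2) =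
        evTrue (b + r) (fun t => ((run .liminf α p t).tape x).2.2) := fun x =>
      e2 fun c => (c.tape x).2.2
    simp only [limitConfig, e1 Config.state, e1', e3, e4, e5]

/-- A loop: the configurations at `t₁ < t₂` are equal and in between all configurations are, in
every observable, at least that at `t₁`. -/
structure Loop (α : Ordinal.{0}) (p : Program) (t₁ t₂ : Ordinal.{0}) : Prop where
  lt : t₁ < t₂
  eq : run .liminf α p t₁ = run .liminf α p t₂
  ge : ∀ r, t₁ ≤ r → r < t₂ → ∀ k, ∀ x < α, Obs k x (run .liminf α p t₁) →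
    Obs k x (run .liminf α p r)

/-- A machine in a loop stays there. -/
theorem Loop.forever (hα : IsSuccLimit α) {t₁ t₂ : Ordinal.{0}} (h : Loop α p t₁ t₂)
    {t : Ordinal.{0}} (ht : t₁ ≤ t) :
    ∃ r, t₁ ≤ r ∧ r < t₂ ∧ run .liminf α p t = run .liminf α p r := by
  set d := t₂ - t₁ with hd
  have e : t₁ + d = t₂ := Ordinal.add_sub_cancel_of_le h.lt.le
  have hdpos : 0 < d := by
    rcases eq_or_ne d 0 with h0 | h0
    · rw [h0, add_zero] at e
      exact absurd h.lt (by rw [e]; exact lt_irrefl _)
    · exact pos_iff_ne_zero.2 h0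
  have A : ∀ k : Ordinal.{0}, run .liminf α p (t₁ + d * k) = run .liminf α p t₁ := by
    intro k
    induction k using limitRecOn with
    | zero => simp
    | add_one k ih =>
      rw [mul_add_one, ← add_assoc, run_add_congr ih d, e, ← h.eq]
    | limit k hk ih =>
      have hdk : IsSuccLimit (d * k) := isSuccLimit_mul_right hdpos hk
      apply run_limit_eq hα (isSuccLimit_add t₁ hdk) (head_lt hα p _)
        (fun x hx => tape_ge hα hx _)
      intro k' x hx
      constructor
      · rintro ⟨s, hs, H⟩
        obtain ⟨s', hs', hss'⟩ := (lt_add_iff_of_isSuccLimit hdk).1 hs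
        obtain ⟨c, hc, hsc⟩ := (lt_mul_iff_of_isSuccLimit hk).1 hs'
        have := H (t₁ + d * c) (hss'.le.trans ((add_le_add_iff_left t₁).2 hsc.le))
          ((add_lt_add_iff_left t₁).2 ((mul_lt_mul_iff_right₀ hdpos).2 hc))
        simp only at this
        rwa [ih c hc] at this
      · intro hobs
        refine ⟨t₁, by simpa using hdk.bot_lt, fun r h1 h2 => ?_⟩
        have h3 : t₁ + (r - t₁) = r := Ordinal.add_sub_cancel_of_le h1
        have h4 : r - t₁ < d * k := by
          rw [← h3] at h2
          exact (add_lt_add_iff_left t₁).1 h2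
        obtain ⟨c, hc, u, hu, hcu⟩ := lt_mul_iff.1 h4
        rw [← h3, hcu, ← add_assoc]
        simp only
        rw [run_add_congr (ih c hc) u]
        exact h.ge _ (by simp) (by rw [← e]; exact (add_lt_add_iff_left t₁).2 hu) _ _ hx hobs
  have h3 : t₁ + (t - t₁) = t := Ordinal.add_sub_cancel_of_le ht
  have h4 : d * ((t - t₁) / d) + (t - t₁) % d = t - t₁ := div_add_mod _ _
  refine ⟨t₁ + (t - t₁) % d, by simp, ?_, ?_⟩
  · rw [← e]
    exact (add_lt_add_iff_left t₁).2 (mod_lt _ hdpos.ne')
  · rw [← run_add_congr (A ((t - t₁) / d)), add_assoc, h4, h3]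

end Pool.E8helper7.LongTape
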