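import Pool.Agent.E8helper7.LongTape.Stage

/-!
# The program halts at cell `1 + l` on tapes of length `2 ^ l > 1 + l`
-/

open Order Set Ordinal

namespace Pool.E8helper7.LongTape

variable {α : Ordinal.{0}} {Q : (Ordinal.{0} → Sym) → Prop}

/-- The outer loop. -/
lemma outer_loop (hα : IsSuccLimit α) (hadd : ∀ x < α, ∀ y < α, x + y < α) (b : Ordinal.{0}) :
    (2 : Ordinal.{0}) ^ b ≤ α →
      Go α prog (fun _ => True) ⟨1, 0, tp 1 0 0 0⟩ ⟨1, 0, tp (2 ^ b) 0 0 b⟩ := by
  have h1α : (1 : Ordinal.{0}) < α := by
    have := hα.add_one_lt hα.bot_lt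
    simpa using this
  have h12 : (1 : Ordinal.{0}) < 2 := by exact_mod_cast (by norm_num : (1 : ℕ) < 2)
  induction b using limitRecOn with
  | zero =>
    intro _
    rw [opow_zero]
    exact Go.refl trivial
  | add_one b ih =>
    intro hb
    have hlt : (2 : Ordinal.{0}) ^ b < 2 ^ (b + 1) := (opow_lt_opow_iff_right h12).2 (lt_add_one b)
    have hlt' : (2 : Ordinal.{0}) ^ b < α := hlt.trans_le hb
    have hbα : b < α := (right_le_opow b h12).trans_lt hlt'
    have e : (2 : Ordinal.{0}) ^ (b + 1) = 2 ^ b + 2 ^ b := by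
      have e2 : (2 : Ordinal.{0}) ^ b * 2 = 2 ^ b * (1 + 1) := by rw [one_add_one_eq_two]
      rw [opow_add, opow_one, e2, mul_add, mul_one]
    rw [e]
    exact (ih hlt'.le).trans (stage hα (hadd _ h1α _ (hadd _ hlt' _ hlt')) (hadd _ h1α _ hbα))
  | limit b hb ih =>
    intro hbα t ht
    have H : ∀ i < b, ∃ t', t ≤ t' ∧ run .liminf α prog t' = ⟨1, 0, tp (2 ^ i) 0 0 i⟩ ∧
        ∀ r, t ≤ r → r ≤ t' → True := fun i hi =>
      ih i hi (((opow_lt_opow_iff_right h12).2 hi).le.trans hbα) t ht
    choose! f hf using H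
    have hp : ∀ x, x < 1 + (2 : Ordinal.{0}) ^ b ↔ ∃ i < b, x < 1 + 2 ^ i := by
      intro x
      have hb2 : IsSuccLimit ((2 : Ordinal.{0}) ^ b) := isSuccLimit_opow h12 hb
      rw [lt_add_iff_of_isSuccLimit hb2]
      constructor
      · rintro ⟨y, hy, hxy⟩
        rw [(isNormal_opow h12).lt_iff_exists_lt hb] at hy
        obtain ⟨i, hi, hyi⟩ := hy
        exact ⟨i, hi, hxy.trans ((add_lt_add_iff_left 1).2 hyi)⟩
      · rintro ⟨i, hi, h⟩
        exact ⟨2 ^ i, (opow_lt_opow_iff_right h12).2 hi, h⟩
    obtain ⟨t', hlt, hcof, hrun⟩ := limit_stage (α := α) hb (f := f) (P := fun i => 2 ^ i)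
      (J := fun _ => 0) (K := fun _ => 0) (S := fun i => i) (fun i hi => (hf i hi).2.1)
      (fun i _ i' _ h => (opow_lt_opow_iff_right h12).2 h) hp
      (fun x => lt_add_iff_of_isSuccLimit hb)
    have htt' : t < t' := lt_of_le_of_lt (hf 0 hb.bot_lt).1 (hlt 0 hb.bot_lt)
    refine ⟨t', htt'.le, hrun _ (tp_zero _ _ _ _) ?_, fun _ _ _ => trivial⟩
    intro x hx
    rw [tp_pos hx]
    congr 1
    symm
    have no : ∀ x, ¬ ((1 : Ordinal.{0}) + 0 ≤ x ∧ x < 1 + 0) := fun x h =>
      absurd (h.1.trans_lt h.2) (lt_irrefl _)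
    rw [decide_eq_false (no x)]
    apply evTrue_eq_false
    intro s' hs'
    obtain ⟨i, hi, hsi⟩ := hcof s' hs'
    refine ⟨f i, hsi.le, hlt i hi, ?_⟩
    rw [(hf i hi).2.1]
    simp only
    rw [tp_pos hx, decide_eq_false (no x)]

/-- The end of the computation. -/
lemma final (hα : IsSuccLimit α) (hadd : ∀ x < α, ∀ y < α, x + y < α) (hadd' : ∀ x < α, x + α = α)
    {l : Ordinal.{0}} (hl : l < α) :
    Go α prog (fun _ => True) ⟨1, 0, tp α 0 0 l⟩ ⟨8, 1 + l, tp α 0 0 l⟩ := by
  have h1α : (1 : Ordinal.{0}) < α := by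
    have := hα.add_one_lt hα.bot_lt
    simpa using this
  have no : ∀ x, ¬ ((1 : Ordinal.{0}) + 0 ≤ x ∧ x < 1 + 0) := fun x h =>
    absurd (h.1.trans_lt h.2) (lt_irrefl _)
  have s1 : Go α prog (fun _ => True) ⟨1, 0, tp α 0 0 l⟩ ⟨2, 1, tp α 0 0 l⟩ := by
    have := goR (α := α) (Q := fun _ => True) (q := 1) (q' := 2) (h := 0) (T := tp α 0 0 l)
      (tp_zero _ _ _ _) (lookup_prog (by norm_num) _) trivial
    simpa using this
  have s2 : Go α prog (fun _ => True) ⟨2, 1, tp α 0 0 l⟩ ⟨2, 0, tp α 0 0 l⟩ := by
    apply Go.overflow hα hadd' h1α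
    intro x h1 h2
    have hx : x ≠ 0 := (one_pos.trans_le h1).ne'
    have h3 : x < 1 + α := by rwa [hadd' 1 h1α]
    rw [tp_pos hx, lookup_prog (by norm_num), decide_eq_false (no x), decide_eq_true h3]
    simp [tab]
  have s3 : Go α prog (fun _ => True) ⟨2, 0, tp α 0 0 l⟩ ⟨8, 1, tp α 0 0 l⟩ := by
    have := goR (α := α) (Q := fun _ => True) (q := 2) (q' := 8) (h := 0) (T := tp α 0 0 l)
      (tp_zero _ _ _ _) (lookup_prog (by norm_num) _) trivial
    simpa using this
  have s4 : Go α prog (fun _ => True) ⟨8, 1, tp α 0 0 l⟩ ⟨8, 1 + l, tp α 0 0 l⟩ := by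
    apply Go.right hα (by simp) (hadd _ h1α _ hl) _ trivial
    intro x h1 h2
    have hx : x ≠ 0 := (one_pos.trans_le h1).ne'
    rw [tp_pos hx, lookup_prog (by norm_num), decide_eq_true h2]
    simp [tab]
  exact s1.trans (s2.trans (s3.trans s4))

lemma final_halted (l : Ordinal.{0}) : Halted prog ⟨8, 1 + l, tp α 0 0 l⟩ := by
  unfold Halted next
  simp only
  rw [lookup_prog (by norm_num), tp_pos (one_add_ne_zero' l), decide_eq_false (lt_irrefl _)]
  simp [tab]

/-- The first two steps. -/
lemma run_two : run .liminf α prog 2 = ⟨1, 0, tp 1 0 0 0⟩ := by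
  have h1 : run .liminf α prog 1 = ⟨9, 1, Function.update (fun _ => (false, false, false)) 0
      (true, false, false)⟩ := by
    have e : (1 : Ordinal.{0}) = 0 + 1 := by simp
    rw [e, run_add_one, run_zero]
    have := step_eq (p := prog) (c := Config.start) (q := 9) (s := (true, false, false))
      (d := true) (lookup_prog (q := 0) (by norm_num) (false, false, false))
    rw [this]
    simp [Config.start]
  have e : (2 : Ordinal.{0}) = 1 + 1 := one_add_one_eq_two.symm
  rw [e, run_add_one, h1]
  have h2 := step_eq (p := prog) (c := ⟨9, 1, Function.update (fun _ => (false, false, false)) 0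
      (true, false, false)⟩) (q := 1) (s := (false, true, false)) (d := false)
    (by simpa [tab] using lookup_prog (q := 9) (by norm_num) (false, false, false))
  rw [h2]
  have e3 : leftOf 1 = 0 := by
    have := leftOf_add_one 0
    simpa using this
  simp only [Bool.false_eq_true, if_false, e3]
  congr 1
  ext1 x
  rcases eq_or_ne x 0 with hx | hx
  · subst hx
    rw [tp_zero, Function.update_of_ne (by simp), Function.update_self]
  · rw [tp_pos hx]
    have no : ∀ x, ¬ ((1 : Ordinal.{0}) + 0 ≤ x ∧ x < 1 + 0) := fun x h =>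
      absurd (h.1.trans_lt h.2) (lt_irrefl _)
    have n1 : ¬ x < 1 + 0 := by
      simpa using hx
    rw [decide_eq_false (no x), decide_eq_false n1]
    rcases eq_or_ne x 1 with hx1 | hx1
    · subst hx1
      rw [Function.update_self]
      simp
    · rw [Function.update_of_ne hx1, Function.update_of_ne hx]
      have : ¬ x < 1 + 1 := by
        intro h
        rcases eq_or_lt_of_le (Order.lt_add_one_iff.1 h) with h | h
        · exact hx1 h
        · exact hx (by simpa using h)
      rw [decide_eq_false this]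

/-- A halted configuration persists (for the rule that the state at limit times is the inferior
limit of the earlier states). -/
lemma halted_persist {p : Program} {t : Ordinal.{0}} (h : Halted p (run .liminf α p t))
    (hh : (run .liminf α p t).head < α) (t' : Ordinal.{0}) :
    t ≤ t' → run .liminf α p t' = run .liminf α p t := by
  induction t' using limitRecOn with
  | zero =>
    intro h'
    have : t = 0 := by simpa using h'
    rw [this]
  | add_one t' ih =>
    intro h'
    rcases eq_or_lt_of_le h' with h1 | h1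
    · rw [h1]
    · have h2 := ih (Order.lt_add_one_iff.1 h1)
      rw [run_add_one, h2]
      rcases step_cases p (run .liminf α p t) with ⟨h3, _⟩ | ⟨q, s, d, h3, h4⟩
      · exact h3
      · unfold Halted at h
        simp [step, h]
  | limit t' ht' ih =>
    intro h'
    rcases eq_or_lt_of_le h' with h1 | h1
    · rw [h1]
    · rw [run_limit ht']
      have key : ∀ r, t ≤ r → r < t' → run .liminf α p r = run .liminf α p t :=
        fun r h2 h3 => ih r h3 h2
      have hcof : ∀ s < t', ∃ r, s ≤ r ∧ r < t' ∧ t ≤ r := fun s hs =>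
        ⟨max s t, le_max_left _ _, max_lt hs h1, le_max_right _ _⟩
      have hhead : liminfAt t' (fun r => (run .liminf α p r).head) =
          (run .liminf α p t).head := by
        apply liminfAt_eq_ord
        · intro y hy
          exact ⟨t, h1, fun r h2 h3 => by rw [key r h2 h3]; exact hy⟩
        · intro s hs
          obtain ⟨r, h2, h3, h4⟩ := hcof s hs
          exact ⟨r, h2, h3, by rw [key r h4 h3]⟩
      have hstate : liminfAt t' (fun r => (run .liminf α p r).state) =
          (run .liminf α p t).state := by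
        apply liminfAt_eq_nat
        · exact ⟨t, h1, fun r h2 h3 => by rw [key r h2 h3]⟩
        · intro s hs
          obtain ⟨r, h2, h3, h4⟩ := hcof s hs
          exact ⟨r, h2, h3, by rw [key r h4 h3]⟩
      have e1 : ∀ x, evTrue t' (fun r => ((run .liminf α p r).tape x).1) =
          ((run .liminf α p t).tape x).1 := fun x =>
        evTrue_const ⟨t, h1, fun r h2 h3 => by rw [key r h2 h3]⟩
      have e2 : ∀ x, evTrue t' (fun r => ((run .liminf α p r).tape x).2.1) =
          ((run .liminf α p t).tape x).2.1 := fun x =>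
        evTrue_const ⟨t, h1, fun r h2 h3 => by rw [key r h2 h3]⟩
      have e3 : ∀ x, evTrue t' (fun r => ((run .liminf α p r).tape x).2.2) =
          ((run .liminf α p t).tape x).2.2 := fun x =>
        evTrue_const ⟨t, h1, fun r h2 h3 => by rw [key r h2 h3]⟩
      simp only [limitConfig, hhead, hstate, e1, e2, e3, if_pos hh]

/-- The head stays on the tape. -/
lemma head_lt {L : LimitRule} (hα : IsSuccLimit α) (p : Program) (t : Ordinal.{0}) :
    (run L α p t).head < α := by
  induction t using limitRecOn with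
  | zero =>
    rw [run_zero]
    exact hα.bot_lt
  | add_one t ih =>
    rw [run_add_one]
    rcases step_cases p (run L α p t) with ⟨h3, _⟩ | ⟨q, s, d, h3, h4⟩
    · rwa [h3]
    · rw [h4]
      simp only
      split_ifs
      · exact hα.add_one_lt ih
      · rcases isSuccPrelimitRecOn (motive := fun h => (∃ k, h = k + 1) ∨ leftOf h = 0)
          (run L α p t).head
          (fun a _ => Or.inl ⟨a, rfl⟩) (fun a ha => Or.inr (by
            rcases eq_or_ne a 0 with h0 | h0
            · simp [h0]
            · exact leftOf_limit ⟨by simpa using h0, ha⟩)) with ⟨k, hk⟩ | h0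
        · rw [hk, leftOf_add_one]
          rw [hk] at ih
          exact (lt_add_one k).trans ih
        · rw [h0]
          exact hα.bot_lt
  | limit t ht _ =>
    rw [run_limit ht]
    simp only [limitConfig]
    split_ifs with h
    · exact h
    · exact hα.bot_lt

/-- With the inferior limit rule, a cell at which some program is ever halted is reachable. -/
lemma reachable_of_halted (hα : IsSuccLimit α) {p : Program} {t : Ordinal.{0}}
    (h : Halted p (run .liminf α p t)) : Reachable .liminf α (run .liminf α p t).head := by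
  classical
  let S : Set Ordinal.{0} := {r | Halted p (run .liminf α p r)}
  have hS : S.Nonempty := ⟨t, h⟩
  have hm : sInf S ∈ S := csInf_mem hS
  refine ⟨p, sInf S, hm, fun r hr hr' => ?_, ?_⟩
  · exact absurd (csInf_le' (show r ∈ S from hr')) hr.not_ge
  · rw [halted_persist hm (head_lt hα p _) t (csInf_le' h)]

/-- On tapes of length `2 ^ l > l` the cell `1 + l` is reachable. -/
theorem reachable_one_add (hα : IsSuccLimit α) (hadd : ∀ x < α, ∀ y < α, x + y < α)
    (hadd' : ∀ x < α, x + α = α) {l : Ordinal.{0}} (hl : (2 : Ordinal.{0}) ^ l = α)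
    (hl' : l < α) : Reachable .liminf α (1 + l) := by
  have h1α : (1 : Ordinal.{0}) < α := by
    have := hα.add_one_lt hα.bot_lt
    simpa using this
  obtain ⟨t', _, h1, _⟩ := (outer_loop hα hadd l hl.le).trans
    (by rw [hl]; exact final hα hadd hadd' hl') 2 run_two
  have h2 := final_halted (α := α) l
  rw [← h1] at h2
  have := reachable_of_halted hα h2
  rwa [h1] at this

end Pool.E8helper7.LongTape
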