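import Pool.Agent.E8helper7.LongTape.Basic

/-!
# The program
-/

open Order Set Ordinal

namespace Pool.E8helper7.LongTape

variable {α : Ordinal.{0}}

/-- The transition table. -/
def tab : ℕ → Sym → Option (ℕ × Sym × Bool)
  | 0, (false, false, false) => some (9, (true, false, false), true)
  | 9, (false, false, false) => some (1, (false, true, false), false)
  | 1, (true, false, false) => some (2, (true, false, false), true)
  | 1, s => some (1, s, false)
  | 2, (false, true, o) => some (2, (false, true, o), true)
  | 2, (true, true, o) => some (3, (false, true, o), true)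
  | 2, (false, false, o) => some (4, (false, false, o), false)
  | 2, (true, false, false) => some (8, (true, false, false), true)
  | 3, (i, true, o) => some (3, (i, true, o), true)
  | 3, (false, false, o) => some (1, (false, true, o), false)
  | 4, (true, false, false) => some (5, (true, false, false), true)
  | 4, s => some (4, s, false)
  | 5, (i, w, true) => some (5, (i, w, true), true)
  | 5, (false, w, false) => some (6, (false, w, true), false)
  | 6, (true, false, false) => some (7, (true, false, false), true)
  | 6, s => some (6, s, false)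
  | 7, (false, true, o) => some (7, (true, true, o), true)
  | 7, (false, false, o) => some (1, (false, false, o), false)
  | 8, (i, w, true) => some (8, (i, w, true), true)
  | _, _ => none

/-- All symbols. -/
def syms : List Sym :=
  [(false, false, false), (false, false, true), (false, true, false), (false, true, true),
   (true, false, false), (true, false, true), (true, true, false), (true, true, true)]

/-- The program. -/
def prog : Program :=
  (List.range 10).flatMap fun q => syms.filterMap fun s => (tab q s).map fun r => ((q, s), r)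

lemma lookup_prog_fin : ∀ (q : Fin 10) (i w o : Bool),
    prog.lookup (q.1, (i, w, o)) = tab q.1 (i, w, o) := by decide

lemma lookup_prog {q : ℕ} (hq : q < 10) (s : Sym) : prog.lookup (q, s) = tab q s :=
  lookup_prog_fin ⟨q, hq⟩ s.1 s.2.1 s.2.2

lemma not_halted_start : ¬ Halted prog Config.start := by
  have : next prog Config.start = some (9, (true, false, false), true) :=
    lookup_prog (q := 0) (by norm_num) (false, false, false)
  simp [Halted, this]

lemma prog_state : ∀ e ∈ prog, 1 ≤ e.2.1 ∧ e.2.1 ≤ 9 := by decide

lemma prog_work : ∀ e ∈ prog, e.1.2.2.1 = true → e.2.2.1.2.1 = true := by decide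

lemma prog_out : ∀ e ∈ prog, e.1.2.2.2 = true → e.2.2.1.2.2 = true := by decide

lemma prog_home : ∀ e ∈ prog, e.1.1 ≠ 0 → e.1.2 = (true, false, false) →
    e.2.2.1 = (true, false, false) := by decide

lemma mem_of_lookup {p : Program} {k : ℕ × Sym} {v : ℕ × Sym × Bool}
    (h : p.lookup k = some v) : (k, v) ∈ p := by
  induction p with
  | nil => simp at h
  | cons e p ih =>
    obtain ⟨k', v'⟩ := e
    rw [List.lookup_cons] at h
    by_cases hk : k == k'
    · simp only [hk, Option.some.injEq] at h
      rw [beq_iff_eq] at hk
      subst hk; subst h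
      simp
    · simp only [hk] at h
      exact List.mem_cons_of_mem _ (ih h)

lemma step_cases (p : Program) (c : Config) :
    (step p c = c ∧ Halted p c) ∨ ∃ q s d, ((c.state, c.tape c.head), (q, s, d)) ∈ p ∧
      step p c = ⟨q, if d then c.head + 1 else leftOf c.head, Function.update c.tape c.head s⟩ := by
  rcases h : next p c with _ | ⟨q, s, d⟩
  · left
    exact ⟨by simp [step, h], h⟩
  · right
    exact ⟨q, s, d, mem_of_lookup h, by simp [step, h]⟩

/-- The states stay between `1` and `9` after time `0`. -/
lemma inv_state (t : Ordinal.{0}) : t ≠ 0 →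
    1 ≤ (run .liminf α prog t).state ∧ (run .liminf α prog t).state ≤ 9 := by
  induction t using limitRecOn with
  | zero => intro h; exact absurd rfl h
  | add_one t ih =>
    intro _
    rw [run_add_one]
    rcases step_cases prog (run .liminf α prog t) with ⟨h, hh⟩ | ⟨q, s, d, h1, h2⟩
    · rw [h]
      rcases eq_or_ne t 0 with h0 | h0
      · subst h0
        rw [run_zero] at hh
        exact absurd hh not_halted_start
      · exact ih h0
    · rw [h2]
      exact prog_state _ h1
  | limit t ht ih =>
    intro _
    rw [run_limit ht]
    have h1t : (1 : Ordinal) < t := by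
      have := ht.add_one_lt ht.bot_lt
      simpa using this
    have hub : ∀ y ∈ {y | ∃ s < t, ∀ r, s ≤ r → r < t → y ≤ (run .liminf α prog r).state},
        y ≤ 9 := by
      rintro y ⟨s, hs, H⟩
      have hm : max s 1 < t := max_lt hs h1t
      have hne : max s 1 ≠ 0 := (lt_of_lt_of_le one_pos (le_max_right s 1)).ne'
      exact (H (max s 1) (le_max_left _ _) hm).trans (ih _ hm hne).2
    have hmem : 1 ∈ {y | ∃ s < t, ∀ r, s ≤ r → r < t → y ≤ (run .liminf α prog r).state} :=
      ⟨1, h1t, fun r h1 h2 => (ih r h2 (lt_of_lt_of_le one_pos h1).ne').1⟩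
    exact ⟨le_csSup ⟨9, hub⟩ hmem, csSup_le ⟨1, hmem⟩ hub⟩

/-- The contents of cell `0` never change after time `1`. -/
lemma inv_home (t : Ordinal.{0}) : t ≠ 0 →
    (run .liminf α prog t).tape 0 = (true, false, false) := by
  induction t using limitRecOn with
  | zero => intro h; exact absurd rfl h
  | add_one t ih =>
    intro _
    rw [run_add_one]
    rcases step_cases prog (run .liminf α prog t) with ⟨h, hh⟩ | ⟨q, s, d, h1, h2⟩
    · rw [h]
      rcases eq_or_ne t 0 with h0 | h0
      · subst h0
        rw [run_zero] at hh
        exact absurd hh not_halted_start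
      · exact ih h0
    · rcases eq_or_ne t 0 with h0 | h0
      · subst h0
        rw [run_zero]
        have := step_eq (p := prog) (c := Config.start) (q := 9) (s := (true, false, false))
          (d := true) (lookup_prog (q := 0) (by norm_num) (false, false, false))
        rw [this]
        simp [Config.start]
      · rw [h2]
        rcases eq_or_ne (run .liminf α prog t).head 0 with h3 | h3
        · rw [h3] at h1 ⊢
          rw [ih h0] at h1
          simp only [Function.update_self]
          exact prog_home _ h1 (by have := (inv_state (α := α) t h0).1; simp only; omega) rfl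
        · simp only
          rw [Function.update_of_ne h3.symm]
          exact ih h0
  | limit t ht ih =>
    intro _
    rw [run_limit ht]
    have h1t : (1 : Ordinal) < t := by
      have := ht.add_one_lt ht.bot_lt
      simpa using this
    have key : ∀ r, 1 ≤ r → r < t → (run .liminf α prog r).tape 0 = (true, false, false) :=
      fun r h1 h2 => ih r h2 (lt_of_lt_of_le one_pos h1).ne'
    simp only [limitConfig]
    rw [evTrue_const (v := true) ⟨1, h1t, fun r h1 h2 => by rw [key r h1 h2]⟩,
      evTrue_const (v := false) ⟨1, h1t, fun r h1 h2 => by rw [key r h1 h2]⟩,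
      evTrue_const (v := false) ⟨1, h1t, fun r h1 h2 => by rw [key r h1 h2]⟩]

/-- A coordinate that is never erased by the program stays `1` once it is `1`. -/
lemma inv_coord {L : LimitRule} {p : Program} (π : Sym → Bool)
    (hp : ∀ e ∈ p, π e.1.2 = true → π e.2.2.1 = true)
    (hπ : ∀ (t : Ordinal.{0}) (c : Ordinal.{0} → Config) (x : Ordinal.{0}),
      π ((limitConfig L α t c).tape x) = evTrue t fun r => π ((c r).tape x))
    (x : Ordinal.{0}) {t : Ordinal.{0}} (h : π ((run L α p t).tape x) = true)
    (t' : Ordinal.{0}) : t ≤ t' → π ((run L α p t').tape x) = true := by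
  induction t' using limitRecOn with
  | zero =>
    intro h'
    have : t = 0 := by simpa using h'
    rwa [← this]
  | add_one t' ih =>
    intro h'
    rcases eq_or_lt_of_le h' with h1 | h1
    · rwa [← h1]
    · have h2 := ih (Order.lt_add_one_iff.1 h1)
      rw [run_add_one]
      rcases step_cases p (run L α p t') with ⟨h3, _⟩ | ⟨q, s, d, h3, h4⟩
      · rwa [h3]
      · rw [h4]
        simp only
        rcases eq_or_ne x (run L α p t').head with h5 | h5
        · rw [h5, Function.update_self]
          exact hp _ h3 (by simpa [h5] using h2)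
        · rwa [Function.update_of_ne h5]
  | limit t' ht' ih =>
    intro h'
    rcases eq_or_lt_of_le h' with h1 | h1
    · rwa [← h1]
    · rw [run_limit ht', hπ, evTrue_iff]
      exact ⟨t, h1, fun r h2 h3 => ih r h3 h2⟩

lemma inv_work (x : Ordinal.{0}) {t : Ordinal.{0}}
    (h : ((run .liminf α prog t).tape x).2.1 = true) {t' : Ordinal.{0}} (htt : t ≤ t') :
    ((run .liminf α prog t').tape x).2.1 = true :=
  inv_coord (fun s => s.2.1) prog_work (fun _ _ _ => rfl) x h t' htt

lemma inv_out (x : Ordinal.{0}) {t : Ordinal.{0}}
    (h : ((run .liminf α prog t).tape x).2.2 = true) {t' : Ordinal.{0}} (htt : t ≤ t') :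
    ((run .liminf α prog t').tape x).2.2 = true :=
  inv_coord (fun s => s.2.2) prog_out (fun _ _ _ => rfl) x h t' htt

/-- The limit of an increasing sequence of times. -/
lemma exists_limit_time {l : Ordinal.{0}} (hl : IsSuccLimit l) {f : Ordinal.{0} → Ordinal.{0}}
    (hf : ∀ i < l, ∀ j < l, i < j → f i < f j) :
    ∃ t, IsSuccLimit t ∧ (∀ j < l, f j < t) ∧ ∀ s < t, ∃ j < l, s < f j := by
  have hlt : ∀ j < l, f j < ⨆ i : Iio l, f i.1 := by
    intro j hj
    have hj1 : j + 1 < l := hl.add_one_lt hj
    exact (hf j hj (j + 1) hj1 (lt_add_one j)).trans_le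
      (Ordinal.le_iSup (fun i : Iio l => f i.1) ⟨j + 1, hj1⟩)
  have hcof : ∀ s < ⨆ i : Iio l, f i.1, ∃ j < l, s < f j := by
    intro s hs
    obtain ⟨i, hi⟩ := Ordinal.lt_iSup_iff.1 hs
    exact ⟨i.1, i.2, hi⟩
  refine ⟨⨆ i : Iio l, f i.1, ?_, hlt, hcof⟩
  have h0 : (0 : Ordinal) < ⨆ i : Iio l, f i.1 :=
    lt_of_le_of_lt (by simp) (hlt 0 hl.bot_lt)
  refine ⟨by simpa using h0.ne', ?_⟩
  rw [Order.isSuccPrelimit_iff_succ_lt]
  intro s hs
  obtain ⟨j, hj, hsj⟩ := hcof s hs
  exact lt_of_le_of_lt (Order.succ_le_of_lt hsj) (hlt j hj)

/-- State and head at a limit time at which the machine is cofinally often in state `1` with its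
head at cell `0`. -/
lemma run_at_limit {t : Ordinal.{0}} (ht : IsSuccLimit t)
    (h : ∀ s < t, ∃ r, s ≤ r ∧ r < t ∧ (run .liminf α prog r).state = 1 ∧
      (run .liminf α prog r).head = 0) :
    (run .liminf α prog t).state = 1 ∧ (run .liminf α prog t).head = 0 := by
  have h1t : (1 : Ordinal) < t := by
    have := ht.add_one_lt ht.bot_lt
    simpa using this
  rw [run_limit ht]
  constructor
  · simp only [limitConfig]
    apply liminfAt_eq_nat
    · exact ⟨1, h1t, fun r h1 _ => (inv_state r (lt_of_lt_of_le one_pos h1).ne').1⟩
    · intro s hs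
      obtain ⟨r, h1, h2, h3, _⟩ := h s hs
      exact ⟨r, h1, h2, h3.le⟩
  · have : liminfAt t (fun r => (run .liminf α prog r).head) = 0 := by
      apply liminfAt_eq_ord
      · intro y hy
        exact absurd hy (by simp)
      · intro s hs
        obtain ⟨r, h1, h2, _, h3⟩ := h s hs
        exact ⟨r, h1, h2, h3.le⟩
    simp only [limitConfig, this]
    split_ifs <;> rfl

end Pool.E8helper7.LongTape
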