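import Pool.Agent.E8helper7.LongTape.LoopExists

/-!
# Reflection of the machines with tapes of length `ω₁` to countable tape lengths
-/

open Order Set Ordinal Cardinal

namespace Pool.E8helper7.LongTape

/-- Closing a countable set under countably many operations. -/
lemma exists_closed {ι : Type} [Countable ι]
    (G : ι → Ordinal.{0} → Ordinal.{0} → Ordinal.{0} → Ordinal.{0}) (S : Set Ordinal.{0})
    (hS : S.Countable) : ∃ M : Set Ordinal.{0}, M.Countable ∧ S ⊆ M ∧
      ∀ i, ∀ a ∈ M, ∀ b ∈ M, ∀ c ∈ M, G i a b c ∈ M := by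
  let F : Set Ordinal.{0} → Set Ordinal.{0} := fun M =>
    M ∪ ⋃ i, (fun z : Ordinal.{0} × Ordinal.{0} × Ordinal.{0} => G i z.1 z.2.1 z.2.2) ''
      (M ×ˢ M ×ˢ M)
  let A : ℕ → Set Ordinal.{0} := fun n => F^[n] S
  have hA : ∀ n, A (n + 1) = F (A n) := fun n => Function.iterate_succ_apply' F n S
  have hmono : Monotone A := by
    apply monotone_nat_of_le_succ
    intro n
    rw [hA]
    exact subset_union_left
  have hcount : ∀ n, (A n).Countable := by
    intro n
    induction n with
    | zero => exact hS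
    | succ n ih =>
      rw [hA]
      refine ih.union (countable_iUnion fun i => ?_)
      exact (ih.prod (ih.prod ih)).image _
  refine ⟨⋃ n, A n, countable_iUnion hcount, subset_iUnion A 0, fun i a ha b hb c hc => ?_⟩
  obtain ⟨n1, h1⟩ := mem_iUnion.1 ha
  obtain ⟨n2, h2⟩ := mem_iUnion.1 hb
  obtain ⟨n3, h3⟩ := mem_iUnion.1 hc
  set n := max n1 (max n2 n3)
  have h1' : a ∈ A n := hmono (le_max_left _ _) h1
  have h2' : b ∈ A n := hmono ((le_max_left _ _).trans (le_max_right _ _)) h2
  have h3' : c ∈ A n := hmono ((le_max_right _ _).trans (le_max_right _ _)) h3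
  refine mem_iUnion.2 ⟨n + 1, ?_⟩
  rw [hA]
  refine Or.inr (mem_iUnion.2 ⟨i, ⟨(a, b, c), ⟨h1', h2', h3'⟩, rfl⟩⟩)

lemma countable_Iio_of_lt {ξ : Ordinal.{0}} (h : ξ < ω_ 1) : (Iio ξ).Countable := by
  rw [← le_aleph0_iff_set_countable, Cardinal.mk_Iio_ordinal, Cardinal.lift_le_aleph0]
  rw [lt_omega_iff_card_lt] at h
  rw [← Order.lt_succ_iff, succ_aleph0]
  exact h

lemma not_countable_Iio : ¬ (Iio (ω_ 1 : Ordinal.{0})).Countable := by
  intro h
  have h1 := sSup_lt_omega_one h (fun x hx => hx)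
  have h2 := mulClosed_omega_one.isSuccLimit.add_one_lt h1
  have h3 : sSup (Iio (ω_ 1 : Ordinal.{0})) + 1 ≤ sSup (Iio (ω_ 1 : Ordinal.{0})) :=
    le_csSup ⟨ω_ 1, fun x hx => (mem_Iio.1 hx).le⟩ h2
  exact absurd (lt_add_one _) h3.not_gt

/-- A countable set of ordinals closed under everything needed. -/
structure Hull (M : Set Ordinal.{0}) : Prop where
  countable : M.Countable
  zero : 0 ∈ M
  omega : ω ∈ M
  succ : ∀ t ∈ M, t + 1 ∈ M
  pred : ∀ t, t + 1 ∈ M → t ∈ M
  mul : ∀ a ∈ M, ∀ b ∈ M, a * b ∈ M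
  down : ∀ a ∈ M, a < ω_ 1 → ∀ b < a, b ∈ M
  head : ∀ p, ∀ t ∈ M, (run .liminf (ω_ 1) p t).head ∈ M
  ev : ∀ p k, ∀ t ∈ M, ∀ x ∈ M, Ev t (fun r => Obs k x (run .liminf (ω_ 1) p r)) →
    ∃ s ∈ M, s < t ∧ ∀ r, s ≤ r → r < t → Obs k x (run .liminf (ω_ 1) p r)
  ex : ∀ p k, ∀ t ∈ M, ∀ s ∈ M, ∀ x ∈ M,
    (∃ r, s ≤ r ∧ r < t ∧ ¬ Obs k x (run .liminf (ω_ 1) p r)) →
    ∃ r ∈ M, s ≤ r ∧ r < t ∧ ¬ Obs k x (run .liminf (ω_ 1) p r)
  loop : ∀ p, ∃ t₁ ∈ M, ∃ t₂ ∈ M, Loop (ω_ 1) p t₁ t₂

/-- The operations. -/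
noncomputable def ops (f : ℕ → Ordinal.{0} → Ordinal.{0}) :
    (Program × Kind) ⊕ (Program × Kind) ⊕ Program ⊕ ℕ ⊕ Fin 3 →
      Ordinal.{0} → Ordinal.{0} → Ordinal.{0} → Ordinal.{0}
  | .inl (p, k), t, x, _ => sInf {s | s < t ∧ ∀ r, s ≤ r → r < t →
      Obs k x (run .liminf (ω_ 1) p r)}
  | .inr (.inl (p, k)), t, s, x => sInf {r | s ≤ r ∧ r < t ∧
      ¬ Obs k x (run .liminf (ω_ 1) p r)}
  | .inr (.inr (.inl p)), t, _, _ => (run .liminf (ω_ 1) p t).head
  | .inr (.inr (.inr (.inl n))), a, _, _ => f n a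
  | .inr (.inr (.inr (.inr 0))), a, _, _ => a + 1
  | .inr (.inr (.inr (.inr 1))), a, _, _ => Ordinal.pred a
  | .inr (.inr (.inr (.inr 2))), a, b, _ => a * b

theorem exists_hull (a : Ordinal.{0}) : ∃ M, Hull M ∧ a ∈ M := by
  classical
  have H : ∀ a : Ordinal.{0}, ∃ f : ℕ → Ordinal.{0}, a < ω_ 1 → ∀ b < a, ∃ n, f n = b := by
    intro a
    by_cases h : a < ω_ 1
    · rcases (Iio a).eq_empty_or_nonempty with h0 | h0
      · exact ⟨fun _ => 0, fun _ b hb => absurd (show b ∈ Iio a from hb) (by simp [h0])⟩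
      · obtain ⟨f, hf⟩ := (countable_Iio_of_lt h).exists_eq_range h0
        refine ⟨f, fun _ b hb => ?_⟩
        have : b ∈ Iio a := hb
        rw [hf] at this
        exact this
    · exact ⟨fun _ => 0, fun h' => absurd h' h⟩
  choose f hf using H
  choose T₁ T₂ hT using exists_loop
  obtain ⟨M, hM, hS, hG⟩ := exists_closed (ops fun n a => f a n)
    (({0, ω, a} : Set Ordinal.{0}) ∪ Set.range T₁ ∪ Set.range T₂)
    (((Set.toFinite _).countable.union (countable_range _)).union (countable_range _))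
  have hzero : 0 ∈ M := hS (Or.inl (Or.inl (by simp)))
  refine ⟨M, ⟨hM, hzero, hS (Or.inl (Or.inl (by simp))), ?_, ?_, ?_, ?_, ?_, ?_, ?_, ?_⟩,
    hS (Or.inl (Or.inl (by simp)))⟩
  · intro t ht
    exact hG (.inr (.inr (.inr (.inr 0)))) t ht 0 hzero 0 hzero
  · intro t ht
    have := hG (.inr (.inr (.inr (.inr 1)))) _ ht 0 hzero 0 hzero
    simpa [ops] using this
  · intro a ha b hb
    exact hG (.inr (.inr (.inr (.inr 2)))) a ha b hb 0 hzero
  · intro a ha ha' b hb
    obtain ⟨n, hn⟩ := hf a ha' b hb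
    have := hG (.inr (.inr (.inr (.inl n)))) a ha 0 hzero 0 hzero
    simpa [ops, hn] using this
  · intro p t ht
    exact hG (.inr (.inr (.inl p))) t ht 0 hzero 0 hzero
  · rintro p k t ht x hx ⟨s, hs, h⟩
    refine ⟨_, hG (.inl (p, k)) t ht x hx 0 hzero, ?_⟩
    exact csInf_mem (s := {s | s < t ∧ ∀ r, s ≤ r → r < t →
      Obs k x (run .liminf (ω_ 1) p r)}) ⟨s, hs, h⟩
  · rintro p k t ht s hs x hx ⟨r, hr⟩
    refine ⟨_, hG (.inr (.inl (p, k))) t ht s hs x hx, ?_⟩
    exact csInf_mem (s := {r | s ≤ r ∧ r < t ∧ ¬ Obs k x (run .liminf (ω_ 1) p r)}) ⟨r, hr⟩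
  · intro p
    exact ⟨T₁ p, hS (Or.inl (Or.inr ⟨p, rfl⟩)), T₂ p, hS (Or.inr ⟨p, rfl⟩), hT p⟩

/-- Agreement of two configurations on the cells below `β`. -/
structure Same (β : Ordinal.{0}) (X Y : Config) : Prop where
  state : X.state = Y.state
  head : X.head = Y.head
  tape : ∀ x < β, X.tape x = Y.tape x

lemma Same.obs {β : Ordinal.{0}} {X Y : Config} (h : Same β X Y) (k : Kind) {x : Ordinal.{0}}
    (hx : x < β) : Obs k x X ↔ Obs k x Y := by
  cases k <;> simp only [Obs, h.state, h.head, h.tape x hx]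

/-- The main reflection theorem. -/
theorem reflection (a : Ordinal.{0}) (ha : a < ω_ 1) : ∃ β, a < β ∧ β < ω_ 1 ∧ MulClosed β ∧
    ∀ μ, Reachable .liminf β μ → Reachable .liminf (ω_ 1) μ := by
  have hΩ : IsSuccLimit (ω_ 1 : Ordinal.{0}) := mulClosed_omega_one.isSuccLimit
  obtain ⟨M, hM, haM⟩ := exists_hull a
  -- the ordinal `β`
  obtain ⟨ξ, hξ, hξM⟩ : ∃ ξ, ξ < ω_ 1 ∧ ξ ∉ M := by
    by_contra hc
    push Not at hc
    exact not_countable_Iio (hM.countable.mono fun x hx => hc x hx)
  set β := sInf {x | x ∉ M} with hβdef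
  have hβM : β ∉ M := csInf_mem (s := {x | x ∉ M}) ⟨ξ, hξM⟩
  have hβ : β < ω_ 1 := lt_of_le_of_lt (csInf_le' hξM) hξ
  have hltM : ∀ x < β, x ∈ M := by
    intro x hx
    by_contra hc
    exact absurd (csInf_le' (show x ∈ {x | x ∉ M} from hc)) hx.not_ge
  have hMlt : ∀ x ∈ M, x < ω_ 1 → x < β := by
    intro x hx hx'
    by_contra hc
    push Not at hc
    rcases eq_or_lt_of_le hc with h | h
    · exact hβM (h ▸ hx)
    · exact hβM (hM.down x hx hx' β h)
  have hβmul : MulClosed β := by
    refine ⟨(hMlt ω hM.omega omega0_lt_omega_one).le, fun μ hμ ν hν => ?_⟩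
    exact hMlt _ (hM.mul μ (hltM μ hμ) ν (hltM ν hν))
      (mulClosed_omega_one.2 μ (hμ.trans hβ) ν (hν.trans hβ))
  have hβl : IsSuccLimit β := hβmul.isSuccLimit
  have hβ0 : 0 < β := hβl.bot_lt
  -- the enumeration of `M`
  have : Countable M := hM.countable.to_subtype
  have hbdd : BddAbove M := bddAbove_of_small
  set B := sSup M + 1 with hB
  have hMB : ∀ t ∈ M, t < B := fun t ht => (le_csSup hbdd ht).trans_lt (lt_add_one _)
  set S : Set Ordinal.{0} := M ∪ Ici B with hSdef
  have hS : ¬ BddAbove S := by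
    rintro ⟨b, hb⟩
    have h1 : max b B + 1 ∈ S := Or.inr ((le_max_right b B).trans (lt_add_one _).le)
    have h2 := hb h1
    exact absurd ((le_max_left b B).trans_lt (lt_add_one _)) h2.not_gt
  set e := enumOrd S with he
  have emono : StrictMono e := enumOrd_strictMono hS
  have emem : ∀ i, e i < B → e i ∈ M := by
    intro i hi
    rcases enumOrd_mem hS i with h | h
    · exact h
    · exact absurd hi (not_lt.2 h)
  have esurj : ∀ t ∈ M, ∃ i, e i = t := fun t ht => enumOrd_surjective hS (Or.inl ht)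
  have edown : ∀ i j, e i ∈ M → j ≤ i → e j ∈ M := fun i j hi hj =>
    emem j (lt_of_le_of_lt (emono.monotone hj) (hMB _ hi))
  have e0 : e 0 = 0 := by
    have : e 0 ≤ 0 := enumOrd_le_of_forall_lt (Or.inl hM.zero) (fun b hb => absurd hb (by simp))
    simpa using this
  have esucc : ∀ i, e i ∈ M → e (i + 1) = e i + 1 := by
    intro i hi
    apply le_antisymm
    · have := enumOrd_succ_le hS (a := e i + 1) (b := i) (Or.inl (hM.succ _ hi)) (lt_add_one _)
      simpa using this
    · exact Order.add_one_le_of_lt (emono (lt_add_one i))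
  have elim : ∀ i, IsSuccLimit i → e i ∈ M → IsSuccLimit (e i) := by
    intro i hi hiM
    rcases zero_or_succ_or_isSuccLimit (e i) with h | ⟨s, h⟩ | h
    · have : e 0 < e i := emono hi.bot_lt
      rw [h] at this
      exact absurd this (by simp)
    · have hsM : s ∈ M := hM.pred s (by
        rw [← h] at hiM
        simpa using hiM)
      obtain ⟨j, hj⟩ := esurj s hsM
      have hs : e i = s + 1 := by
        rw [← h]
        exact Order.succ_eq_add_one s
      have hji : j < i := by
        rw [← emono.lt_iff_lt, hj, hs]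
        exact lt_add_one s
      have h1 := emono (hi.add_one_lt hji)
      have h2 := emono (lt_add_one j)
      rw [hs] at h1
      rw [hj] at h2
      exact absurd (Order.add_one_le_of_lt h2) h1.not_ge
    · exact h
  -- comparison of eventual values
  have evcomp : ∀ p k i, IsSuccLimit i → e i ∈ M →
      (∀ j < i, Same β (run .liminf β p j) (run .liminf (ω_ 1) p (e j))) → ∀ x < β,
      (Ev i (fun j => Obs k x (run .liminf β p j)) ↔
        Ev (e i) (fun r => Obs k x (run .liminf (ω_ 1) p r))) := by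
    intro p k i _ hiM ih x hx
    constructor
    · rintro ⟨j, hj, H⟩
      by_contra hc
      obtain ⟨r, h1, h2, h3⟩ := hM.ex p k (e i) hiM (e j) (edown i j hiM hj.le) x (hltM x hx)
        (not_ev hc (emono hj))
      obtain ⟨j', rfl⟩ := esurj r h1
      have h4 : j ≤ j' := emono.le_iff_le.1 h2
      have h5 : j' < i := emono.lt_iff_lt.1 h3.1
      exact h3.2 (((ih j' h5).obs k hx).1 (H j' h4 h5))
    · intro hE
      obtain ⟨s, h1, h2, h3⟩ := hM.ev p k (e i) hiM x (hltM x hx) hE
      obtain ⟨j, rfl⟩ := esurj s h1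
      exact ⟨j, emono.lt_iff_lt.1 h2, fun r hr1 hr2 => ((ih r hr2).obs k hx).2
        (h3 (e r) (emono.monotone hr1) (emono hr2))⟩
  -- the runs agree
  have main : ∀ p i, e i ∈ M → Same β (run .liminf β p i) (run .liminf (ω_ 1) p (e i)) := by
    intro p i
    induction i using limitRecOn with
    | zero =>
      intro _
      rw [e0]
      exact ⟨by simp, by simp, fun x _ => by simp⟩
    | add_one i ih =>
      intro hi
      have hiM : e i ∈ M := edown (i + 1) i hi (lt_add_one i).le
      obtain ⟨h1, h2, h3⟩ := ih hiM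
      rw [esucc i hiM, run_add_one, run_add_one]
      have hh : (run .liminf (ω_ 1) p (e i)).head < β :=
        hMlt _ (hM.head p _ hiM) (head_lt hΩ p _)
      have hnext : next p (run .liminf β p i) = next p (run .liminf (ω_ 1) p (e i)) := by
        unfold next
        rw [h1, h2, h3 _ hh]
      unfold step
      rw [hnext]
      rcases next p (run .liminf (ω_ 1) p (e i)) with _ | ⟨q, s, d⟩
      · exact ⟨h1, h2, h3⟩
      · refine ⟨rfl, by simp only [h2], fun x hx => ?_⟩
        simp only [h2]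
        rcases eq_or_ne x (run .liminf (ω_ 1) p (e i)).head with hx' | hx'
        · rw [hx', Function.update_self, Function.update_self]
        · rw [Function.update_of_ne hx', Function.update_of_ne hx']
          exact h3 x hx
    | limit i hi ih =>
      intro hiM
      have ih' : ∀ j < i, Same β (run .liminf β p j) (run .liminf (ω_ 1) p (e j)) :=
        fun j hj => ih j hj (edown i j hiM hj.le)
      have hei := elim i hi hiM
      have ev := fun k => evcomp p k i hi hiM ih'
      have hobs : ∀ k, k ≠ .head → ∀ x < β,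
          (Obs k x (run .liminf β p i) ↔ Obs k x (run .liminf (ω_ 1) p (e i))) := by
        intro k hk x hx
        rw [obs_limit hi hk, obs_limit hei hk]
        exact ev k x hx
      refine ⟨?_, ?_, ?_⟩
      · apply le_antisymm
        · by_contra hc
          push Not at hc
          exact absurd ((hobs (.state _) (by simp) 0 hβ0).1 hc) (lt_irrefl _)
        · by_contra hc
          push Not at hc
          exact absurd ((hobs (.state _) (by simp) 0 hβ0).2 hc) (lt_irrefl _)
      · have hL : ∀ y < β, y < preHead β p i ↔ y < preHead (ω_ 1) p (e i) := by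
          intro y hy
          rw [lt_preHead hβl, lt_preHead hΩ]
          exact ev .head y hy
        rw [head_limit hi, head_limit hei]
        by_cases hc : preHead (ω_ 1) p (e i) < ω_ 1
        · have h1 : preHead (ω_ 1) p (e i) < β := by
            have := hM.head p _ hiM
            rw [head_limit hei, if_pos hc] at this
            exact hMlt _ this hc
          have h2 : preHead β p i = preHead (ω_ 1) p (e i) := by
            apply le_antisymm
            · by_contra hc'
              push Not at hc'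
              exact absurd ((hL _ h1).1 hc') (lt_irrefl _)
            · by_contra hc'
              push Not at hc'
              exact absurd ((hL _ (hc'.trans h1)).2 hc') (lt_irrefl _)
          rw [h2, if_pos h1, if_pos hc]
        · have h1 : ¬ preHead β p i < β := by
            intro hc'
            exact absurd ((hL _ hc').2 ((hc'.trans hβ).trans_le (not_lt.1 hc))) (lt_irrefl _)
          rw [if_neg h1, if_neg hc]
      · intro x hx
        ext
        · exact Bool.eq_iff_iff.2 (hobs .inp (by simp) x hx)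
        · exact Bool.eq_iff_iff.2 (hobs .wrk (by simp) x hx)
        · exact Bool.eq_iff_iff.2 (hobs .out (by simp) x hx)
  refine ⟨β, hMlt a haM ha, hβ, hβmul, ?_⟩
  rintro μ ⟨p, t, h1, h2, h3⟩
  obtain ⟨t₁, ht₁, t₂, ht₂, hloop⟩ := hM.loop p
  obtain ⟨i₁, rfl⟩ := esurj t₁ ht₁
  obtain ⟨i₂, rfl⟩ := esurj t₂ ht₂
  have hl : Loop β p i₁ i₂ := by
    refine ⟨emono.lt_iff_lt.1 hloop.lt, ?_, fun r hr1 hr2 k x hx ho => ?_⟩
    · have s1 := main p i₁ ht₁
      have s2 := main p i₂ ht₂
      have s3 := hloop.eq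
      have htape : ∀ x, (run .liminf β p i₁).tape x = (run .liminf β p i₂).tape x := by
        intro x
        rcases lt_or_ge x β with hx | hx
        · rw [s1.tape x hx, s2.tape x hx, s3]
        · rw [tape_ge hβl hx, tape_ge hβl hx]
      have hst : (run .liminf β p i₁).state = (run .liminf β p i₂).state := by
        rw [s1.state, s2.state, s3]
      have hhd : (run .liminf β p i₁).head = (run .liminf β p i₂).head := by
        rw [s1.head, s2.head, s3]
      ext x
      · rw [hst]
      · rw [hhd]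
      · rw [htape x]
      · rw [htape x]
      · rw [htape x]
    · have hrM : e r ∈ M := edown i₂ r ht₂ hr2.le
      rw [(main p r hrM).obs k hx]
      rw [(main p i₁ ht₁).obs k hx] at ho
      exact hloop.ge (e r) (emono.monotone hr1) (emono hr2) k x (hx.trans hβ) ho
  have ht : t < i₂ := by
    rcases lt_or_ge t i₁ with h | h
    · exact h.trans hl.lt
    · obtain ⟨r, hr1, hr2, hr3⟩ := hl.forever hβl h
      rw [hr3] at h1
      by_contra hc
      push Not at hc
      exact h2 r (hr2.trans_le hc) h1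
  have htM : e t ∈ M := edown i₂ t ht₂ ht.le
  have hs := main p t htM
  have hh : (run .liminf (ω_ 1) p (e t)).head < β :=
    hMlt _ (hM.head p _ htM) (head_lt hΩ p _)
  have hhalt : Halted p (run .liminf (ω_ 1) p (e t)) := by
    unfold Halted next at h1 ⊢
    rw [hs.state, hs.head, hs.tape _ hh] at h1
    exact h1
  have := reachable_of_halted hΩ hhalt
  rwa [← hs.head, h3] at this

/-- `θ` is not monotone, even on countable ordinals. -/
theorem not_monotone (ξ : Ordinal.{0}) (hξ : ξ < ω_ 1) : ∃ α β : Ordinal.{0},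
    MulClosed α ∧ MulClosed β ∧ ξ < α ∧ α < β ∧ β < ω_ 1 ∧ ξ ≤ theta .liminf α ∧
    theta .liminf β ≤ theta .liminf (ω_ 1) ∧ theta .liminf (ω_ 1) < theta .liminf α := by
  have hΩ : IsSuccLimit (ω_ 1 : Ordinal.{0}) := mulClosed_omega_one.isSuccLimit
  set z := max ξ (theta .liminf (ω_ 1) + 1) with hz
  have hz1 : z < ω_ 1 := max_lt hξ (hΩ.add_one_lt (theta_omega_one .liminf))
  obtain ⟨μ, h2, h3, h4⟩ := exists_reachable_big z
  obtain ⟨β, hb1, hb2, hb3, hb4⟩ := reflection (big z) (big_lt_omega_one hz1)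
  refine ⟨big z, β, mulClosed_big z, hb3, (le_max_left _ _).trans_lt (lt_big z), hb1, hb2,
    (le_max_left _ _).trans (h3.trans (le_theta h2 h4)), ?_, ?_⟩
  · apply csSup_le'
    rintro ν ⟨hν, hν'⟩
    exact le_theta (hν.trans hb2) (hb4 ν hν')
  · exact (lt_add_one _).trans_le ((le_max_right _ _).trans (h3.trans (le_theta h2 h4)))

end Pool.E8helper7.LongTape
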