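import Pool.Agent.E8helper7.LongTape.BlockRun

/-!
# The model with a distinguished limit state: the supremum of the reachable cells
-/

open Order Set Ordinal

namespace Pool.E8helper7.LongTape

variable {α : Ordinal.{0}} {p : Program}

lemma blk_step (t : Ordinal.{0}) :
    blk (hd α p (t + 1)) = blk (hd α p t) ∨ hd α p (t + 1) = 0 := by
  unfold hd
  rw [run_add_one]
  rcases step_cases p (run .special α p t) with ⟨h, _⟩ | ⟨q, s, d, _, h⟩
  · rw [h]
    exact Or.inl rfl
  · rw [h]
    simp only
    split_ifs
    · rw [blk_add_one]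
      exact Or.inl rfl
    · rcases blk_leftOf (run .special α p t).head with ⟨l1, _, _⟩ | ⟨l1, _⟩
      · exact Or.inl l1
      · exact Or.inr l1

lemma le_blk {k h : Ordinal.{0}} : k ≤ blk h ↔ ω * k ≤ h :=
  (mul_le_iff_le_div omega0_ne_zero).symm

lemma hd_zero : hd α p 0 = 0 := by simp [hd, Config.start]

lemma blk_ne_zero {h : Ordinal.{0}} (hb : blk h ≠ 0) : h ≠ 0 := by
  intro h0
  rw [h0, blk_zero] at hb
  exact hb rfl

lemma le_plim (hα : IsSuccLimit α) {t y : Ordinal.{0}}
    (h : ∃ s < t, ∀ r, s ≤ r → r < t → y ≤ hd α p r) : y ≤ plim α p t := by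
  have hb : BddAbove {y | ∃ s < t, ∀ r, s ≤ r → r < t → y ≤ hd α p r} := by
    refine ⟨α, ?_⟩
    rintro z ⟨s, hs, H⟩
    exact (H s le_rfl hs).trans (head_lt hα p s).le
  exact le_csSup hb (show y ∈ {y | ∃ s < t, ∀ r, s ≤ r → r < t → y ≤ hd α p r} from h)

/-- While the head does not come to cell `0`, it does not return from blocks `≥ 2` to block
`1`. -/
lemma stay (hα : IsSuccLimit α) {s : Ordinal.{0}} (hs : 2 ≤ blk (hd α p s)) (t : Ordinal.{0}) :
    s ≤ t → (∀ r, s ≤ r → r ≤ t → hd α p r ≠ 0) → 2 ≤ blk (hd α p t) := by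
  induction t using limitRecOn with
  | zero =>
    intro hst _
    have : s = 0 := by simpa using hst
    rwa [← this]
  | add_one t ih =>
    intro hst H
    rcases eq_or_lt_of_le hst with h | h
    · rwa [← h]
    · have h1 := Order.lt_add_one_iff.1 h
      rcases blk_step (α := α) (p := p) t with h2 | h2
      · rw [h2]
        exact ih h1 fun r hr1 hr2 => H r hr1 (hr2.trans (lt_add_one t).le)
      · exact absurd h2 (H _ hst le_rfl)
  | limit t ht ih =>
    intro hst H
    rcases eq_or_lt_of_le hst with h | h
    · rwa [← h]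
    · obtain ⟨hp, _⟩ := plim_eq_of_blk ht (H t hst le_rfl)
      rw [← hp, le_blk]
      apply le_plim hα
      exact ⟨s, h, fun r hr1 hr2 => by
        rw [← le_blk]
        exact ih r hr2 hr1 fun u hu1 hu2 => H u hu1 (hu2.trans hr2.le)⟩

lemma two_ne_zero' : (2 : Ordinal.{0}) ≠ 0 := two_ne_zero

lemma one_lt_two' : (1 : Ordinal.{0}) < 2 := by
  rw [← one_add_one_eq_two]
  exact lt_add_one 1

/-- A limit time at which the head is in a block `≥ 2`: before it, either the head is in block `1`
all the time, or it is in blocks `≥ 2` all the time. -/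
lemma limit_cases (hα : IsSuccLimit α) {t : Ordinal.{0}} (ht : IsSuccLimit t)
    (hb : 2 ≤ blk (hd α p t)) : ∃ s < t,
      (∀ r, s ≤ r → r < t → blk (hd α p r) = 1) ∨ (∀ r, s ≤ r → r < t → 2 ≤ blk (hd α p r)) := by
  have hb0 : blk (hd α p t) ≠ 0 := fun h => by
    rw [h] at hb
    exact absurd hb (by simp)
  obtain ⟨hp, _⟩ := plim_eq_of_blk ht (blk_ne_zero hb0)
  have h1 : ω < plim α p t := by
    rw [hp]
    rw [le_blk] at hb
    refine lt_of_lt_of_le ?_ hb
    have h3 : ω * 1 < ω * (2 : Ordinal.{0}) := (mul_lt_mul_iff_right₀ omega0_pos).2 one_lt_two'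
    rwa [mul_one] at h3
  obtain ⟨s₀, hs₀, H⟩ := (lt_plim hα).1 h1
  simp only at H
  have hge1 : ∀ r, s₀ ≤ r → r < t → 1 ≤ blk (hd α p r) := by
    intro r hr1 hr2
    rw [le_blk, mul_one]
    exact (H r hr1 hr2).le
  by_cases hc : ∃ s, s₀ ≤ s ∧ s < t ∧ 2 ≤ blk (hd α p s)
  · obtain ⟨s, h2, h3, h4⟩ := hc
    refine ⟨s, h3, Or.inr fun r hr1 hr2 => ?_⟩
    apply stay hα h4 r hr1
    intro u hu1 hu2 hu3
    have := H u (h2.trans hu1) (hu2.trans_lt hr2)
    rw [hu3] at this
    exact absurd this (by simp)
  · push Not at hc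
    refine ⟨s₀, hs₀, Or.inl fun r hr1 hr2 => ?_⟩
    apply le_antisymm _ (hge1 r hr1 hr2)
    have := hc r hr1 hr2
    rw [← one_add_one_eq_two] at this
    exact Order.lt_add_one_iff.1 this

/-- At the local time `l`, the head leaves the block at its right end. -/
def RightExit (p : Program) (l : Ordinal.{0}) : Prop :=
  IsSuccLimit l ∧ ∀ n : ℕ, Ev l (fun x => n < (lrun p x).n)

lemma right_exit (hα : IsSuccLimit α) (t : Ordinal.{0}) :
    2 ≤ blk (hd α p t) → RightExit p (clock α p 1 t) := by
  induction t using limitRecOn with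
  | zero =>
    intro h
    rw [hd_zero, blk_zero] at h
    exact absurd h (by simp)
  | add_one t ih =>
    intro h
    rcases blk_step (α := α) (p := p) t with h1 | h1
    · rw [h1] at h
      have h2 : blk (hd α p t) ≠ 1 := by
        intro h3
        rw [h3] at h
        exact absurd h one_lt_two'.not_ge
      rw [clock_out h2]
      exact ih h
    · rw [h1, blk_zero] at h
      exact absurd h (by simp)
  | limit t ht ih =>
    intro h
    have hb0 : blk (hd α p t) ≠ 0 := fun h' => by
      rw [h'] at h
      exact absurd h (by simp)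
    obtain ⟨hp, _⟩ := plim_eq_of_blk ht (blk_ne_zero hb0)
    obtain ⟨s, hs, hs'⟩ := limit_cases hα ht h
    rcases hs' with hs' | hs'
    · have hc : ∀ u < t, ∃ r, u ≤ r ∧ r < t ∧ blk (hd α p r) = 1 := fun u hu =>
        ⟨max s u, le_max_right _ _, max_lt hs hu, hs' _ (le_max_left _ _) (max_lt hs hu)⟩
      refine ⟨(clock_cofinal ht hc).1, fun n => ?_⟩
      rw [← ev_clock ht hc (fun x => n < (lrun p x).n)]
      have h1 : ω * 1 + (n : Ordinal.{0}) < plim α p t := by
        rw [hp]
        rw [le_blk] at h
        refine lt_of_lt_of_le ?_ h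
        rw [← one_add_one_eq_two, mul_add, mul_one]
        exact (add_lt_add_iff_left ω).2 (natCast_lt_omega0 n)
      obtain ⟨u, hu, H⟩ := (lt_plim hα).1 h1
      simp only at H
      refine ⟨max s u, max_lt hs hu, fun r hr1 hr2 => ?_⟩
      simp only
      have hb := hs' r ((le_max_left _ _).trans hr1) hr2
      have h2 := H r ((le_max_right _ _).trans hr1) hr2
      rw [← ((match_all hα one_ne_zero r).inn hb).2]
      have h3 : hd α p r = ω * 1 + (off (hd α p r) : Ordinal.{0}) := by
        conv_lhs => rw [← eq_blk_off (hd α p r), hb]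
      rw [h3, mk_lt_mk] at h2
      exact h2
    · have h1 : clock α p 1 t = clock α p 1 s := by
        apply clock_const t hs.le
        intro r hr1 hr2 hr3
        have := hs' r hr1 hr2
        rw [hr3] at this
        exact absurd this one_lt_two'.not_ge
      rw [h1]
      exact ih s hs (hs' s le_rfl hs)

/-- The clock of a block `k ≥ 2` is behind that of block `1`. -/
lemma clock_compare (hα : IsSuccLimit α) {k : Ordinal.{0}} (hk : 2 ≤ k) (t : Ordinal.{0}) :
    clock α p k t ≤ clock α p 1 t ∧
      (2 ≤ blk (hd α p t) → blk (hd α p t) ≤ k → clock α p k t < clock α p 1 t) := by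
  have hk0 : k ≠ 0 := fun h => by
    rw [h] at hk
    exact absurd hk (by simp)
  have hk1 : k ≠ 1 := fun h => by
    rw [h] at hk
    exact absurd hk one_lt_two'.not_ge
  induction t using limitRecOn with
  | zero =>
    refine ⟨by rw [clock_zero, clock_zero], fun h => ?_⟩
    rw [hd_zero, blk_zero] at h
    exact absurd h (by simp)
  | add_one t ih =>
    by_cases hb : blk (hd α p t) = k
    · have h1 := ih.2 (by rw [hb]; exact hk) hb.le
      have h2 := right_exit hα t (by rw [hb]; exact hk)
      have h3 : blk (hd α p t) ≠ 1 := by rw [hb]; exact hk1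
      rw [clock_in hb, clock_out h3]
      have h4 := h2.1.add_one_lt h1
      exact ⟨h4.le, fun _ _ => h4⟩
    · rw [clock_out hb]
      refine ⟨ih.1.trans (clock_mono 1 (lt_add_one t).le), fun h1 h2 => ?_⟩
      rcases blk_step (α := α) (p := p) t with h3 | h3
      · rw [h3] at h1 h2
        exact (ih.2 h1 h2).trans_le (clock_mono 1 (lt_add_one t).le)
      · rw [h3, blk_zero] at h1
        exact absurd h1 (by simp)
  | limit t ht ih =>
    have hle : clock α p k t ≤ clock α p 1 t := by
      by_contra hc
      push Not at hc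
      obtain ⟨r, hr, h1⟩ := (lt_clock_limit ht).1 hc
      exact absurd (((ih r hr).1).trans (clock_mono 1 hr.le)) h1.not_ge
    refine ⟨hle, fun h1 h2 => ?_⟩
    have hb0 : blk (hd α p t) ≠ 0 := fun h' => by
      rw [h'] at h1
      exact absurd h1 (by simp)
    obtain ⟨hp, _⟩ := plim_eq_of_blk ht (blk_ne_zero hb0)
    obtain ⟨s, hs, hs'⟩ := limit_cases hα ht h1
    rcases hs' with hs' | hs'
    · have hc : ∀ u < t, ∃ r, u ≤ r ∧ r < t ∧ blk (hd α p r) = 1 := fun u hu =>
        ⟨max s u, le_max_right _ _, max_lt hs hu, hs' _ (le_max_left _ _) (max_lt hs hu)⟩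
      have h3 : clock α p k t = clock α p k s := by
        apply clock_const t hs.le
        intro r hr1 hr2 hr3
        rw [hs' r hr1 hr2] at hr3
        exact hk1 hr3.symm
      rw [h3]
      exact ((ih s hs).1).trans_lt ((clock_cofinal ht hc).2 s hs)
    · have hne1 : ∀ r, s ≤ r → r < t → blk (hd α p r) ≠ 1 := by
        intro r hr1 hr2 hr3
        have := hs' r hr1 hr2
        rw [hr3] at this
        exact absurd this one_lt_two'.not_ge
      have h3 : clock α p 1 t = clock α p 1 s := clock_const t hs.le hne1
      have hRE := right_exit hα t h1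
      rw [h3] at hRE ⊢
      have h4 : ∀ r, s ≤ r → r < t → clock α p k r < clock α p 1 s := by
        intro r hr1 hr2
        have h5 : ¬ Ev t (fun r => plim α p t < hd α p r) := fun h => lt_irrefl _ ((lt_plim hα).2 h)
        obtain ⟨u, hu1, hu2, hu3⟩ := not_ev h5 hr2
        have h6 : blk (hd α p u) ≤ k := by
          refine le_trans ?_ h2
          rw [← hp]
          exact div_le_left (not_lt.1 hu3) ω
        have h7 := (ih u hu2).2 (hs' u (hr1.trans hu1) hu2) h6
        have h8 : clock α p 1 u = clock α p 1 s :=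
          clock_const u (hr1.trans hu1) fun w hw1 hw2 => hne1 w hw1 (hw2.trans hu2)
        rw [h8] at h7
        exact (clock_mono k hu1).trans_lt h7
      by_cases hc : ∀ u < t, ∃ r, u ≤ r ∧ r < t ∧ blk (hd α p r) = k
      · refine lt_of_le_of_ne (by rwa [h3] at hle) fun he => ?_
        have h5 : ∀ n : ℕ, ω * k + (n : Ordinal.{0}) < plim α p t := by
          intro n
          have h6 := hRE.2 n
          rw [← he] at h6
          rw [← ev_clock ht hc (fun x => n < (lrun p x).n)] at h6
          obtain ⟨u, hu, H⟩ := h6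
          simp only at H
          rw [lt_plim hα]
          refine ⟨u, hu, fun r hr1 hr2 => ?_⟩
          have h7 := H r hr1 hr2
          have hM := match_all (α := α) (p := p) hα hk0 r
          have hb : blk (hd α p r) = k := by
            by_contra hb
            rw [(hM.out hb).2] at h7
            exact absurd h7 (Nat.not_lt_zero _)
          simp only
          rw [← (hM.inn hb).2] at h7
          have h8 : hd α p r = ω * k + (off (hd α p r) : Ordinal.{0}) := by
            conv_lhs => rw [← eq_blk_off (hd α p r), hb]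
          rw [h8, mk_lt_mk]
          exact h7
        have h6 : blk (hd α p t) = k := by
          apply le_antisymm h2
          rw [le_blk, ← hp]
          have := h5 0
          simpa using this.le
        have h7 := h5 (off (hd α p t))
        rw [hp] at h7
        have h8 : hd α p t = ω * k + (off (hd α p t) : Ordinal.{0}) := by
          conv_lhs => rw [← eq_blk_off (hd α p t), h6]
        rw [← h8] at h7
        exact lt_irrefl _ h7
      · push Not at hc
        obtain ⟨u, hu, hu'⟩ := hc
        have hm : max s u < t := max_lt hs hu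
        have h5 : clock α p k t = clock α p k (max s u) :=
          clock_const t hm.le fun r hr1 hr2 => hu' r ((le_max_right _ _).trans hr1) hr2
        rw [h5]
        exact h4 _ (le_max_left _ _) hm

/-- With a distinguished limit state no cell `≥ ω * 2` is reachable. -/
theorem reachable_special_lt (hα : IsSuccLimit α) {μ : Ordinal.{0}}
    (h : Reachable .special α μ) : μ < ω * 2 := by
  obtain ⟨p, t, h1, h2, h3⟩ := h
  by_contra hc
  push Not at hc
  have hb : 2 ≤ blk (hd α p t) := by
    rw [le_blk]
    unfold hd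
    rwa [h3]
  set k := blk (hd α p t) with hk
  have hk0 : k ≠ 0 := fun h => by
    rw [h] at hb
    exact absurd hb (by simp)
  have h4 := (clock_compare (p := p) hα hb t).2 hb le_rfl
  obtain ⟨r, hr, h5, h6⟩ := clock_onto t h4
  have M1 := match_all (α := α) (p := p) hα hk0 t
  have M2 := match_all (α := α) (p := p) hα one_ne_zero r
  obtain ⟨a1, a2⟩ := M1.inn hk.symm
  obtain ⟨b1, b2⟩ := M2.inn h6
  rw [h5] at b1 b2
  have e1 : hd α p t = ω * k + ((lrun p (clock α p k t)).n : Ordinal.{0}) := by
    rw [← a2]
    conv_lhs => rw [← eq_blk_off (hd α p t)]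
  have e2 : hd α p r = ω * 1 + ((lrun p (clock α p k t)).n : Ordinal.{0}) := by
    rw [← b2]
    conv_lhs => rw [← eq_blk_off (hd α p r), h6]
  have c1 : (run .special α p t).tape (hd α p t) =
      (lrun p (clock α p k t)).c (lrun p (clock α p k t)).n := by
    rw [e1]
    exact M1.tape _
  have c2 : (run .special α p r).tape (hd α p r) =
      (lrun p (clock α p k t)).c (lrun p (clock α p k t)).n := by
    rw [e2, M2.tape, h5]
  apply h2 r hr
  unfold Halted next at h1 ⊢
  have d1 : (run .special α p t).tape (run .special α p t).head =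
      (lrun p (clock α p k t)).c (lrun p (clock α p k t)).n := c1
  have d2 : (run .special α p r).tape (run .special α p r).head =
      (lrun p (clock α p k t)).c (lrun p (clock α p k t)).n := c2
  rw [d1, a1] at h1
  rw [d2, b1]
  exact h1

end Pool.E8helper7.LongTape
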