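import Pool.Agent.E8helper7.LongTape.Trace

/-!
# Doubling the run on the work tape
-/

open Order Set Ordinal

namespace Pool.E8helper7.LongTape

variable {α : Ordinal.{0}} {Q : (Ordinal.{0} → Sym) → Prop}

lemma Marks.mono {j j' q : Ordinal.{0}} {T : Ordinal.{0} → Sym} (h : Marks j q T) (hj : j ≤ j') :
    Marks j' q T := fun x h1 h2 => h x (((add_le_add_iff_left 1).2 hj).trans h1) h2

/-- Two configurations of the machine between rounds are ordered in time as their runs on the work
tape. -/
lemma time_lt {t t' p j q s p' j' q' s' : Ordinal.{0}}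
    (h : run .liminf α prog t = ⟨1, 0, tp p j q s⟩)
    (h' : run .liminf α prog t' = ⟨1, 0, tp p' j' q' s'⟩) (hp : p < p') : t < t' := by
  by_contra hlt
  push Not at hlt
  have h1 : ((run .liminf α prog t').tape (1 + p)).2.1 = true := by
    rw [h']
    simp only
    rw [tp_pos (one_add_ne_zero' p)]
    simpa using (add_lt_add_iff_left 1).2 hp
  have h2 := inv_work (1 + p) h1 hlt
  rw [h] at h2
  simp only at h2
  rw [tp_pos (one_add_ne_zero' p)] at h2
  simp at h2

/-- The configuration at a limit of rounds. -/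
lemma limit_stage {l : Ordinal.{0}} (hl : IsSuccLimit l) {f : Ordinal.{0} → Ordinal.{0}}
    {P J K S : Ordinal.{0} → Ordinal.{0}}
    (hf : ∀ i < l, run .liminf α prog (f i) = ⟨1, 0, tp (P i) (J i) (K i) (S i)⟩)
    (hP : ∀ i < l, ∀ i' < l, i < i' → P i < P i') {p s : Ordinal.{0}}
    (hp : ∀ x, x < 1 + p ↔ ∃ i < l, x < 1 + P i) (hs : ∀ x, x < 1 + s ↔ ∃ i < l, x < 1 + S i) :
    ∃ t', (∀ i < l, f i < t') ∧ (∀ s < t', ∃ i < l, s < f i) ∧
      ∀ T : Ordinal.{0} → Sym, T 0 = (true, false, false) →
        (∀ x, x ≠ 0 → T x = (evTrue t' (fun r => ((run .liminf α prog r).tape x).1),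
          decide (x < 1 + p), decide (x < 1 + s))) →
        run .liminf α prog t' = ⟨1, 0, T⟩ := by
  obtain ⟨t', ht', hlt, hcof⟩ := exists_limit_time hl (f := f)
    (fun i hi i' hi' hii => time_lt (hf i hi) (hf i' hi') (hP i hi i' hi' hii))
  refine ⟨t', hlt, hcof, fun T hT0 hT => ?_⟩
  obtain ⟨h1, h2⟩ := run_at_limit (α := α) ht' (by
    intro s hs
    obtain ⟨i, hi, hsi⟩ := hcof s hs
    exact ⟨f i, hsi.le, hlt i hi, by rw [hf i hi], by rw [hf i hi]⟩)
  have htape : (run .liminf α prog t').tape = T := by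
    ext1 x
    rcases eq_or_ne x 0 with hx | hx
    · rw [hx, hT0, inv_home t' ht'.bot_lt.ne']
    · rw [hT x hx, run_limit ht']
      simp only [limitConfig]
      congr 2
      · by_cases hc : x < 1 + p
        · obtain ⟨i, hi, hxi⟩ := (hp x).1 hc
          rw [decide_eq_true hc, evTrue_iff]
          refine ⟨f i, hlt i hi, fun r h3 _ => inv_work x ?_ h3⟩
          rw [hf i hi]
          simp only
          rw [tp_pos hx]
          simpa using hxi
        · rw [decide_eq_false hc]
          apply evTrue_eq_false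
          intro s hs
          obtain ⟨i, hi, hsi⟩ := hcof s hs
          refine ⟨f i, hsi.le, hlt i hi, ?_⟩
          rw [hf i hi]
          simp only
          rw [tp_pos hx]
          have : ¬ x < 1 + P i := fun h => hc ((hp x).2 ⟨i, hi, h⟩)
          rw [decide_eq_false this]
      · by_cases hc : x < 1 + s
        · obtain ⟨i, hi, hxi⟩ := (hs x).1 hc
          rw [decide_eq_true hc, evTrue_iff]
          refine ⟨f i, hlt i hi, fun r h3 _ => inv_out x ?_ h3⟩
          rw [hf i hi]
          simp only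
          rw [tp_pos hx]
          simpa using hxi
        · rw [decide_eq_false hc]
          apply evTrue_eq_false
          intro s' hs'
          obtain ⟨i, hi, hsi⟩ := hcof s' hs'
          refine ⟨f i, hsi.le, hlt i hi, ?_⟩
          rw [hf i hi]
          simp only
          rw [tp_pos hx]
          have : ¬ x < 1 + S i := fun h => hc ((hs x).2 ⟨i, hi, h⟩)
          rw [decide_eq_false this]
  rw [← htape]
  ext1
  · exact h1
  · exact h2
  · rfl

/-- The inner loop adds `j ≤ q` cells to the run on the work tape. -/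
lemma inner_loop (hα : IsSuccLimit α) {q s : Ordinal.{0}} (hq : 1 + (q + q) < α)
    (j : Ordinal.{0}) : j ≤ q →
    Go α prog (Marks j q) ⟨1, 0, tp q 0 q s⟩ ⟨1, 0, tp (q + j) j q s⟩ := by
  induction j using limitRecOn with
  | zero =>
    intro _
    rw [add_zero]
    exact Go.refl (marks_tp le_rfl)
  | add_one j ih =>
    intro hj
    have hj' : j < q := (lt_add_one j).trans_le hj
    have hqj : 1 + (q + j) < α := by
      refine lt_of_le_of_lt ?_ hq
      exact (add_le_add_iff_left 1).2 ((add_le_add_iff_left q).2 hj'.le)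
    have h1 := (ih hj'.le).mono (fun T h => Marks.mono h (lt_add_one j).le)
    have h2 := inner_step (α := α) hα (p := q + j) (s := s) hj' (by simp) hqj
    rw [add_assoc] at h2
    exact h1.trans h2
  | limit j hj ih =>
    intro hjq t ht
    have H : ∀ i < j, ∃ t', t ≤ t' ∧ run .liminf α prog t' = ⟨1, 0, tp (q + i) i q s⟩ ∧
        ∀ r, t ≤ r → r ≤ t' → Marks i q (run .liminf α prog r).tape := fun i hi =>
      ih i hi (hi.le.trans hjq) t ht
    choose! f hf using H
    have hp : ∀ x, x < 1 + (q + j) ↔ ∃ i < j, x < 1 + (q + i) := by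
      intro x
      constructor
      · intro hx
        rw [← add_assoc] at hx
        obtain ⟨i, hi, h⟩ := (lt_add_iff_of_isSuccLimit hj).1 hx
        exact ⟨i, hi, by rwa [← add_assoc]⟩
      · rintro ⟨i, hi, h⟩
        exact h.trans ((add_lt_add_iff_left 1).2 ((add_lt_add_iff_left q).2 hi))
    obtain ⟨t', hlt, hcof, hrun⟩ := limit_stage (α := α) hj (f := f) (P := fun i => q + i)
      (J := fun i => i) (K := fun _ => q) (S := fun _ => s) (fun i hi => (hf i hi).2.1)
      (fun i _ i' _ h => (add_lt_add_iff_left q).2 h) hp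
      (fun x => ⟨fun h => ⟨0, hj.bot_lt, h⟩, fun ⟨_, _, h⟩ => h⟩)
    have htt' : t < t' := lt_of_le_of_lt (hf 0 hj.bot_lt).1 (hlt 0 hj.bot_lt)
    have hmarks : ∀ r, t ≤ r → r < t' → Marks j q (run .liminf α prog r).tape := by
      intro r h1 h2
      obtain ⟨i, hi, hri⟩ := hcof r h2
      exact Marks.mono ((hf i hi).2.2 r h1 hri.le) hi.le
    have hfin := hrun (tp (q + j) j q s) (tp_zero _ _ _ _) (by
      intro x hx
      rw [tp_pos hx]
      congr 1
      symm
      by_cases hc : 1 + j ≤ x ∧ x < 1 + q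
      · rw [decide_eq_true hc, evTrue_iff]
        exact ⟨t, htt', fun r h1 h2 => hmarks r h1 h2 x hc.1 hc.2⟩
      · rw [decide_eq_false hc]
        apply evTrue_eq_false
        intro s' hs'
        obtain ⟨i, hi, hsi⟩ := hcof s' hs'
        by_cases hxq : x < 1 + q
        · have hxj : x < 1 + j := by
            by_contra h
            exact hc ⟨not_lt.1 h, hxq⟩
          obtain ⟨k, hk, hxk⟩ := (lt_add_iff_of_isSuccLimit hj).1 hxj
          have hm : max i k < j := max_lt hi hk
          refine ⟨f (max i k), ?_, hlt _ hm, ?_⟩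
          · rcases eq_or_lt_of_le (le_max_left i k) with h | h
            · rw [← h]; exact hsi.le
            · exact hsi.le.trans (time_lt (hf i hi).2.1 (hf _ hm).2.1
                ((add_lt_add_iff_left q).2 h)).le
          · rw [(hf _ hm).2.1]
            simp only
            rw [tp_pos hx]
            have : ¬ (1 + max i k ≤ x ∧ x < 1 + q) := by
              rintro ⟨h, _⟩
              have h2 : 1 + k ≤ 1 + max i k := (add_le_add_iff_left 1).2 (le_max_right i k)
              exact absurd (hxk.trans_le (h2.trans h)) (lt_irrefl _)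
            rw [decide_eq_false this]
        · refine ⟨f i, hsi.le, hlt i hi, ?_⟩
          rw [(hf i hi).2.1]
          simp only
          rw [tp_pos hx]
          have : ¬ (1 + i ≤ x ∧ x < 1 + q) := fun h => hxq h.2
          rw [decide_eq_false this])
    refine ⟨t', htt'.le, hfin, fun r h1 h2 => ?_⟩
    rcases eq_or_lt_of_le h2 with h | h
    · rw [h, hfin]
      exact marks_tp le_rfl
    · exact hmarks r h1 h

/-- A tape without marks does not depend on the third parameter. -/
lemma tp_no_marks (p q s : Ordinal.{0}) : tp p q q s = tp p 0 0 s := by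
  ext1 x
  rcases eq_or_ne x 0 with hx | hx
  · simp [hx, tp_zero]
  · rw [tp_pos hx, tp_pos hx]
    have e1 : ¬ (1 + q ≤ x ∧ x < 1 + q) := fun h => absurd (h.1.trans_lt h.2) (lt_irrefl _)
    have e2 : ¬ ((1 : Ordinal.{0}) + 0 ≤ x ∧ x < 1 + 0) := fun h =>
      absurd (h.1.trans_lt h.2) (lt_irrefl _)
    rw [decide_eq_false e1, decide_eq_false e2]

/-- One round of the outer loop: the run on the work tape is doubled, that on the output tape
grows by one. -/
lemma stage (hα : IsSuccLimit α) {p s : Ordinal.{0}} (hp : 1 + (p + p) < α) (hs : 1 + s < α) :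
    Go α prog (fun _ => True) ⟨1, 0, tp p 0 0 s⟩ ⟨1, 0, tp (p + p) 0 0 (s + 1)⟩ := by
  have hp1 : 1 + p < α := lt_of_le_of_lt ((add_le_add_iff_left 1).2 (by simp)) hp
  have hss : (1 : Ordinal.{0}) + (s + 1) = 1 + s + 1 := (add_assoc 1 s 1).symm
  have no : ∀ x, ¬ ((1 : Ordinal.{0}) + 0 ≤ x ∧ x < 1 + 0) := fun x h =>
    absurd (h.1.trans_lt h.2) (lt_irrefl _)
  have s1 : Go α prog (fun _ => True) ⟨1, 0, tp p 0 0 s⟩ ⟨2, 1, tp p 0 0 s⟩ := by
    have := goR (α := α) (Q := fun _ => True) (q := 1) (q' := 2) (h := 0) (T := tp p 0 0 s)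
      (tp_zero _ _ _ _) (lookup_prog (by norm_num) _) trivial
    simpa using this
  have s2 : Go α prog (fun _ => True) ⟨2, 1, tp p 0 0 s⟩ ⟨2, 1 + p, tp p 0 0 s⟩ := by
    apply Go.right hα (by simp) hp1 _ trivial
    intro x h1 h2
    have hx : x ≠ 0 := (one_pos.trans_le h1).ne'
    rw [tp_pos hx, lookup_prog (by norm_num), decide_eq_false (no x), decide_eq_true h2]
    simp [tab]
  have s3 : Go α prog (fun _ => True) ⟨2, 1 + p, tp p 0 0 s⟩ ⟨4, leftOf (1 + p), tp p 0 0 s⟩ := by
    have h1 : tp p 0 0 s (1 + p) = (false, false, decide (1 + p < 1 + s)) := by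
      rw [tp_pos (one_add_ne_zero' p), decide_eq_false (no _), decide_eq_false (lt_irrefl _)]
    apply goL h1 _ trivial
    rw [lookup_prog (by norm_num)]
    simp [tab]
  have s4 : Go α prog (fun _ => True) ⟨4, leftOf (1 + p), tp p 0 0 s⟩ ⟨4, 0, tp p 0 0 s⟩ :=
    goHome (Or.inr (Or.inl rfl)) (by simp) trivial _
  have s5 : Go α prog (fun _ => True) ⟨4, 0, tp p 0 0 s⟩ ⟨5, 1, tp p 0 0 s⟩ := by
    have := goR (α := α) (Q := fun _ => True) (q := 4) (q' := 5) (h := 0) (T := tp p 0 0 s)
      (tp_zero _ _ _ _) (lookup_prog (by norm_num) _) trivial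
    simpa using this
  have s6 : Go α prog (fun _ => True) ⟨5, 1, tp p 0 0 s⟩ ⟨5, 1 + s, tp p 0 0 s⟩ := by
    apply Go.right hα (by simp) hs _ trivial
    intro x h1 h2
    have hx : x ≠ 0 := (one_pos.trans_le h1).ne'
    rw [tp_pos hx, lookup_prog (by norm_num), decide_eq_true h2]
    simp [tab]
  have s7 : Go α prog (fun _ => True) ⟨5, 1 + s, tp p 0 0 s⟩
      ⟨6, leftOf (1 + s), tp p 0 0 (s + 1)⟩ := by
    have h1 : tp p 0 0 s (1 + s) = (false, decide (1 + s < 1 + p), false) := by
      rw [tp_pos (one_add_ne_zero' s), decide_eq_false (no _),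
        decide_eq_false (lt_irrefl (1 + s))]
    apply goLw h1 (s := (false, decide (1 + s < 1 + p), true)) _ _ trivial trivial
    · rw [lookup_prog (by norm_num)]
      simp [tab]
    · ext1 x
      rcases eq_or_ne x (1 + s) with hx | hx
      · subst hx
        rw [Function.update_self, tp_pos (one_add_ne_zero' s), decide_eq_false (no _)]
        have e2 : 1 + s < 1 + (s + 1) := by rw [hss]; exact lt_add_one _
        rw [decide_eq_true e2]
      · rw [Function.update_of_ne hx]
        rcases eq_or_ne x 0 with hx0 | hx0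
        · simp [hx0, tp_zero]
        · rw [tp_pos hx0, tp_pos hx0]
          have e1 : (x < 1 + s) ↔ (x < 1 + (s + 1)) := by
            rw [hss]
            constructor
            · intro h1
              exact h1.trans (lt_add_one _)
            · intro h1
              exact lt_of_le_of_ne (Order.lt_add_one_iff.1 h1) hx
          rw [decide_eq_decide.2 e1]
  have s8 : Go α prog (fun _ => True) ⟨6, leftOf (1 + s), tp p 0 0 (s + 1)⟩
      ⟨6, 0, tp p 0 0 (s + 1)⟩ :=
    goHome (Or.inr (Or.inr rfl)) (by simp) trivial _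
  have s9 : Go α prog (fun _ => True) ⟨6, 0, tp p 0 0 (s + 1)⟩ ⟨7, 1, tp p 0 0 (s + 1)⟩ := by
    have := goR (α := α) (Q := fun _ => True) (q := 6) (q' := 7) (h := 0) (T := tp p 0 0 (s + 1))
      (tp_zero _ _ _ _) (lookup_prog (by norm_num) _) trivial
    simpa using this
  have s10 : Go α prog (fun _ => True) ⟨7, 1, tp p 0 0 (s + 1)⟩
      ⟨7, 1 + p, tp p 0 p (s + 1)⟩ := by
    have := Go.write (α := α) (p := prog) (q := 7) (h := 1) (h' := 1 + p)
      (T := tp p 0 0 (s + 1)) (T' := tp p 0 p (s + 1)) (by simp) hp1 (by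
        intro x h1 h2
        have hx : x ≠ 0 := (one_pos.trans_le h1).ne'
        have hc : 1 + 0 ≤ x ∧ x < 1 + p := ⟨by simpa using h1, h2⟩
        rw [tp_pos hx, tp_pos hx, lookup_prog (by norm_num), decide_eq_false (no x),
          decide_eq_true h2, decide_eq_true hc]
        simp [tab])
    have e : patch (tp p 0 0 (s + 1)) (tp p 0 p (s + 1)) 1 (1 + p) = tp p 0 p (s + 1) := by
      ext1 x
      unfold patch
      split_ifs with h
      · rfl
      · rcases eq_or_ne x 0 with hx0 | hx0
        · simp [hx0, tp_zero]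
        · rw [tp_pos hx0, tp_pos hx0]
          have hc : ¬ (1 + 0 ≤ x ∧ x < 1 + p) := by simpa using h
          rw [decide_eq_false (no x), decide_eq_false hc]
    rwa [e] at this
  have s11 : Go α prog (fun _ => True) ⟨7, 1 + p, tp p 0 p (s + 1)⟩
      ⟨1, leftOf (1 + p), tp p 0 p (s + 1)⟩ := by
    have h1 : tp p 0 p (s + 1) (1 + p) = (false, false, decide (1 + p < 1 + (s + 1))) := by
      have hc : ¬ (1 + 0 ≤ 1 + p ∧ 1 + p < 1 + p) := fun h => lt_irrefl _ h.2
      rw [tp_pos (one_add_ne_zero' p), decide_eq_false hc, decide_eq_false (lt_irrefl _)]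
    apply goL h1 _ trivial
    rw [lookup_prog (by norm_num)]
    simp [tab]
  have s12 : Go α prog (fun _ => True) ⟨1, leftOf (1 + p), tp p 0 p (s + 1)⟩
      ⟨1, 0, tp p 0 p (s + 1)⟩ :=
    goHome (Or.inl rfl) le_rfl trivial _
  have s13 : Go α prog (fun _ => True) ⟨1, 0, tp p 0 p (s + 1)⟩
      ⟨1, 0, tp (p + p) 0 0 (s + 1)⟩ := by
    have := (inner_loop (α := α) hα (q := p) (s := s + 1) hp p le_rfl).mono
      (Q' := fun _ => True) (fun _ _ => trivial)
    rwa [tp_no_marks] at this
  exact s1.trans (s2.trans (s3.trans (s4.trans (s5.trans (s6.trans (s7.trans (s8.trans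
    (s9.trans (s10.trans (s11.trans (s12.trans s13)))))))))))

end Pool.E8helper7.LongTape
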