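import Pool.Agent.E8helper7.LongTape.Basic

/-!
# Walking to the right while writing
-/

open Order Set Ordinal

namespace Pool.E8helper7.LongTape

variable {α : Ordinal.{0}} {p : Program}

open Classical in
/-- The tape `T` with the cells in `[a, b)` replaced by those of `T'`. -/
noncomputable def patch (T T' : Ordinal.{0} → Sym) (a b : Ordinal.{0}) : Ordinal.{0} → Sym :=
  fun x => if a ≤ x ∧ x < b then T' x else T x

/-- The machine walks to the right and rewrites the cells it passes, without changing state. -/
theorem walk_write {t : Ordinal.{0}} {q : ℕ} {h : Ordinal.{0}}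
    {T T' : Ordinal.{0} → Sym} (ht : run .liminf α p t = ⟨q, h, T⟩) (d : Ordinal.{0}) :
    h + d < α → (∀ x, h ≤ x → x < h + d → p.lookup (q, T x) = some (q, T' x, true)) →
      run .liminf α p (t + d) = ⟨q, h + d, patch T T' h (h + d)⟩ := by
  induction d using WellFoundedLT.induction with
  | ind d IH =>
  intro hd hp
  have hIH : ∀ e < d, run .liminf α p (t + e) = ⟨q, h + e, patch T T' h (h + e)⟩ := by
    intro e he
    have hlt : h + e < h + d := (add_lt_add_iff_left h).2 he
    exact IH e he (hlt.trans hd) (fun x h1 h2 => hp x h1 (h2.trans hlt))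
  clear IH
  induction d using limitRecOn with
  | zero =>
    rw [add_zero, add_zero, ht]
    congr 1
    ext1 x
    have : ¬ (h ≤ x ∧ x < h) := fun h' => absurd (h'.1.trans_lt h'.2) (lt_irrefl _)
    rw [patch, if_neg this]
  | add_one e _ =>
    rw [← add_assoc, run_add_one, hIH e (lt_add_one e)]
    have hlt : h + e < h + (e + 1) := (add_lt_add_iff_left h).2 (lt_add_one e)
    have hT : patch T T' h (h + e) (h + e) = T (h + e) := by
      rw [patch, if_neg (fun h' => absurd h'.2 (lt_irrefl _))]
    rw [step_eq (p := p) (c := ⟨q, h + e, patch T T' h (h + e)⟩)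
      (q := q) (s := T' (h + e)) (d := true) (by simpa [hT] using hp (h + e) (by simp) hlt)]
    simp only [if_true, ← add_assoc]
    congr 1
    ext1 x
    rcases eq_or_ne x (h + e) with hx | hx
    · subst hx
      rw [Function.update_self, patch, if_pos ⟨by simp, lt_add_one _⟩]
    · rw [Function.update_of_ne hx, patch, patch]
      have h1 : (h ≤ x ∧ x < h + e) ↔ (h ≤ x ∧ x < h + e + 1) := by
        constructor
        · rintro ⟨h1, h2⟩
          exact ⟨h1, h2.trans (lt_add_one _)⟩
        · rintro ⟨h1, h2⟩
          exact ⟨h1, lt_of_le_of_ne (Order.lt_add_one_iff.1 h2) hx⟩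
      simp only [h1]
  | limit d hdl _ =>
    have hdpos : 0 < d := hdl.bot_lt
    rw [run_limit (isSuccLimit_add t hdl)]
    have key : ∀ r, t ≤ r → r < t + d → ∃ e < d, r = t + e ∧
        run .liminf α p r = ⟨q, h + e, patch T T' h (h + e)⟩ := by
      intro r h1 h2
      have h3 : t + (r - t) = r := Ordinal.add_sub_cancel_of_le h1
      have h4 : r - t < d := by
        rw [← h3] at h2
        exact (add_lt_add_iff_left t).1 h2
      refine ⟨r - t, h4, h3.symm, ?_⟩
      have := hIH _ h4
      rwa [h3] at this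
    have htd : t < t + d := by
      simpa using (add_lt_add_iff_left t).2 hdpos
    have hcof : ∀ s < t + d, ∃ r, s ≤ r ∧ r < t + d ∧ t ≤ r := by
      intro s hs
      exact ⟨max s t, le_max_left _ _, max_lt hs htd, le_max_right _ _⟩
    have hhead : liminfAt (t + d) (fun r => (run .liminf α p r).head) = h + d := by
      apply liminfAt_eq_ord
      · intro y hy
        obtain ⟨e, he, hye⟩ := (lt_add_iff_of_isSuccLimit hdl).1 hy
        refine ⟨t + e, (add_lt_add_iff_left t).2 he, fun r h1 h2 => ?_⟩
        obtain ⟨e', he', hr, hrun⟩ := key r (le_trans (by simp) h1) h2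
        rw [hrun]
        subst hr
        exact lt_of_lt_of_le hye (by simpa using h1)
      · intro s hs
        obtain ⟨r, h1, h2, h3⟩ := hcof s hs
        obtain ⟨e', he', hr, hrun⟩ := key r h3 h2
        refine ⟨r, h1, h2, ?_⟩
        rw [hrun]
        simpa using he'.le
    have hstate : liminfAt (t + d) (fun r => (run .liminf α p r).state) = q := by
      apply liminfAt_eq_nat
      · refine ⟨t, htd, fun r h1 h2 => ?_⟩
        obtain ⟨e', he', hr, hrun⟩ := key r h1 h2
        simp [hrun]
      · intro s hs
        obtain ⟨r, h1, h2, h3⟩ := hcof s hs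
        obtain ⟨e', he', hr, hrun⟩ := key r h3 h2
        exact ⟨r, h1, h2, by simp [hrun]⟩
    have htape : ∀ x, ∃ s < t + d, ∀ r, s ≤ r → r < t + d →
        (run .liminf α p r).tape x = patch T T' h (h + d) x := by
      intro x
      by_cases hx : h ≤ x ∧ x < h + d
      · obtain ⟨e, he, hxe⟩ := (lt_add_iff_of_isSuccLimit hdl).1 hx.2
        refine ⟨t + e, (add_lt_add_iff_left t).2 he, fun r h1 h2 => ?_⟩
        obtain ⟨e', he', hr, hrun⟩ := key r (le_trans (by simp) h1) h2
        rw [hrun]
        subst hr
        simp only [patch]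
        rw [if_pos hx, if_pos ⟨hx.1, lt_of_lt_of_le hxe (by simpa using h1)⟩]
      · refine ⟨t, htd, fun r h1 h2 => ?_⟩
        obtain ⟨e', he', hr, hrun⟩ := key r h1 h2
        rw [hrun]
        simp only [patch]
        rw [if_neg hx, if_neg]
        rintro ⟨h3, h4⟩
        exact hx ⟨h3, h4.trans ((add_lt_add_iff_left h).2 he')⟩
    have e1 : ∀ x, evTrue (t + d) (fun r => ((run .liminf α p r).tape x).1) =
        (patch T T' h (h + d) x).1 := fun x => evTrue_const (by
      obtain ⟨s, hs, H⟩ := htape x
      exact ⟨s, hs, fun r h1 h2 => by rw [H r h1 h2]⟩)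
    have e2 : ∀ x, evTrue (t + d) (fun r => ((run .liminf α p r).tape x).2.1) =
        (patch T T' h (h + d) x).2.1 := fun x => evTrue_const (by
      obtain ⟨s, hs, H⟩ := htape x
      exact ⟨s, hs, fun r h1 h2 => by rw [H r h1 h2]⟩)
    have e3 : ∀ x, evTrue (t + d) (fun r => ((run .liminf α p r).tape x).2.2) =
        (patch T T' h (h + d) x).2.2 := fun x => evTrue_const (by
      obtain ⟨s, hs, H⟩ := htape x
      exact ⟨s, hs, fun r h1 h2 => by rw [H r h1 h2]⟩)
    simp only [limitConfig, hhead, hstate, e1, e2, e3, if_pos hd]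

lemma Go.write {q : ℕ} {h h' : Ordinal.{0}} {T T' : Ordinal.{0} → Sym}
    (hh : h ≤ h') (hh' : h' < α)
    (hp : ∀ x, h ≤ x → x < h' → p.lookup (q, T x) = some (q, T' x, true)) :
    Go α p (fun _ => True) ⟨q, h, T⟩ ⟨q, h', patch T T' h h'⟩ := by
  intro t ht
  have e : h + (h' - h) = h' := Ordinal.add_sub_cancel_of_le hh
  refine ⟨t + (h' - h), by simp, ?_, fun _ _ _ => trivial⟩
  rw [walk_write (T' := T') ht (h' - h) (by rwa [e]) (by rwa [e]), e]

end Pool.E8helper7.LongTape
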