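import Pool.Agent.E8helper7.LongTape.Prog
import Pool.Agent.E8helper7.LongTape.Write

/-!
# The run of the program
-/

open Order Set Ordinal

namespace Pool.E8helper7.LongTape

variable {α : Ordinal.{0}} {Q : (Ordinal.{0} → Sym) → Prop}

open Classical in
/-- The tapes between two rounds: cell `0` contains `(1, 0, 0)`; the input tape has marks in
`[1 + j, 1 + q)`, the work tape in `[1, 1 + p)` and the output tape in `[1, 1 + s)`. -/
noncomputable def tp (p j q s : Ordinal.{0}) : Ordinal.{0} → Sym := fun x =>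
  if x = 0 then (true, false, false) else
    (decide (1 + j ≤ x ∧ x < 1 + q), decide (x < 1 + p), decide (x < 1 + s))

lemma tp_zero (p j q s : Ordinal.{0}) : tp p j q s 0 = (true, false, false) := by
  simp [tp]

lemma tp_pos {p j q s x : Ordinal.{0}} (hx : x ≠ 0) : tp p j q s x =
    (decide (1 + j ≤ x ∧ x < 1 + q), decide (x < 1 + p), decide (x < 1 + s)) := by
  simp [tp, hx]

lemma goR {q q' : ℕ} {h : Ordinal.{0}} {T : Ordinal.{0} → Sym} {s : Sym}
    (hs : T h = s) (hp : prog.lookup (q, s) = some (q', s, true)) (hQ : Q T) :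
    Go α prog Q ⟨q, h, T⟩ ⟨q', h + 1, T⟩ := by
  have e : Function.update T h s = T := by rw [← hs, Function.update_eq_self]
  have := Go.step (α := α) (p := prog) (Q := Q) hs hp hQ (by rwa [e])
  simpa [e] using this

lemma goL {q q' : ℕ} {h : Ordinal.{0}} {T : Ordinal.{0} → Sym} {s : Sym}
    (hs : T h = s) (hp : prog.lookup (q, s) = some (q', s, false)) (hQ : Q T) :
    Go α prog Q ⟨q, h, T⟩ ⟨q', leftOf h, T⟩ := by
  have e : Function.update T h s = T := by rw [← hs, Function.update_eq_self]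
  have := Go.step (α := α) (p := prog) (Q := Q) hs hp hQ (by rwa [e])
  simpa [e] using this

lemma goRw {q q' : ℕ} {h : Ordinal.{0}} {T T' : Ordinal.{0} → Sym} {s₀ s : Sym}
    (hs : T h = s₀) (hp : prog.lookup (q, s₀) = some (q', s, true))
    (hT' : Function.update T h s = T') (hQ : Q T) (hQ' : Q T') :
    Go α prog Q ⟨q, h, T⟩ ⟨q', h + 1, T'⟩ := by
  have := Go.step (α := α) (p := prog) (Q := Q) hs hp hQ (by rwa [hT'])
  simpa [hT'] using this

lemma goLw {q q' : ℕ} {h : Ordinal.{0}} {T T' : Ordinal.{0} → Sym} {s₀ s : Sym}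
    (hs : T h = s₀) (hp : prog.lookup (q, s₀) = some (q', s, false))
    (hT' : Function.update T h s = T') (hQ : Q T) (hQ' : Q T') :
    Go α prog Q ⟨q, h, T⟩ ⟨q', leftOf h, T'⟩ := by
  have := Go.step (α := α) (p := prog) (Q := Q) hs hp hQ (by rwa [hT'])
  simpa [hT'] using this

lemma tab_left : ∀ i w o : Bool, (i = true → w = true) →
    tab 1 (i, w, o) = some (1, (i, w, o), false) ∧ tab 4 (i, w, o) = some (4, (i, w, o), false) ∧
    tab 6 (i, w, o) = some (6, (i, w, o), false) := by
  intro i w o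
  cases i <;> cases w <;> cases o <;> simp [tab]

/-- In states `1`, `4` and `6` the machine walks back to cell `0`. -/
lemma goHome {q : ℕ} (hq : q = 1 ∨ q = 4 ∨ q = 6) {p j q' s : Ordinal.{0}} (hqp : q' ≤ p)
    (hQ : Q (tp p j q' s)) (h : Ordinal.{0}) :
    Go α prog Q ⟨q, h, tp p j q' s⟩ ⟨q, 0, tp p j q' s⟩ := by
  apply Go.left hQ
  intro x hx _
  rw [lookup_prog (by omega)]
  rw [tp_pos hx.ne']
  have h1 : decide (1 + j ≤ x ∧ x < 1 + q') = true → decide (x < 1 + p) = true := by
    simp only [decide_eq_true_eq]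
    intro h2
    exact h2.2.trans_le ((add_le_add_iff_left 1).2 hqp)
  rcases hq with rfl | rfl | rfl
  · exact (tab_left _ _ _ h1).1
  · exact (tab_left _ _ _ h1).2.1
  · exact (tab_left _ _ _ h1).2.2

/-- The property kept during one round of the inner loop. -/
def Marks (j q : Ordinal.{0}) (T : Ordinal.{0} → Sym) : Prop :=
  ∀ x, 1 + j ≤ x → x < 1 + q → (T x).1 = true

lemma marks_tp {p j q s j' : Ordinal.{0}} (h : j ≤ j') : Marks j' q (tp p j q s) := by
  intro x h1 h2
  have hx : x ≠ 0 := by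
    rintro rfl
    simp at h1
  rw [tp_pos hx]
  simp only [decide_eq_true_eq]
  exact ⟨((add_le_add_iff_left 1).2 h).trans h1, h2⟩

lemma one_add_ne_zero' (j : Ordinal.{0}) : (1 : Ordinal.{0}) + j ≠ 0 := by simp

/-- One round of the inner loop. -/
lemma inner_step (hα : IsSuccLimit α) {p j q s : Ordinal.{0}} (hj : j < q) (hqp : q ≤ p)
    (hp : 1 + p < α) :
    Go α prog (Marks (j + 1) q) ⟨1, 0, tp p j q s⟩ ⟨1, 0, tp (p + 1) (j + 1) q s⟩ := by
  have hjp : 1 + j < 1 + p := (add_lt_add_iff_left 1).2 (hj.trans_le hqp)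
  have hjj : (1 : Ordinal.{0}) + (j + 1) = 1 + j + 1 := (add_assoc 1 j 1).symm
  have hpp : (1 : Ordinal.{0}) + (p + 1) = 1 + p + 1 := (add_assoc 1 p 1).symm
  have M1 : Marks (j + 1) q (tp p j q s) := marks_tp (lt_add_one j).le
  have M2 : Marks (j + 1) q (tp p (j + 1) q s) := marks_tp le_rfl
  have M3 : Marks (j + 1) q (tp (p + 1) (j + 1) q s) := marks_tp le_rfl
  -- leave cell `0`
  have s1 : Go α prog (Marks (j + 1) q) ⟨1, 0, tp p j q s⟩ ⟨2, 1, tp p j q s⟩ := by
    have := goR (α := α) (q := 1) (q' := 2) (h := 0) (T := tp p j q s)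
      (tp_zero _ _ _ _) (lookup_prog (by norm_num) _) M1
    simpa using this
  -- walk to the first mark
  have s2 : Go α prog (Marks (j + 1) q) ⟨2, 1, tp p j q s⟩ ⟨2, 1 + j, tp p j q s⟩ := by
    apply Go.right hα (by simp) (hjp.trans hp) _ M1
    intro x h1 h2
    have hx : x ≠ 0 := (one_pos.trans_le h1).ne'
    rw [tp_pos hx, lookup_prog (by norm_num)]
    have e1 : ¬ (1 + j ≤ x ∧ x < 1 + q) := fun h => absurd h2 h.1.not_gt
    have e2 : x < 1 + p := h2.trans hjp
    simp [e1, e2, tab]
  -- erase it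
  have s3 : Go α prog (Marks (j + 1) q) ⟨2, 1 + j, tp p j q s⟩
      ⟨3, 1 + j + 1, tp p (j + 1) q s⟩ := by
    have h1 : tp p j q s (1 + j) = (true, true, decide (1 + j < 1 + s)) := by
      rw [tp_pos (one_add_ne_zero' j)]
      have e1 : 1 + j ≤ 1 + j ∧ 1 + j < 1 + q := ⟨le_rfl, (add_lt_add_iff_left 1).2 hj⟩
      rw [decide_eq_true e1, decide_eq_true hjp]
    apply goRw h1 (s := (false, true, decide (1 + j < 1 + s))) _ _ M1 M2
    · rw [lookup_prog (by norm_num)]
      simp [tab]
    · ext1 x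
      rcases eq_or_ne x (1 + j) with hx | hx
      · subst hx
        rw [Function.update_self, tp_pos (one_add_ne_zero' j)]
        have e1 : ¬ (1 + (j + 1) ≤ 1 + j ∧ 1 + j < 1 + q) := by
          rw [hjj]
          exact fun h => absurd h.1 (lt_add_one _).not_ge
        rw [decide_eq_false e1, decide_eq_true hjp]
      · rw [Function.update_of_ne hx]
        rcases eq_or_ne x 0 with hx0 | hx0
        · simp [hx0, tp_zero]
        · rw [tp_pos hx0, tp_pos hx0]
          have e1 : (1 + j ≤ x ∧ x < 1 + q) ↔ (1 + (j + 1) ≤ x ∧ x < 1 + q) := by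
            rw [hjj]
            constructor
            · rintro ⟨h1, h2⟩
              exact ⟨Order.add_one_le_of_lt (lt_of_le_of_ne h1 hx.symm), h2⟩
            · rintro ⟨h1, h2⟩
              exact ⟨(lt_add_one _).le.trans h1, h2⟩
          rw [decide_eq_decide.2 e1]
  -- walk to the end of the run on the work tape
  have s4 : Go α prog (Marks (j + 1) q) ⟨3, 1 + j + 1, tp p (j + 1) q s⟩
      ⟨3, 1 + p, tp p (j + 1) q s⟩ := by
    apply Go.right hα (Order.add_one_le_of_lt hjp) hp _ M2
    intro x h1 h2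
    have hx : x ≠ 0 := by
      rintro rfl
      simp at h1
    rw [tp_pos hx, lookup_prog (by norm_num), decide_eq_true h2]
    simp [tab]
  -- extend it
  have s5 : Go α prog (Marks (j + 1) q) ⟨3, 1 + p, tp p (j + 1) q s⟩
      ⟨1, leftOf (1 + p), tp (p + 1) (j + 1) q s⟩ := by
    have h1 : tp p (j + 1) q s (1 + p) = (false, false, decide (1 + p < 1 + s)) := by
      rw [tp_pos (one_add_ne_zero' p)]
      have e1 : ¬ (1 + (j + 1) ≤ 1 + p ∧ 1 + p < 1 + q) := fun h =>
        absurd h.2 ((add_le_add_iff_left 1).2 hqp).not_gt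
      rw [decide_eq_false e1, decide_eq_false (lt_irrefl _)]
    apply goLw h1 (s := (false, true, decide (1 + p < 1 + s))) _ _ M2 M3
    · rw [lookup_prog (by norm_num)]
      simp [tab]
    · ext1 x
      rcases eq_or_ne x (1 + p) with hx | hx
      · subst hx
        rw [Function.update_self, tp_pos (one_add_ne_zero' p)]
        have e1 : ¬ (1 + (j + 1) ≤ 1 + p ∧ 1 + p < 1 + q) := fun h =>
          absurd h.2 ((add_le_add_iff_left 1).2 hqp).not_gt
        have e2 : 1 + p < 1 + (p + 1) := by rw [hpp]; exact lt_add_one _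
        rw [decide_eq_false e1, decide_eq_true e2]
      · rw [Function.update_of_ne hx]
        rcases eq_or_ne x 0 with hx0 | hx0
        · simp [hx0, tp_zero]
        · rw [tp_pos hx0, tp_pos hx0]
          have e1 : (x < 1 + p) ↔ (x < 1 + (p + 1)) := by
            rw [hpp]
            constructor
            · intro h1
              exact h1.trans (lt_add_one _)
            · intro h1
              exact lt_of_le_of_ne (Order.lt_add_one_iff.1 h1) hx
          rw [decide_eq_decide.2 e1]
  -- walk back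
  have s6 : Go α prog (Marks (j + 1) q) ⟨1, leftOf (1 + p), tp (p + 1) (j + 1) q s⟩
      ⟨1, 0, tp (p + 1) (j + 1) q s⟩ :=
    goHome (Or.inl rfl) (hqp.trans (lt_add_one p).le) M3 _
  exact s1.trans (s2.trans (s3.trans (s4.trans (s5.trans s6))))

end Pool.E8helper7.LongTape
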